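import Pool.Agent.H3Mahler.Schur

set_option autoImplicit false
set_option linter.unusedVariables false

namespace Pool.Agent.H3Mahler

lemma cert_C1 (c g1 g2 g3 g4 g5 g6 g7 g8 g9 g10 g11 g12 g13 t : ℝ)
    (hF : ∀ w0 w1 w2 w3 w4 w5 w6 w7 u0 u1 u2 u3 u4 u5 u6 u7 : ℝ, w0 * u0 * c + w1 * u0 * g1 + w1 * u1 * c + w2 * u0 * g2 + w2 * u1 * g1 + w2 * u2 * c + w3 * u0 * g3 + w3 * u1 * g4 + w3 * u2 * g5 + w3 * u3 * c + w4 * u0 * g6 + w4 * u1 * g3 + w4 * u2 * g4 + w4 * u3 * g1 + w4 * u4 * c + w5 * u0 * (c + g7) + w5 * u1 * g6 + w5 * u2 * g3 + w5 * u3 * g2 + w5 * u4 * g1 + w5 * u5 * c + w6 * u0 * (g3 + g6 + g8) + w6 * u1 * (g3 + g4 + g9) + w6 * u2 * (g4 + g5 + g10) + w6 * u3 * (c + g1 + g11) + w6 * u4 * (c + g7) + w6 * u5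 * g6 + w6 * u6 * c + w7 * u0 * (g6 + g7 + g12 + t) + w7 * u1 * (g3 + g6 + g8) + w7 * u2 * (g3 + g4 + g9) + w7 * u3 * (g1 + g2 + g13) + w7 * u4 * (c + g1 + g11) + w7 * u5 * (c + g7) + w7 * u6 * g1 + w7 * u7 * c
      ≤ (w0 ^ 2 + w1 ^ 2 + w2 ^ 2 + w3 ^ 2 + w4 ^ 2 + w5 ^ 2 + w6 ^ 2 + w7 ^ 2 + (u0 ^ 2 + u1 ^ 2 + u2 ^ 2 + u3 ^ 2 + u4 ^ 2 + u5 ^ 2 + u6 ^ 2 + u7 ^ 2)) / 2)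
    (hG : ∀ w0 w1 w2 w3 w4 w5 w6 w7 u0 u1 u2 u3 u4 u5 u6 u7 : ℝ, w0 * u0 * c + w1 * u0 * g1 + w1 * u1 * c + w2 * u0 * g2 + w2 * u1 * g1 + w2 * u2 * c + w3 * u0 * g3 + w3 * u1 * g4 + w3 * u2 * g5 + w3 * u3 * c + w4 * u0 * g6 + w4 * u1 * g3 + w4 * u2 * g4 + w4 * u3 * g1 + w4 * u4 * c + w5 * u0 * g7 + w5 * u1 * g6 + w5 * u2 * g3 + w5 * u3 * g2 + w5 * u4 * g1 + w5 * u5 * c + w6 * u0 * g8 + w6 * u1 * g9 + w6 * u2 * g10 + w6 * u3 * g11 + w6 * u4 * g7 + w6 * u5 * g6 + w6 * u6 * c + w7 * u0 * g12 + w7 * u1 * g8 + w7 * u2 * g9 + w7 * u3 * g13 + w7 * u4 * g11 + w7 * u5 * g7 + w7 * u6 * g1 + w7 * u7 * c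
      ≤ (w0 ^ 2 + w1 ^ 2 + w2 ^ 2 + w3 ^ 2 + w4 ^ 2 + w5 ^ 2 + w6 ^ 2 + w7 ^ 2 + (u0 ^ 2 + u1 ^ 2 + u2 ^ 2 + u3 ^ 2 + u4 ^ 2 + u5 ^ 2 + u6 ^ 2 + u7 ^ 2)) / 2)
    (ht : t ≤ 0) : c ≤ 733 / 1000 := by
  have i0 := hF 3 (-3) 1 1 (-8) (-4) (-5) (-17) 4 (-3) 1 2 (-11) (-10) (-1) (-12)
  have i1 := hF 11 (-4) 1 0 (-4) 16 (-2) 1 15 (-2) 0 1 (-6) 12 (-2) 1
  have i2 := hF 5 (-5) 5 2 8 (-1) 15 (-6) 7 (-5) 5 4 11 (-2) 12 (-4)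
  have i3 := hG 4 (-2) 1 1 (-7) (-8) 0 16 6 (-2) 1 2 (-10) (-11) (-3) 12
  have i4 := hG 8 (-7) 4 (-4) 10 (-11) (-3) (-5) 11 (-7) 4 (-4) 12 (-7) (-1) (-3)
  have i5 := hG 1 (-2) 5 (-10) (-3) 1 16 (-1) 2 (-2) 6 (-13) (-7) 2 12 (-1)
  have i6 := hF 9 (-2) 1 1 (-8) 7 (-6) (-12) 14 0 0 2 (-12) 0 (-3) (-8)
  have i7 := hG 1 (-7) 7 (-9) 0 (-1) 15 (-3) 2 (-9) 7 (-11) (-4) 1 11 (-2)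
  have i8 := hG 2 (-2) (-3) 0 (-9) (-6) 3 16 3 (-3) (-6) 0 (-12) (-9) 0 11
  have i9 := hF 2 2 5 (-4) (-7) (-4) (-11) (-13) 3 3 7 (-5) (-11) (-8) (-5) (-9)
  have i10 := hG 4 (-5) 4 (-6) (-5) (-8) 11 10 6 (-6) 3 (-9) (-10) (-8) 6 7
  have i11 := hG 9 (-4) 5 (-2) 10 (-11) (-6) (-5) 12 (-3) 4 (-2) 12 (-7) (-4) (-4)
  have i12 := hG 4 (-3) 4 (-6) 10 (-2) 2 (-15) 5 (-3) 4 (-8) 13 3 3 (-10)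
  have b0 := hG 0 1 0 0 0 0 0 0 1 0 0 0 0 0 0 0
  have b1 := hG 0 (-1) 0 0 0 0 0 0 1 0 0 0 0 0 0 0
  have b2 := hG 0 0 1 0 0 0 0 0 1 0 0 0 0 0 0 0
  have b3 := hG 0 0 (-1) 0 0 0 0 0 1 0 0 0 0 0 0 0
  have b4 := hG 0 0 0 1 0 0 0 0 1 0 0 0 0 0 0 0
  have b5 := hG 0 0 0 (-1) 0 0 0 0 1 0 0 0 0 0 0 0
  have b6 := hG 0 0 0 1 0 0 0 0 0 1 0 0 0 0 0 0
  have b7 := hG 0 0 0 (-1) 0 0 0 0 0 1 0 0 0 0 0 0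
  have b8 := hG 0 0 0 1 0 0 0 0 0 0 1 0 0 0 0 0
  have b9 := hG 0 0 0 (-1) 0 0 0 0 0 0 1 0 0 0 0 0
  have b10 := hG 0 0 0 0 1 0 0 0 1 0 0 0 0 0 0 0
  have b11 := hG 0 0 0 0 (-1) 0 0 0 1 0 0 0 0 0 0 0
  have b12 := hG 0 0 0 0 0 1 0 0 1 0 0 0 0 0 0 0
  have b13 := hG 0 0 0 0 0 (-1) 0 0 1 0 0 0 0 0 0 0
  have b14 := hG 0 0 0 0 0 0 1 0 1 0 0 0 0 0 0 0
  have b15 := hG 0 0 0 0 0 0 (-1) 0 1 0 0 0 0 0 0 0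
  have b16 := hG 0 0 0 0 0 0 1 0 0 1 0 0 0 0 0 0
  have b17 := hG 0 0 0 0 0 0 (-1) 0 0 1 0 0 0 0 0 0
  have b18 := hG 0 0 0 0 0 0 1 0 0 0 1 0 0 0 0 0
  have b19 := hG 0 0 0 0 0 0 (-1) 0 0 0 1 0 0 0 0 0
  have b20 := hG 0 0 0 0 0 0 1 0 0 0 0 1 0 0 0 0
  have b21 := hG 0 0 0 0 0 0 (-1) 0 0 0 0 1 0 0 0 0
  have b22 := hG 0 0 0 0 0 0 0 1 1 0 0 0 0 0 0 0
  have b23 := hG 0 0 0 0 0 0 0 (-1) 1 0 0 0 0 0 0 0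
  have b24 := hG 0 0 0 0 0 0 0 1 0 0 0 1 0 0 0 0
  have b25 := hG 0 0 0 0 0 0 0 (-1) 0 0 0 1 0 0 0 0
  linarith

lemma cert_C2p (c g1 g2 g3 g4 g5 g6 g7 g8 t : ℝ)
    (hF : ∀ w0 w1 w2 w3 w4 w5 w6 u0 u1 u2 u3 u4 u5 u6 : ℝ, w0 * u0 * c + w1 * u0 * g1 + w1 * u1 * c + w2 * u0 * g2 + w2 * u1 * g1 + w2 * u2 * c + w3 * u0 * g3 + w3 * u1 * g2 + w3 * u2 * g1 + w3 * u3 * c + w4 * u0 * (c + g4) + w4 * u1 * g3 + w4 * u2 * g2 + w4 * u3 * g1 + w4 * u4 * c + w5 * u0 * (g2 + g3 + g5) + w5 * u1 * (g1 + g2 + g6) + w5 * u2 * (c + g1 + g7) + w5 * u3 * (c + g4) + w5 * u4 * g3 + w5 * u5 * c + w6 * u0 * (g3 + g4 + g8 + t) + w6 * u1 * (g2 + g3 + g5) + w6 * u2 * (g1 + g2 + g6) + w6 * u3 * (c + g1 + g7) + w6 * u4 * (c + g4) + w6 * u5 * g1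 + w6 * u6 * c
      ≤ (w0 ^ 2 + w1 ^ 2 + w2 ^ 2 + w3 ^ 2 + w4 ^ 2 + w5 ^ 2 + w6 ^ 2 + (u0 ^ 2 + u1 ^ 2 + u2 ^ 2 + u3 ^ 2 + u4 ^ 2 + u5 ^ 2 + u6 ^ 2)) / 2)
    (hG : ∀ w0 w1 w2 w3 w4 w5 w6 u0 u1 u2 u3 u4 u5 u6 : ℝ, w0 * u0 * c + w1 * u0 * g1 + w1 * u1 * c + w2 * u0 * g2 + w2 * u1 * g1 + w2 * u2 * c + w3 * u0 * g3 + w3 * u1 * g2 + w3 * u2 * g1 + w3 * u3 * c + w4 * u0 * g4 + w4 * u1 * g3 + w4 * u2 * g2 + w4 * u3 * g1 + w4 * u4 * c + w5 * u0 * g5 + w5 * u1 * g6 + w5 * u2 * g7 + w5 * u3 * g4 + w5 * u4 * g3 + w5 * u5 * c + w6 * u0 * g8 + w6 * u1 * g5 + w6 * u2 * g6 + w6 * u3 * g7 + w6 * u4 * g4 + w6 * u5 * g1 + w6 * u6 * c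
      ≤ (w0 ^ 2 + w1 ^ 2 + w2 ^ 2 + w3 ^ 2 + w4 ^ 2 + w5 ^ 2 + w6 ^ 2 + (u0 ^ 2 + u1 ^ 2 + u2 ^ 2 + u3 ^ 2 + u4 ^ 2 + u5 ^ 2 + u6 ^ 2)) / 2)
    (ht : t ≤ 0) : c ≤ 733 / 1000 := by
  have i0 := hF 6 (-6) 7 (-13) (-11) (-4) (-34) 8 (-7) 9 (-17) (-23) 1 (-25)
  have i1 := hG 8 (-6) 9 (-16) (-14) (-4) 31 11 (-7) 11 (-21) (-19) (-7) 22
  have i2 := hF 2 3 (-8) (-10) 13 (-36) (-2) 11 31 9 (-18) (-7) (-6) 0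
  have b0 := hG 0 1 0 0 0 0 0 1 0 0 0 0 0 0
  have b1 := hG 0 (-1) 0 0 0 0 0 1 0 0 0 0 0 0
  have b2 := hG 0 0 1 0 0 0 0 1 0 0 0 0 0 0
  have b3 := hG 0 0 (-1) 0 0 0 0 1 0 0 0 0 0 0
  have b4 := hG 0 0 0 1 0 0 0 1 0 0 0 0 0 0
  have b5 := hG 0 0 0 (-1) 0 0 0 1 0 0 0 0 0 0
  have b6 := hG 0 0 0 0 1 0 0 1 0 0 0 0 0 0
  have b7 := hG 0 0 0 0 (-1) 0 0 1 0 0 0 0 0 0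
  have b8 := hG 0 0 0 0 0 1 0 1 0 0 0 0 0 0
  have b9 := hG 0 0 0 0 0 (-1) 0 1 0 0 0 0 0 0
  have b10 := hG 0 0 0 0 0 1 0 0 1 0 0 0 0 0
  have b11 := hG 0 0 0 0 0 (-1) 0 0 1 0 0 0 0 0
  have b12 := hG 0 0 0 0 0 1 0 0 0 1 0 0 0 0
  have b13 := hG 0 0 0 0 0 (-1) 0 0 0 1 0 0 0 0
  have b14 := hG 0 0 0 0 0 0 1 1 0 0 0 0 0 0
  have b15 := hG 0 0 0 0 0 0 (-1) 1 0 0 0 0 0 0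
  linarith

lemma cert_C2m (c g1 g2 g3 g4 g5 g6 g7 g8 t : ℝ)
    (hF : ∀ w0 w1 w2 w3 w4 w5 w6 u0 u1 u2 u3 u4 u5 u6 : ℝ, w0 * u0 * c + w1 * u0 * g1 + w1 * u1 * c + w2 * u0 * g2 + w2 * u1 * g1 + w2 * u2 * c + w3 * u0 * g3 + w3 * u1 * g2 + w3 * u2 * g1 + w3 * u3 * c + w4 * u0 * (-c + g4) + w4 * u1 * g3 + w4 * u2 * g2 + w4 * u3 * g1 + w4 * u4 * c + w5 * u0 * (g2 - g3 + g5) + w5 * u1 * (g1 - g2 + g6) + w5 * u2 * (c - g1 + g7) + w5 * u3 * (-c + g4) + w5 * u4 * g3 + w5 * u5 * c + w6 * u0 * (g3 - g4 + g8 + t) + w6 * u1 * (g2 - g3 + g5) + w6 * u2 * (g1 - g2 + g6) + w6 * u3 * (c - g1 + g7) + w6 * u4 * (-c + g4) + w6 * u5 * g1 + w6 * u6 * c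
      ≤ (w0 ^ 2 + w1 ^ 2 + w2 ^ 2 + w3 ^ 2 + w4 ^ 2 + w5 ^ 2 + w6 ^ 2 + (u0 ^ 2 + u1 ^ 2 + u2 ^ 2 + u3 ^ 2 + u4 ^ 2 + u5 ^ 2 + u6 ^ 2)) / 2)
    (hG : ∀ w0 w1 w2 w3 w4 w5 w6 u0 u1 u2 u3 u4 u5 u6 : ℝ, w0 * u0 * c + w1 * u0 * g1 + w1 * u1 * c + w2 * u0 * g2 + w2 * u1 * g1 + w2 * u2 * c + w3 * u0 * g3 + w3 * u1 * g2 + w3 * u2 * g1 + w3 * u3 * c + w4 * u0 * g4 + w4 * u1 * g3 + w4 * u2 * g2 + w4 * u3 * g1 + w4 * u4 * c + w5 * u0 * g5 + w5 * u1 * g6 + w5 * u2 * g7 + w5 * u3 * g4 + w5 * u4 * g3 + w5 * u5 * c + w6 * u0 * g8 + w6 * u1 * g5 + w6 * u2 * g6 + w6 * u3 * g7 + w6 * u4 * g4 + w6 * u5 * g1 + w6 * u6 * c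
      ≤ (w0 ^ 2 + w1 ^ 2 + w2 ^ 2 + w3 ^ 2 + w4 ^ 2 + w5 ^ 2 + w6 ^ 2 + (u0 ^ 2 + u1 ^ 2 + u2 ^ 2 + u3 ^ 2 + u4 ^ 2 + u5 ^ 2 + u6 ^ 2)) / 2)
    (ht : t ≤ 0) : c ≤ 733 / 1000 := by
  have i0 := hF 3 4 1 (-9) 0 10 (-10) 5 4 0 (-13) 5 6 (-8)
  have i1 := hF 7 2 3 (-1) (-14) 4 8 9 1 3 (-3) (-13) 4 6
  have i2 := hG 2 0 (-2) (-8) 5 0 15 3 (-1) (-3) (-10) 8 3 11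
  have i3 := hG 8 7 6 7 11 1 0 11 7 6 7 8 0 0
  have i4 := hF 6 0 (-2) 5 (-10) (-11) 7 10 (-1) (-4) 8 (-10) (-6) 4
  have i5 := hG 5 6 8 6 3 (-9) (-9) 7 9 10 5 (-1) (-7) (-6)
  have i6 := hF 1 (-1) 3 (-7) 3 11 (-11) 1 (-2) 5 (-12) 8 6 (-8)
  have i7 := hG 5 0 (-6) 1 8 12 8 8 (-2) (-9) 3 8 8 5
  have b0 := hG 0 1 0 0 0 0 0 1 0 0 0 0 0 0
  have b1 := hG 0 (-1) 0 0 0 0 0 1 0 0 0 0 0 0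
  have b2 := hG 0 0 1 0 0 0 0 1 0 0 0 0 0 0
  have b3 := hG 0 0 (-1) 0 0 0 0 1 0 0 0 0 0 0
  have b4 := hG 0 0 0 1 0 0 0 1 0 0 0 0 0 0
  have b5 := hG 0 0 0 (-1) 0 0 0 1 0 0 0 0 0 0
  have b6 := hG 0 0 0 0 1 0 0 1 0 0 0 0 0 0
  have b7 := hG 0 0 0 0 (-1) 0 0 1 0 0 0 0 0 0
  have b8 := hG 0 0 0 0 0 1 0 1 0 0 0 0 0 0
  have b9 := hG 0 0 0 0 0 (-1) 0 1 0 0 0 0 0 0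
  have b10 := hG 0 0 0 0 0 1 0 0 1 0 0 0 0 0
  have b11 := hG 0 0 0 0 0 (-1) 0 0 1 0 0 0 0 0
  have b12 := hG 0 0 0 0 0 1 0 0 0 1 0 0 0 0
  have b13 := hG 0 0 0 0 0 (-1) 0 0 0 1 0 0 0 0
  have b14 := hG 0 0 0 0 0 0 1 1 0 0 0 0 0 0
  have b15 := hG 0 0 0 0 0 0 (-1) 1 0 0 0 0 0 0
  linarith

lemma cert_C3 (c g1 g2 g3 g4 g5 g6 g7 g8 g9 g10 g11 g12 g13 t : ℝ)
    (hF : ∀ w0 w1 w2 w3 w4 w5 w6 w7 u0 u1 u2 u3 u4 u5 u6 u7 : ℝ, w0 * u0 * c + w1 * u0 * g1 + w1 * u1 * c + w2 * u0 * g2 + w2 * u1 * g3 + w2 * u2 * c + w3 * u0 * g4 + w3 * u1 * g1 + w3 * u2 * g5 + w3 * u3 * c + w4 * u0 * g6 + w4 * u1 * g2 + w4 * u2 * g1 + w4 * u3 * g3 + w4 * u4 * c + w5 * u0 * (c + g7) + w5 * u1 * g6 + w5 * u2 * g4 + w5 * u3 * g2 + w5 * u4 * g1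 + w5 * u5 * c + w6 * u0 * (g2 + g6 + g8) + w6 * u1 * (g2 + g3 + g9) + w6 * u2 * (c + g1 + g10) + w6 * u3 * (g3 + g11) + w6 * u4 * (c + g7) + w6 * u5 * g6 + w6 * u6 * c + w7 * u0 * (g6 + g7 + g12 + t) + w7 * u1 * (g2 + g6 + g8) + w7 * u2 * (g1 + g4 + g13) + w7 * u3 * (g2 + g3 + g9) + w7 * u4 * (c + g1 + g10) + w7 * u5 * (c + g7) + w7 * u6 * g1 + w7 * u7 * c
      ≤ (w0 ^ 2 + w1 ^ 2 + w2 ^ 2 + w3 ^ 2 + w4 ^ 2 + w5 ^ 2 + w6 ^ 2 + w7 ^ 2 + (u0 ^ 2 + u1 ^ 2 + u2 ^ 2 + u3 ^ 2 + u4 ^ 2 + u5 ^ 2 + u6 ^ 2 + u7 ^ 2)) / 2)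
    (hG : ∀ w0 w1 w2 w3 w4 w5 w6 w7 u0 u1 u2 u3 u4 u5 u6 u7 : ℝ, w0 * u0 * c + w1 * u0 * g1 + w1 * u1 * c + w2 * u0 * g2 + w2 * u1 * g3 + w2 * u2 * c + w3 * u0 * g4 + w3 * u1 * g1 + w3 * u2 * g5 + w3 * u3 * c + w4 * u0 * g6 + w4 * u1 * g2 + w4 * u2 * g1 + w4 * u3 * g3 + w4 * u4 * c + w5 * u0 * g7 + w5 * u1 * g6 + w5 * u2 * g4 + w5 * u3 * g2 + w5 * u4 * g1 + w5 * u5 * c + w6 * u0 * g8 + w6 * u1 * g9 + w6 * u2 * g10 + w6 * u3 * g11 + w6 * u4 * g7 + w6 * u5 * g6 + w6 * u6 * c + w7 * u0 * g12 + w7 * u1 * g8 + w7 * u2 * g13 + w7 * u3 * g9 + w7 * u4 * g10 + w7 * u5 * g7 + w7 * u6 * g1 + w7 * u7 * c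
      ≤ (w0 ^ 2 + w1 ^ 2 + w2 ^ 2 + w3 ^ 2 + w4 ^ 2 + w5 ^ 2 + w6 ^ 2 + w7 ^ 2 + (u0 ^ 2 + u1 ^ 2 + u2 ^ 2 + u3 ^ 2 + u4 ^ 2 + u5 ^ 2 + u6 ^ 2 + u7 ^ 2)) / 2)
    (ht : t ≤ 0) : c ≤ 733 / 1000 := by
  have i0 := hF 6 (-5) 3 2 (-16) (-8) (-10) (-33) 9 (-6) 4 2 (-21) (-21) (-2) (-24)
  have i1 := hF 21 (-7) 1 2 (-8) 32 (-5) 3 29 (-3) 2 0 (-13) 24 (-4) 2
  have i2 := hF 11 (-10) 5 9 16 0 29 (-12) 15 (-11) 7 10 22 (-3) 23 (-9)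
  have i3 := hG 9 (-4) 3 2 (-14) (-17) 0 32 12 (-3) 4 1 (-19) (-22) (-5) 23
  have i4 := hG 17 (-13) (-7) 9 20 (-22) (-6) (-9) 23 (-13) (-8) 7 23 (-14) (-3) (-6)
  have i5 := hF 4 5 5 10 12 17 25 20 7 8 10 13 20 22 16 11
  have i6 := hG 3 (-4) 7 (-4) 15 5 (-23) (-27) 6 (-10) 18 (-11) 25 2 (-13) (-13)
  have i7 := hG 1 2 16 21 10 1 (-25) (-13) 2 3 28 17 16 2 (-14) (-7)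
  have i8 := hF 10 1 (-10) (-14) (-14) 15 (-28) (-3) 14 5 (-12) (-17) (-24) 7 (-19) (-2)
  have i9 := hF 9 (-2) (-5) (-1) 12 25 10 25 12 (-1) (-5) (-1) 14 30 4 18
  have i10 := hG 7 (-9) 8 0 19 (-9) (-27) (-16) 10 (-12) 14 (-6) 27 (-4) (-17) (-11)
  have b0 := hG 0 1 0 0 0 0 0 0 1 0 0 0 0 0 0 0
  have b1 := hG 0 (-1) 0 0 0 0 0 0 1 0 0 0 0 0 0 0
  have b2 := hG 0 0 1 0 0 0 0 0 1 0 0 0 0 0 0 0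
  have b3 := hG 0 0 (-1) 0 0 0 0 0 1 0 0 0 0 0 0 0
  have b4 := hG 0 0 1 0 0 0 0 0 0 1 0 0 0 0 0 0
  have b5 := hG 0 0 (-1) 0 0 0 0 0 0 1 0 0 0 0 0 0
  have b6 := hG 0 0 0 1 0 0 0 0 1 0 0 0 0 0 0 0
  have b7 := hG 0 0 0 (-1) 0 0 0 0 1 0 0 0 0 0 0 0
  have b8 := hG 0 0 0 1 0 0 0 0 0 0 1 0 0 0 0 0
  have b9 := hG 0 0 0 (-1) 0 0 0 0 0 0 1 0 0 0 0 0
  have b10 := hG 0 0 0 0 1 0 0 0 1 0 0 0 0 0 0 0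
  have b11 := hG 0 0 0 0 (-1) 0 0 0 1 0 0 0 0 0 0 0
  have b12 := hG 0 0 0 0 0 1 0 0 1 0 0 0 0 0 0 0
  have b13 := hG 0 0 0 0 0 (-1) 0 0 1 0 0 0 0 0 0 0
  have b14 := hG 0 0 0 0 0 0 1 0 1 0 0 0 0 0 0 0
  have b15 := hG 0 0 0 0 0 0 (-1) 0 1 0 0 0 0 0 0 0
  have b16 := hG 0 0 0 0 0 0 1 0 0 1 0 0 0 0 0 0
  have b17 := hG 0 0 0 0 0 0 (-1) 0 0 1 0 0 0 0 0 0
  have b18 := hG 0 0 0 0 0 0 1 0 0 0 1 0 0 0 0 0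
  have b19 := hG 0 0 0 0 0 0 (-1) 0 0 0 1 0 0 0 0 0
  have b20 := hG 0 0 0 0 0 0 1 0 0 0 0 1 0 0 0 0
  have b21 := hG 0 0 0 0 0 0 (-1) 0 0 0 0 1 0 0 0 0
  have b22 := hG 0 0 0 0 0 0 0 1 1 0 0 0 0 0 0 0
  have b23 := hG 0 0 0 0 0 0 0 (-1) 1 0 0 0 0 0 0 0
  have b24 := hG 0 0 0 0 0 0 0 1 0 0 1 0 0 0 0 0
  have b25 := hG 0 0 0 0 0 0 0 (-1) 0 0 1 0 0 0 0 0
  linarith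

lemma cert_C4p (c g1 g2 g3 g4 g5 g6 t : ℝ)
    (hF : ∀ w0 w1 w2 w3 w4 w5 w6 u0 u1 u2 u3 u4 u5 u6 : ℝ, w0 * u0 * c + w1 * u0 * g1 + w1 * u1 * c + w2 * u0 * g2 + w2 * u1 * g1 + w2 * u2 * c + w3 * u0 * (c + g3) + w3 * u1 * g2 + w3 * u2 * g1 + w3 * u3 * c + w4 * u0 * (c + g1 + g4) + w4 * u1 * (c + g3) + w4 * u2 * g2 + w4 * u3 * g1 + w4 * u4 * c + w5 * u0 * (g1 + g2 + g5) + w5 * u1 * (c + g1 + g4) + w5 * u2 * (c + g3) + w5 * u3 * g2 + w5 * u4 * g1 + w5 * u5 * c + w6 * u0 * (g2 + g3 + g6 + t) + w6 * u1 * (g1 + g2 + g5) + w6 * u2 * (c + g1 + g4) + w6 * u3 * (c + g3) + w6 * u4 * g2 + w6 * u5 * g1 + w6 * u6 * c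
      ≤ (w0 ^ 2 + w1 ^ 2 + w2 ^ 2 + w3 ^ 2 + w4 ^ 2 + w5 ^ 2 + w6 ^ 2 + (u0 ^ 2 + u1 ^ 2 + u2 ^ 2 + u3 ^ 2 + u4 ^ 2 + u5 ^ 2 + u6 ^ 2)) / 2)
    (hG : ∀ w0 w1 w2 w3 w4 w5 w6 u0 u1 u2 u3 u4 u5 u6 : ℝ, w0 * u0 * c + w1 * u0 * g1 + w1 * u1 * c + w2 * u0 * g2 + w2 * u1 * g1 + w2 * u2 * c + w3 * u0 * g3 + w3 * u1 * g2 + w3 * u2 * g1 + w3 * u3 * c + w4 * u0 * g4 + w4 * u1 * g3 + w4 * u2 * g2 + w4 * u3 * g1 + w4 * u4 * c + w5 * u0 * g5 + w5 * u1 * g4 + w5 * u2 * g3 + w5 * u3 * g2 + w5 * u4 * g1 + w5 * u5 * c + w6 * u0 * g6 + w6 * u1 * g5 + w6 * u2 * g4 + w6 * u3 * g3 + w6 * u4 * g2 + w6 * u5 * g1 + w6 * u6 * c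
      ≤ (w0 ^ 2 + w1 ^ 2 + w2 ^ 2 + w3 ^ 2 + w4 ^ 2 + w5 ^ 2 + w6 ^ 2 + (u0 ^ 2 + u1 ^ 2 + u2 ^ 2 + u3 ^ 2 + u4 ^ 2 + u5 ^ 2 + u6 ^ 2)) / 2)
    (ht : t ≤ 0) : c ≤ 733 / 1000 := by
  have i0 := hF 8 5 (-10) 4 13 (-10) (-11) 11 10 (-13) (-4) 10 (-5) (-8)
  have i1 := hF 4 10 8 5 13 15 5 5 15 13 5 8 10 4
  have i2 := hG 11 (-2) (-5) (-12) (-9) 1 15 15 1 (-9) (-12) (-5) (-2) 11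
  have i3 := hG 1 (-7) 12 (-12) 14 (-9) 1 1 (-9) 14 (-12) 12 (-7) 1
  have i4 := hG 7 (-14) 5 (-3) (-2) 17 (-9) 9 (-17) 2 3 (-5) 14 (-7)
  have i5 := hG 9 5 9 (-3) (-14) (-10) (-12) 12 10 14 3 (-9) (-5) (-9)
  have b0 := hG 0 1 0 0 0 0 0 1 0 0 0 0 0 0
  have b1 := hG 0 (-1) 0 0 0 0 0 1 0 0 0 0 0 0
  have b2 := hG 0 0 1 0 0 0 0 1 0 0 0 0 0 0
  have b3 := hG 0 0 (-1) 0 0 0 0 1 0 0 0 0 0 0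
  have b4 := hG 0 0 0 1 0 0 0 1 0 0 0 0 0 0
  have b5 := hG 0 0 0 (-1) 0 0 0 1 0 0 0 0 0 0
  have b6 := hG 0 0 0 0 1 0 0 1 0 0 0 0 0 0
  have b7 := hG 0 0 0 0 (-1) 0 0 1 0 0 0 0 0 0
  have b8 := hG 0 0 0 0 0 1 0 1 0 0 0 0 0 0
  have b9 := hG 0 0 0 0 0 (-1) 0 1 0 0 0 0 0 0
  have b10 := hG 0 0 0 0 0 0 1 1 0 0 0 0 0 0
  have b11 := hG 0 0 0 0 0 0 (-1) 1 0 0 0 0 0 0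
  linarith

lemma cert_C4m (c g1 g2 g3 g4 g5 g6 t : ℝ)
    (hF : ∀ w0 w1 w2 w3 w4 w5 w6 u0 u1 u2 u3 u4 u5 u6 : ℝ, w0 * u0 * c + w1 * u0 * g1 + w1 * u1 * c + w2 * u0 * g2 + w2 * u1 * g1 + w2 * u2 * c + w3 * u0 * (c + g3) + w3 * u1 * g2 + w3 * u2 * g1 + w3 * u3 * c + w4 * u0 * (-c + g1 + g4) + w4 * u1 * (c + g3) + w4 * u2 * g2 + w4 * u3 * g1 + w4 * u4 * c + w5 * u0 * (-g1 + g2 + g5) + w5 * u1 * (-c + g1 + g4) + w5 * u2 * (c + g3) + w5 * u3 * g2 + w5 * u4 * g1 + w5 * u5 * c + w6 * u0 * (-g2 + g3 + g6 + t) + w6 * u1 * (-g1 + g2 + g5) + w6 * u2 * (-c + g1 + g4) + w6 * u3 * (c + g3) + w6 * u4 * g2 + w6 * u5 * g1 + w6 * u6 * c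
      ≤ (w0 ^ 2 + w1 ^ 2 + w2 ^ 2 + w3 ^ 2 + w4 ^ 2 + w5 ^ 2 + w6 ^ 2 + (u0 ^ 2 + u1 ^ 2 + u2 ^ 2 + u3 ^ 2 + u4 ^ 2 + u5 ^ 2 + u6 ^ 2)) / 2)
    (hG : ∀ w0 w1 w2 w3 w4 w5 w6 u0 u1 u2 u3 u4 u5 u6 : ℝ, w0 * u0 * c + w1 * u0 * g1 + w1 * u1 * c + w2 * u0 * g2 + w2 * u1 * g1 + w2 * u2 * c + w3 * u0 * g3 + w3 * u1 * g2 + w3 * u2 * g1 + w3 * u3 * c + w4 * u0 * g4 + w4 * u1 * g3 + w4 * u2 * g2 + w4 * u3 * g1 + w4 * u4 * c + w5 * u0 * g5 + w5 * u1 * g4 + w5 * u2 * g3 + w5 * u3 * g2 + w5 * u4 * g1 + w5 * u5 * c + w6 * u0 * g6 + w6 * u1 * g5 + w6 * u2 * g4 + w6 * u3 * g3 + w6 * u4 * g2 + w6 * u5 * g1 + w6 * u6 * c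
      ≤ (w0 ^ 2 + w1 ^ 2 + w2 ^ 2 + w3 ^ 2 + w4 ^ 2 + w5 ^ 2 + w6 ^ 2 + (u0 ^ 2 + u1 ^ 2 + u2 ^ 2 + u3 ^ 2 + u4 ^ 2 + u5 ^ 2 + u6 ^ 2)) / 2)
    (ht : t ≤ 0) : c ≤ 733 / 1000 := by
  have i0 := hF 5 2 2 2 (-2) (-2) (-7) 7 2 2 (-2) (-2) (-2) (-5)
  have i1 := hF 1 (-5) 3 1 (-5) 6 (-1) 1 (-6) 5 (-1) (-3) 5 (-1)
  have i2 := hF 3 (-2) (-3) 5 (-4) (-3) 4 4 (-3) (-4) 5 (-3) (-2) 3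
  have i3 := hG 4 3 2 (-4) 3 3 6 6 3 3 (-4) 2 3 4
  have i4 := hG 1 (-5) 2 0 4 (-7) 2 2 (-7) 4 0 2 (-5) 1
  have i5 := hG 4 (-1) (-4) (-1) 6 2 (-5) 5 (-2) (-6) 1 4 1 (-4)
  have b0 := hG 0 1 0 0 0 0 0 1 0 0 0 0 0 0
  have b1 := hG 0 (-1) 0 0 0 0 0 1 0 0 0 0 0 0
  have b2 := hG 0 0 1 0 0 0 0 1 0 0 0 0 0 0
  have b3 := hG 0 0 (-1) 0 0 0 0 1 0 0 0 0 0 0
  have b4 := hG 0 0 0 1 0 0 0 1 0 0 0 0 0 0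
  have b5 := hG 0 0 0 (-1) 0 0 0 1 0 0 0 0 0 0
  have b6 := hG 0 0 0 0 1 0 0 1 0 0 0 0 0 0
  have b7 := hG 0 0 0 0 (-1) 0 0 1 0 0 0 0 0 0
  have b8 := hG 0 0 0 0 0 1 0 1 0 0 0 0 0 0
  have b9 := hG 0 0 0 0 0 (-1) 0 1 0 0 0 0 0 0
  have b10 := hG 0 0 0 0 0 0 1 1 0 0 0 0 0 0
  have b11 := hG 0 0 0 0 0 0 (-1) 1 0 0 0 0 0 0
  linarith

lemma cert_C5 (c g1 g2 g3 g4 g5 g6 g7 g8 g9 g10 t : ℝ)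
    (hF : ∀ w0 w1 w2 w3 w4 w5 w6 u0 u1 u2 u3 u4 u5 u6 : ℝ, w0 * u0 * c + w1 * u0 * g1 + w1 * u1 * c + w2 * u0 * g2 + w2 * u1 * g3 + w2 * u2 * c + w3 * u0 * (c + g4) + w3 * u1 * g2 + w3 * u2 * g1 + w3 * u3 * c + w4 * u0 * (g3 + g5) + w4 * u1 * g6 + w4 * u2 * g2 + w4 * u3 * g3 + w4 * u4 * c + w5 * u0 * (g2 + g3 + g7) + w5 * u1 * (g3 + g5) + w5 * u2 * (c + g4) + w5 * u3 * g2 + w5 * u4 * g1 + w5 * u5 * c + w6 * u0 * (g2 + g4 + g8 + t) + w6 * u1 * (g2 + g3 + g7) + w6 * u2 * (c + g1 + g9) + w6 * u3 * (c + g4) + w6 * u4 * g10 + w6 * u5 * g1 + w6 * u6 * c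
      ≤ (w0 ^ 2 + w1 ^ 2 + w2 ^ 2 + w3 ^ 2 + w4 ^ 2 + w5 ^ 2 + w6 ^ 2 + (u0 ^ 2 + u1 ^ 2 + u2 ^ 2 + u3 ^ 2 + u4 ^ 2 + u5 ^ 2 + u6 ^ 2)) / 2)
    (hG : ∀ w0 w1 w2 w3 w4 w5 w6 u0 u1 u2 u3 u4 u5 u6 : ℝ, w0 * u0 * c + w1 * u0 * g1 + w1 * u1 * c + w2 * u0 * g2 + w2 * u1 * g3 + w2 * u2 * c + w3 * u0 * g4 + w3 * u1 * g2 + w3 * u2 * g1 + w3 * u3 * c + w4 * u0 * g5 + w4 * u1 * g6 + w4 * u2 * g2 + w4 * u3 * g3 + w4 * u4 * c + w5 * u0 * g7 + w5 * u1 * g5 + w5 * u2 * g4 + w5 * u3 * g2 + w5 * u4 * g1 + w5 * u5 * c + w6 * u0 * g8 + w6 * u1 * g7 + w6 * u2 * g9 + w6 * u3 * g4 + w6 * u4 * g10 + w6 * u5 * g1 + w6 * u6 * c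
      ≤ (w0 ^ 2 + w1 ^ 2 + w2 ^ 2 + w3 ^ 2 + w4 ^ 2 + w5 ^ 2 + w6 ^ 2 + (u0 ^ 2 + u1 ^ 2 + u2 ^ 2 + u3 ^ 2 + u4 ^ 2 + u5 ^ 2 + u6 ^ 2)) / 2)
    (ht : t ≤ 0) : c ≤ 733 / 1000 := by
  have i0 := hG 9 (-5) (-1) (-16) 3 (-5) 15 12 (-4) (-2) (-17) 4 (-6) 11
  have i1 := hF 7 (-6) 8 (-4) (-4) 16 (-15) 9 (-6) 10 (-9) (-6) 14 (-11)
  have i2 := hG 3 (-2) 16 (-4) 4 (-11) (-15) 4 (-2) 21 1 4 (-6) (-11)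
  have i3 := hF 9 (-2) (-10) 17 1 (-12) 3 12 0 (-15) 13 3 (-9) 2
  have i4 := hF 6 (-1) 11 11 (-2) 14 12 8 0 15 14 (-3) 8 9
  have i5 := hG 9 (-6) 11 (-15) 5 (-12) 1 12 (-5) 14 (-12) 6 (-9) 1
  have i6 := hG 4 (-1) (-12) (-7) (-2) 6 20 5 0 (-17) (-11) (-2) 1 14
  have i7 := hF 12 (-6) (-10) 10 (-1) (-7) (-14) 17 (-4) (-15) 1 0 (-3) (-10)
  have i8 := hF 10 (-5) 11 8 (-4) 18 0 13 (-4) 14 7 (-6) 13 0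
  have i9 := hG 7 (-3) (-8) (-11) 0 2 19 9 (-2) (-11) (-14) 0 (-2) 14
  have b0 := hG 0 1 0 0 0 0 0 1 0 0 0 0 0 0
  have b1 := hG 0 (-1) 0 0 0 0 0 1 0 0 0 0 0 0
  have b2 := hG 0 0 1 0 0 0 0 1 0 0 0 0 0 0
  have b3 := hG 0 0 (-1) 0 0 0 0 1 0 0 0 0 0 0
  have b4 := hG 0 0 1 0 0 0 0 0 1 0 0 0 0 0
  have b5 := hG 0 0 (-1) 0 0 0 0 0 1 0 0 0 0 0
  have b6 := hG 0 0 0 1 0 0 0 1 0 0 0 0 0 0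
  have b7 := hG 0 0 0 (-1) 0 0 0 1 0 0 0 0 0 0
  have b8 := hG 0 0 0 0 1 0 0 1 0 0 0 0 0 0
  have b9 := hG 0 0 0 0 (-1) 0 0 1 0 0 0 0 0 0
  have b10 := hG 0 0 0 0 1 0 0 0 1 0 0 0 0 0
  have b11 := hG 0 0 0 0 (-1) 0 0 0 1 0 0 0 0 0
  have b12 := hG 0 0 0 0 0 1 0 1 0 0 0 0 0 0
  have b13 := hG 0 0 0 0 0 (-1) 0 1 0 0 0 0 0 0
  have b14 := hG 0 0 0 0 0 0 1 1 0 0 0 0 0 0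
  have b15 := hG 0 0 0 0 0 0 (-1) 1 0 0 0 0 0 0
  have b16 := hG 0 0 0 0 0 0 1 0 0 1 0 0 0 0
  have b17 := hG 0 0 0 0 0 0 (-1) 0 0 1 0 0 0 0
  have b18 := hG 0 0 0 0 0 0 1 0 0 0 0 1 0 0
  have b19 := hG 0 0 0 0 0 0 (-1) 0 0 0 0 1 0 0
  linarith

lemma cert_C6p (c g1 g2 g3 g4 t : ℝ)
    (hF : ∀ w0 w1 w2 w3 w4 u0 u1 u2 u3 u4 : ℝ, w0 * u0 * c + w1 * u0 * g1 + w1 * u1 * c + w2 * u0 * (c + g2) + w2 * u1 * g1 + w2 * u2 * c + w3 * u0 * (c + g1 + g3) + w3 * u1 * (c + g2) + w3 * u2 * g1 + w3 * u3 * c + w4 * u0 * (g1 + g2 + g4 + t) + w4 * u1 * (c + g1 + g3) + w4 * u2 * (c + g2) + w4 * u3 * g1 + w4 * u4 * c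
      ≤ (w0 ^ 2 + w1 ^ 2 + w2 ^ 2 + w3 ^ 2 + w4 ^ 2 + (u0 ^ 2 + u1 ^ 2 + u2 ^ 2 + u3 ^ 2 + u4 ^ 2)) / 2)
    (hG : ∀ w0 w1 w2 w3 w4 u0 u1 u2 u3 u4 : ℝ, w0 * u0 * c + w1 * u0 * g1 + w1 * u1 * c + w2 * u0 * g2 + w2 * u1 * g1 + w2 * u2 * c + w3 * u0 * g3 + w3 * u1 * g2 + w3 * u2 * g1 + w3 * u3 * c + w4 * u0 * g4 + w4 * u1 * g3 + w4 * u2 * g2 + w4 * u3 * g1 + w4 * u4 * c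
      ≤ (w0 ^ 2 + w1 ^ 2 + w2 ^ 2 + w3 ^ 2 + w4 ^ 2 + (u0 ^ 2 + u1 ^ 2 + u2 ^ 2 + u3 ^ 2 + u4 ^ 2)) / 2)
    (ht : t ≤ 0) : c ≤ 733 / 1000 := by
  have i0 := hF 3 (-1) 1 1 (-4) 4 (-1) (-1) 1 (-3)
  have i1 := hF 2 3 2 4 2 2 4 2 3 2
  have i2 := hF 1 (-2) 4 (-3) 2 2 (-3) 4 (-2) 1
  have i3 := hG 3 (-2) (-2) (-2) 4 4 (-2) (-2) (-2) 3
  have b0 := hG 0 1 0 0 0 1 0 0 0 0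
  have b1 := hG 0 (-1) 0 0 0 1 0 0 0 0
  have b2 := hG 0 0 1 0 0 1 0 0 0 0
  have b3 := hG 0 0 (-1) 0 0 1 0 0 0 0
  have b4 := hG 0 0 0 1 0 1 0 0 0 0
  have b5 := hG 0 0 0 (-1) 0 1 0 0 0 0
  have b6 := hG 0 0 0 0 1 1 0 0 0 0
  have b7 := hG 0 0 0 0 (-1) 1 0 0 0 0
  linarith

lemma cert_C7 (c g1 g2 g3 g4 g5 g6 g7 g8 g9 g10 t : ℝ)
    (hF : ∀ w0 w1 w2 w3 w4 w5 w6 u0 u1 u2 u3 u4 u5 u6 : ℝ, w0 * u0 * c + w1 * u0 * g1 + w1 * u1 * c + w2 * u0 * g2 + w2 * u1 * g3 + w2 * u2 * c + w3 * u0 * g4 + w3 * u1 * g1 + w3 * u2 * g5 + w3 * u3 * c + w4 * u0 * (c + g6) + w4 * u1 * g2 + w4 * u2 * g1 + w4 * u3 * g3 + w4 * u4 * c + w5 * u0 * (g1 + g7) + w5 * u1 * (c + g6) + w5 * u2 * g4 + w5 * u3 * g2 + w5 * u4 * g1 + w5 * u5 * c + w6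 * u0 * (g1 + g6 + g8 + t) + w6 * u1 * (c + g2 + g9) + w6 * u2 * (g1 + g7) + w6 * u3 * (g3 + g10) + w6 * u4 * (c + g6) + w6 * u5 * g2 + w6 * u6 * c
      ≤ (w0 ^ 2 + w1 ^ 2 + w2 ^ 2 + w3 ^ 2 + w4 ^ 2 + w5 ^ 2 + w6 ^ 2 + (u0 ^ 2 + u1 ^ 2 + u2 ^ 2 + u3 ^ 2 + u4 ^ 2 + u5 ^ 2 + u6 ^ 2)) / 2)
    (hG : ∀ w0 w1 w2 w3 w4 w5 w6 u0 u1 u2 u3 u4 u5 u6 : ℝ, w0 * u0 * c + w1 * u0 * g1 + w1 * u1 * c + w2 * u0 * g2 + w2 * u1 * g3 + w2 * u2 * c + w3 * u0 * g4 + w3 * u1 * g1 + w3 * u2 * g5 + w3 * u3 * c + w4 * u0 * g6 + w4 * u1 * g2 + w4 * u2 * g1 + w4 * u3 * g3 + w4 * u4 * c + w5 * u0 * g7 + w5 * u1 * g6 + w5 * u2 * g4 + w5 * u3 * g2 + w5 * u4 * g1 + w5 * u5 * c + w6 * u0 * g8 + w6 * u1 * g9 + w6 * u2 * g7 + w6 * u3 * g10 + w6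 * u4 * g6 + w6 * u5 * g2 + w6 * u6 * c
      ≤ (w0 ^ 2 + w1 ^ 2 + w2 ^ 2 + w3 ^ 2 + w4 ^ 2 + w5 ^ 2 + w6 ^ 2 + (u0 ^ 2 + u1 ^ 2 + u2 ^ 2 + u3 ^ 2 + u4 ^ 2 + u5 ^ 2 + u6 ^ 2)) / 2)
    (ht : t ≤ 0) : c ≤ 733 / 1000 := by
  have i0 := hF 6 (-9) (-2) 0 6 (-9) (-7) 8 (-13) (-1) 1 1 (-6) (-5)
  have i1 := hF 4 9 0 (-1) 10 11 13 5 12 1 (-2) 13 6 9
  have i2 := hF 10 8 (-5) (-3) 8 15 (-3) 14 10 (-4) (-5) 5 11 (-2)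
  have i3 := hF 1 0 (-3) (-1) (-11) 4 (-18) 1 0 (-4) (-2) (-16) 6 (-13)
  have i4 := hG 1 (-13) 0 (-3) (-2) 8 16 1 (-17) 0 (-3) (-6) 3 12
  have i5 := hF 13 (-12) (-7) (-1) 8 (-8) (-19) 17 (-18) (-5) 0 (-2) (-3) (-14)
  have i6 := hG 9 15 (-6) 6 (-16) (-14) (-3) 13 19 (-5) 7 (-11) (-10) (-2)
  have i7 := hF 10 (-12) (-3) 1 19 (-14) 1 14 (-18) 0 3 14 (-10) 1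
  have i8 := hG 7 17 (-6) 7 (-12) (-15) (-9) 10 22 (-6) 7 (-7) (-9) (-7)
  have i9 := hG 9 (-6) (-5) 1 (-16) (-1) 21 12 (-9) (-4) 2 (-18) (-4) 15
  have b0 := hG 0 1 0 0 0 0 0 1 0 0 0 0 0 0
  have b1 := hG 0 (-1) 0 0 0 0 0 1 0 0 0 0 0 0
  have b2 := hG 0 0 1 0 0 0 0 1 0 0 0 0 0 0
  have b3 := hG 0 0 (-1) 0 0 0 0 1 0 0 0 0 0 0
  have b4 := hG 0 0 1 0 0 0 0 0 1 0 0 0 0 0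
  have b5 := hG 0 0 (-1) 0 0 0 0 0 1 0 0 0 0 0
  have b6 := hG 0 0 0 1 0 0 0 1 0 0 0 0 0 0
  have b7 := hG 0 0 0 (-1) 0 0 0 1 0 0 0 0 0 0
  have b8 := hG 0 0 0 1 0 0 0 0 0 1 0 0 0 0
  have b9 := hG 0 0 0 (-1) 0 0 0 0 0 1 0 0 0 0
  have b10 := hG 0 0 0 0 1 0 0 1 0 0 0 0 0 0
  have b11 := hG 0 0 0 0 (-1) 0 0 1 0 0 0 0 0 0
  have b12 := hG 0 0 0 0 0 1 0 1 0 0 0 0 0 0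
  have b13 := hG 0 0 0 0 0 (-1) 0 1 0 0 0 0 0 0
  have b14 := hG 0 0 0 0 0 0 1 1 0 0 0 0 0 0
  have b15 := hG 0 0 0 0 0 0 (-1) 1 0 0 0 0 0 0
  have b16 := hG 0 0 0 0 0 0 1 0 1 0 0 0 0 0
  have b17 := hG 0 0 0 0 0 0 (-1) 0 1 0 0 0 0 0
  have b18 := hG 0 0 0 0 0 0 1 0 0 0 1 0 0 0
  have b19 := hG 0 0 0 0 0 0 (-1) 0 0 0 1 0 0 0
  linarith

lemma cert_C8p (c g1 g2 g3 g4 g5 g6 t : ℝ)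
    (hF : ∀ w0 w1 w2 w3 w4 w5 w6 u0 u1 u2 u3 u4 u5 u6 : ℝ, w0 * u0 * c + w1 * u0 * g1 + w1 * u1 * c + w2 * u0 * g2 + w2 * u1 * g1 + w2 * u2 * c + w3 * u0 * (c + g3) + w3 * u1 * g2 + w3 * u2 * g1 + w3 * u3 * c + w4 * u0 * (g1 + g4) + w4 * u1 * (c + g3) + w4 * u2 * g2 + w4 * u3 * g1 + w4 * u4 * c + w5 * u0 * (c + g2 + g5) + w5 * u1 * (g1 + g4) + w5 * u2 * (c + g3) + w5 * u3 * g2 + w5 * u4 * g1 + w5 * u5 * c + w6 * u0 * (g1 + g3 + g6 + t) + w6 * u1 * (c + g2 + g5) + w6 * u2 * (g1 + g4) + w6 * u3 * (c + g3) + w6 * u4 * g2 + w6 * u5 * g1 + w6 * u6 * c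
      ≤ (w0 ^ 2 + w1 ^ 2 + w2 ^ 2 + w3 ^ 2 + w4 ^ 2 + w5 ^ 2 + w6 ^ 2 + (u0 ^ 2 + u1 ^ 2 + u2 ^ 2 + u3 ^ 2 + u4 ^ 2 + u5 ^ 2 + u6 ^ 2)) / 2)
    (hG : ∀ w0 w1 w2 w3 w4 w5 w6 u0 u1 u2 u3 u4 u5 u6 : ℝ, w0 * u0 * c + w1 * u0 * g1 + w1 * u1 * c + w2 * u0 * g2 + w2 * u1 * g1 + w2 * u2 * c + w3 * u0 * g3 + w3 * u1 * g2 + w3 * u2 * g1 + w3 * u3 * c + w4 * u0 * g4 + w4 * u1 * g3 + w4 * u2 * g2 + w4 * u3 * g1 + w4 * u4 * c + w5 * u0 * g5 + w5 * u1 * g4 + w5 * u2 * g3 + w5 * u3 * g2 + w5 * u4 * g1 + w5 * u5 * c + w6 * u0 * g6 + w6 * u1 * g5 + w6 * u2 * g4 + w6 * u3 * g3 + w6 * u4 * g2 + w6 * u5 * g1 + w6 * u6 * c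
      ≤ (w0 ^ 2 + w1 ^ 2 + w2 ^ 2 + w3 ^ 2 + w4 ^ 2 + w5 ^ 2 + w6 ^ 2 + (u0 ^ 2 + u1 ^ 2 + u2 ^ 2 + u3 ^ 2 + u4 ^ 2 + u5 ^ 2 + u6 ^ 2)) / 2)
    (ht : t ≤ 0) : c ≤ 733 / 1000 := by
  have i0 := hF 9 (-4) (-3) 4 0 6 (-13) 13 (-6) 0 (-4) 3 4 (-9)
  have i1 := hF 3 8 5 2 8 11 5 5 11 8 2 5 8 3
  have i2 := hF 2 6 (-9) 0 12 (-8) (-2) 2 8 (-12) 0 9 (-6) (-2)
  have i3 := hF 6 (-2) (-3) 14 (-2) (-3) 8 8 (-3) (-2) 14 (-3) (-2) 6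
  have i4 := hG 8 (-3) (-2) (-10) 0 (-4) 11 11 (-4) 0 (-10) (-2) (-3) 8
  have i5 := hG 5 8 5 (-2) (-8) (-10) (-6) 6 10 8 2 (-5) (-8) (-5)
  have b0 := hG 0 1 0 0 0 0 0 1 0 0 0 0 0 0
  have b1 := hG 0 (-1) 0 0 0 0 0 1 0 0 0 0 0 0
  have b2 := hG 0 0 1 0 0 0 0 1 0 0 0 0 0 0
  have b3 := hG 0 0 (-1) 0 0 0 0 1 0 0 0 0 0 0
  have b4 := hG 0 0 0 1 0 0 0 1 0 0 0 0 0 0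
  have b5 := hG 0 0 0 (-1) 0 0 0 1 0 0 0 0 0 0
  have b6 := hG 0 0 0 0 1 0 0 1 0 0 0 0 0 0
  have b7 := hG 0 0 0 0 (-1) 0 0 1 0 0 0 0 0 0
  have b8 := hG 0 0 0 0 0 1 0 1 0 0 0 0 0 0
  have b9 := hG 0 0 0 0 0 (-1) 0 1 0 0 0 0 0 0
  have b10 := hG 0 0 0 0 0 0 1 1 0 0 0 0 0 0
  have b11 := hG 0 0 0 0 0 0 (-1) 1 0 0 0 0 0 0
  linarith

lemma cert_C8m (c g1 g2 g3 g4 g5 g6 t : ℝ)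
    (hF : ∀ w0 w1 w2 w3 w4 w5 w6 u0 u1 u2 u3 u4 u5 u6 : ℝ, w0 * u0 * c + w1 * u0 * g1 + w1 * u1 * c + w2 * u0 * g2 + w2 * u1 * g1 + w2 * u2 * c + w3 * u0 * (c + g3) + w3 * u1 * g2 + w3 * u2 * g1 + w3 * u3 * c + w4 * u0 * (g1 + g4) + w4 * u1 * (c + g3) + w4 * u2 * g2 + w4 * u3 * g1 + w4 * u4 * c + w5 * u0 * (-c + g2 + g5) + w5 * u1 * (g1 + g4) + w5 * u2 * (c + g3) + w5 * u3 * g2 + w5 * u4 * g1 + w5 * u5 * c + w6 * u0 * (-g1 + g3 + g6 + t) + w6 * u1 * (-c + g2 + g5) + w6 * u2 * (g1 + g4) + w6 * u3 * (c + g3) + w6 * u4 * g2 + w6 * u5 * g1 + w6 * u6 * c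
      ≤ (w0 ^ 2 + w1 ^ 2 + w2 ^ 2 + w3 ^ 2 + w4 ^ 2 + w5 ^ 2 + w6 ^ 2 + (u0 ^ 2 + u1 ^ 2 + u2 ^ 2 + u3 ^ 2 + u4 ^ 2 + u5 ^ 2 + u6 ^ 2)) / 2)
    (hG : ∀ w0 w1 w2 w3 w4 w5 w6 u0 u1 u2 u3 u4 u5 u6 : ℝ, w0 * u0 * c + w1 * u0 * g1 + w1 * u1 * c + w2 * u0 * g2 + w2 * u1 * g1 + w2 * u2 * c + w3 * u0 * g3 + w3 * u1 * g2 + w3 * u2 * g1 + w3 * u3 * c + w4 * u0 * g4 + w4 * u1 * g3 + w4 * u2 * g2 + w4 * u3 * g1 + w4 * u4 * c + w5 * u0 * g5 + w5 * u1 * g4 + w5 * u2 * g3 + w5 * u3 * g2 + w5 * u4 * g1 + w5 * u5 * c + w6 * u0 * g6 + w6 * u1 * g5 + w6 * u2 * g4 + w6 * u3 * g3 + w6 * u4 * g2 + w6 * u5 * g1 + w6 * u6 * c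
      ≤ (w0 ^ 2 + w1 ^ 2 + w2 ^ 2 + w3 ^ 2 + w4 ^ 2 + w5 ^ 2 + w6 ^ 2 + (u0 ^ 2 + u1 ^ 2 + u2 ^ 2 + u3 ^ 2 + u4 ^ 2 + u5 ^ 2 + u6 ^ 2)) / 2)
    (ht : t ≤ 0) : c ≤ 733 / 1000 := by
  have i0 := hF 3 3 (-1) 1 2 (-5) (-4) 4 5 (-2) (-1) 1 (-3) (-3)
  have i1 := hF 0 3 3 1 5 4 0 0 4 5 1 3 3 0
  have i2 := hF 3 (-1) 0 6 (-1) 0 4 4 0 (-1) 6 0 (-1) 3
  have i3 := hG 4 2 0 (-4) (-1) 3 5 5 3 (-1) (-4) 0 2 4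
  have i4 := hG 1 (-3) 3 (-4) 4 (-3) 1 1 (-3) 4 (-4) 3 (-3) 1
  have i5 := hG 3 (-4) 0 (-1) 1 5 (-4) 4 (-5) (-1) 1 0 4 (-3)
  have b0 := hG 0 1 0 0 0 0 0 1 0 0 0 0 0 0
  have b1 := hG 0 (-1) 0 0 0 0 0 1 0 0 0 0 0 0
  have b2 := hG 0 0 1 0 0 0 0 1 0 0 0 0 0 0
  have b3 := hG 0 0 (-1) 0 0 0 0 1 0 0 0 0 0 0
  have b4 := hG 0 0 0 1 0 0 0 1 0 0 0 0 0 0
  have b5 := hG 0 0 0 (-1) 0 0 0 1 0 0 0 0 0 0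
  have b6 := hG 0 0 0 0 1 0 0 1 0 0 0 0 0 0
  have b7 := hG 0 0 0 0 (-1) 0 0 1 0 0 0 0 0 0
  have b8 := hG 0 0 0 0 0 1 0 1 0 0 0 0 0 0
  have b9 := hG 0 0 0 0 0 (-1) 0 1 0 0 0 0 0 0
  have b10 := hG 0 0 0 0 0 0 1 1 0 0 0 0 0 0
  have b11 := hG 0 0 0 0 0 0 (-1) 1 0 0 0 0 0 0
  linarith

lemma cert_C9 (c g1 g2 g3 g4 g5 g6 g7 g8 g9 g10 t : ℝ)
    (hF : ∀ w0 w1 w2 w3 w4 w5 w6 u0 u1 u2 u3 u4 u5 u6 : ℝ, w0 * u0 * c + w1 * u0 * g1 + w1 * u1 * c + w2 * u0 * g2 + w2 * u1 * g1 + w2 * u2 * c + w3 * u0 * g3 + w3 * u1 * g4 + w3 * u2 * g5 + w3 * u3 * c + w4 * u0 * (c + g6) + w4 * u1 * g3 + w4 * u2 * g4 + w4 * u3 * g1 + w4 * u4 * c + w5 * u0 * (g1 + g7) + w5 * u1 * (c + g6) + w5 * u2 * g3 + w5 * u3 * g2 + w5 * u4 * g1 + w5 *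 u5 * c + w6 * u0 * (g1 + g6 + g8 + t) + w6 * u1 * (c + g3 + g9) + w6 * u2 * (g4 + g10) + w6 * u3 * (g1 + g7) + w6 * u4 * (c + g6) + w6 * u5 * g3 + w6 * u6 * c
      ≤ (w0 ^ 2 + w1 ^ 2 + w2 ^ 2 + w3 ^ 2 + w4 ^ 2 + w5 ^ 2 + w6 ^ 2 + (u0 ^ 2 + u1 ^ 2 + u2 ^ 2 + u3 ^ 2 + u4 ^ 2 + u5 ^ 2 + u6 ^ 2)) / 2)
    (hG : ∀ w0 w1 w2 w3 w4 w5 w6 u0 u1 u2 u3 u4 u5 u6 : ℝ, w0 * u0 * c + w1 * u0 * g1 + w1 * u1 * c + w2 * u0 * g2 + w2 * u1 * g1 + w2 * u2 * c + w3 * u0 * g3 + w3 * u1 * g4 + w3 * u2 * g5 + w3 * u3 * c + w4 * u0 * g6 + w4 * u1 * g3 + w4 * u2 * g4 + w4 * u3 * g1 + w4 * u4 * c + w5 * u0 * g7 + w5 * u1 * g6 + w5 * u2 * g3 + w5 * u3 * g2 + w5 * u4 * g1 + w5 * u5 * c + w6 * u0 * g8 + w6 * u1 * g9 + w6 * u2 * g10 + w6 * u3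 * g7 + w6 * u4 * g6 + w6 * u5 * g3 + w6 * u6 * c
      ≤ (w0 ^ 2 + w1 ^ 2 + w2 ^ 2 + w3 ^ 2 + w4 ^ 2 + w5 ^ 2 + w6 ^ 2 + (u0 ^ 2 + u1 ^ 2 + u2 ^ 2 + u3 ^ 2 + u4 ^ 2 + u5 ^ 2 + u6 ^ 2)) / 2)
    (ht : t ≤ 0) : c ≤ 733 / 1000 := by
  have i0 := hF 9 (-22) 1 (-6) 5 (-22) (-22) 12 (-31) 3 (-5) (-7) (-13) (-16)
  have i1 := hF 23 6 (-5) (-10) 25 16 (-4) 32 6 (-7) (-7) 17 13 (-3)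
  have i2 := hF 0 7 (-5) (-5) (-21) 17 (-28) 0 10 (-7) (-7) (-26) 17 (-20)
  have i3 := hG 10 (-12) (-1) (-5) (-18) 2 31 14 (-18) 1 (-4) (-23) (-4) 23
  have i4 := hG 12 22 7 (-8) (-20) (-20) (-7) 17 28 9 (-6) (-13) (-14) (-5)
  have i5 := hF 15 (-5) (-12) (-19) 5 14 (-25) 28 (-9) (-12) (-15) (-2) 13 (-14)
  have i6 := hG 4 20 7 (-6) (-2) (-13) (-31) 6 30 13 (-4) 8 (-3) (-20)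
  have i7 := hF 21 (-4) (-11) (-7) 10 3 (-29) 31 (-8) (-10) (-5) (-4) 6 (-20)
  have i8 := hF 3 (-21) 3 5 14 (-30) 4 4 (-29) 6 9 11 (-23) 3
  have b0 := hG 0 1 0 0 0 0 0 1 0 0 0 0 0 0
  have b1 := hG 0 (-1) 0 0 0 0 0 1 0 0 0 0 0 0
  have b2 := hG 0 0 1 0 0 0 0 1 0 0 0 0 0 0
  have b3 := hG 0 0 (-1) 0 0 0 0 1 0 0 0 0 0 0
  have b4 := hG 0 0 0 1 0 0 0 1 0 0 0 0 0 0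
  have b5 := hG 0 0 0 (-1) 0 0 0 1 0 0 0 0 0 0
  have b6 := hG 0 0 0 1 0 0 0 0 1 0 0 0 0 0
  have b7 := hG 0 0 0 (-1) 0 0 0 0 1 0 0 0 0 0
  have b8 := hG 0 0 0 1 0 0 0 0 0 1 0 0 0 0
  have b9 := hG 0 0 0 (-1) 0 0 0 0 0 1 0 0 0 0
  have b10 := hG 0 0 0 0 1 0 0 1 0 0 0 0 0 0
  have b11 := hG 0 0 0 0 (-1) 0 0 1 0 0 0 0 0 0
  have b12 := hG 0 0 0 0 0 1 0 1 0 0 0 0 0 0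
  have b13 := hG 0 0 0 0 0 (-1) 0 1 0 0 0 0 0 0
  have b14 := hG 0 0 0 0 0 0 1 1 0 0 0 0 0 0
  have b15 := hG 0 0 0 0 0 0 (-1) 1 0 0 0 0 0 0
  have b16 := hG 0 0 0 0 0 0 1 0 1 0 0 0 0 0
  have b17 := hG 0 0 0 0 0 0 (-1) 0 1 0 0 0 0 0
  have b18 := hG 0 0 0 0 0 0 1 0 0 1 0 0 0 0
  have b19 := hG 0 0 0 0 0 0 (-1) 0 0 1 0 0 0 0
  linarith

lemma cert_B1 (c g1 g2 g3 g4 g5 g6 g7 g8 g9 g10 t : ℝ)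
    (hF : ∀ w0 w1 w2 w3 w4 w5 u0 u1 u2 u3 u4 u5 : ℝ, w0 * u0 * c + w1 * u0 * g1 + w1 * u1 * c + w2 * u0 * g2 + w2 * u1 * g3 + w2 * u2 * c + w3 * u0 * (c + g4) + w3 * u1 * g5 + w3 * u2 * g6 + w3 * u3 * c + w4 * u0 * (c + g1 + g7) + w4 * u1 * (c + g4) + w4 * u2 * g8 + w4 * u3 * g1 + w4 * u4 * c + w5 * u0 * (c + g2 + g3 + g9 + t) + w5 * u1 * (g3 + g10) + w5 * u2 * (c + g4) + w5 * u3 * g2 + w5 * u4 * g3 + w5 * u5 * c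
      ≤ (w0 ^ 2 + w1 ^ 2 + w2 ^ 2 + w3 ^ 2 + w4 ^ 2 + w5 ^ 2 + (u0 ^ 2 + u1 ^ 2 + u2 ^ 2 + u3 ^ 2 + u4 ^ 2 + u5 ^ 2)) / 2)
    (hG : ∀ w0 w1 w2 w3 w4 w5 u0 u1 u2 u3 u4 u5 : ℝ, w0 * u0 * c + w1 * u0 * g1 + w1 * u1 * c + w2 * u0 * g2 + w2 * u1 * g3 + w2 * u2 * c + w3 * u0 * g4 + w3 * u1 * g5 + w3 * u2 * g6 + w3 * u3 * c + w4 * u0 * g7 + w4 * u1 * g4 + w4 * u2 * g8 + w4 * u3 * g1 + w4 * u4 * c + w5 * u0 * g9 + w5 * u1 * g10 + w5 * u2 * g4 + w5 * u3 * g2 + w5 * u4 * g3 + w5 * u5 * c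
      ≤ (w0 ^ 2 + w1 ^ 2 + w2 ^ 2 + w3 ^ 2 + w4 ^ 2 + w5 ^ 2 + (u0 ^ 2 + u1 ^ 2 + u2 ^ 2 + u3 ^ 2 + u4 ^ 2 + u5 ^ 2)) / 2)
    (ht : 0 ≤ t) : c ≤ 733 / 1000 := by
  have i0 := hF 27 (-9) (-8) 22 12 10 37 (-2) (-3) 12 8 7
  have i1 := hF 0 17 (-17) (-1) 23 (-22) 0 24 (-21) (-2) 19 (-16)
  have i2 := hG 27 (-9) (-8) (-22) (-12) (-10) 37 (-2) (-3) (-12) (-8) (-7)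
  have i3 := hG 0 17 (-17) 1 (-23) 22 0 24 (-21) 2 (-19) 16
  have i4 := hF 19 (-21) (-3) 22 (-15) 8 27 (-20) 2 18 (-11) 6
  have i5 := hF 8 13 (-19) 2 26 (-17) 10 22 (-21) (-1) 21 (-13)
  have i6 := hG 16 (-20) 8 (-12) 16 (-22) 22 (-20) 14 (-8) 14 (-16)
  have i7 := hF 25 (-14) (-13) 24 4 3 35 (-7) (-8) 16 2 2
  have i8 := hG 24 (-8) (-16) (-23) (-10) 4 33 (-1) (-13) (-16) (-8) 3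
  have i9 := hG 6 (-21) 13 (-9) 22 (-20) 8 (-25) 17 (-7) 18 (-15)
  have b0 := hG 0 1 0 0 0 0 1 0 0 0 0 0
  have b1 := hG 0 (-1) 0 0 0 0 1 0 0 0 0 0
  have b2 := hG 0 0 1 0 0 0 1 0 0 0 0 0
  have b3 := hG 0 0 (-1) 0 0 0 1 0 0 0 0 0
  have b4 := hG 0 0 1 0 0 0 0 1 0 0 0 0
  have b5 := hG 0 0 (-1) 0 0 0 0 1 0 0 0 0
  have b6 := hG 0 0 0 1 0 0 1 0 0 0 0 0
  have b7 := hG 0 0 0 (-1) 0 0 1 0 0 0 0 0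
  have b8 := hG 0 0 0 1 0 0 0 1 0 0 0 0
  have b9 := hG 0 0 0 (-1) 0 0 0 1 0 0 0 0
  have b10 := hG 0 0 0 1 0 0 0 0 1 0 0 0
  have b11 := hG 0 0 0 (-1) 0 0 0 0 1 0 0 0
  have b12 := hG 0 0 0 0 1 0 1 0 0 0 0 0
  have b13 := hG 0 0 0 0 (-1) 0 1 0 0 0 0 0
  have b14 := hG 0 0 0 0 1 0 0 0 1 0 0 0
  have b15 := hG 0 0 0 0 (-1) 0 0 0 1 0 0 0
  have b16 := hG 0 0 0 0 0 1 1 0 0 0 0 0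
  have b17 := hG 0 0 0 0 0 (-1) 1 0 0 0 0 0
  have b18 := hG 0 0 0 0 0 1 0 1 0 0 0 0
  have b19 := hG 0 0 0 0 0 (-1) 0 1 0 0 0 0
  linarith

lemma cert_B3 (c g1 g2 g3 g4 g5 g6 g7 g8 g9 g10 g11 g12 t : ℝ)
    (hF : ∀ w0 w1 w2 w3 w4 w5 w6 u0 u1 u2 u3 u4 u5 u6 : ℝ, w0 * u0 * c + w1 * u0 * g1 + w1 * u1 * c + w2 * u0 * g2 + w2 * u1 * g3 + w2 * u2 * c + w3 * u0 * g4 + w3 * u1 * g2 + w3 * u2 * g1 + w3 * u3 * c + w4 * u0 * (c + g5) + w4 * u1 * g6 + w4 * u2 * g7 + w4 * u3 * g8 + w4 * u4 * c + w5 * u0 * (c + g1 + g9) + w5 * u1 * (c + g5) + w5 * u2 * g10 + w5 * u3 * g7 + w5 * u4 * g1 + w5 * u5 * c + w6 * u0 * (c + g2 + g4 + g11 + t) + w6 * u1 * (g2 + g3 + g12) + w6 * u2 * (c + g1 + g9) + w6 * u3 * (c + g5) + w6 * u4 * g4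 + w6 * u5 * g2 + w6 * u6 * c
      ≤ (w0 ^ 2 + w1 ^ 2 + w2 ^ 2 + w3 ^ 2 + w4 ^ 2 + w5 ^ 2 + w6 ^ 2 + (u0 ^ 2 + u1 ^ 2 + u2 ^ 2 + u3 ^ 2 + u4 ^ 2 + u5 ^ 2 + u6 ^ 2)) / 2)
    (hG : ∀ w0 w1 w2 w3 w4 w5 w6 u0 u1 u2 u3 u4 u5 u6 : ℝ, w0 * u0 * c + w1 * u0 * g1 + w1 * u1 * c + w2 * u0 * g2 + w2 * u1 * g3 + w2 * u2 * c + w3 * u0 * g4 + w3 * u1 * g2 + w3 * u2 * g1 + w3 * u3 * c + w4 * u0 * g5 + w4 * u1 * g6 + w4 * u2 * g7 + w4 * u3 * g8 + w4 * u4 * c + w5 * u0 * g9 + w5 * u1 * g5 + w5 * u2 * g10 + w5 * u3 * g7 + w5 * u4 * g1 + w5 * u5 * c + w6 * u0 * g11 + w6 * u1 * g12 + w6 * u2 * g9 + w6 * u3 * g5 + w6 * u4 * g4 + w6 * u5 * g2 + w6 * u6 * c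
      ≤ (w0 ^ 2 + w1 ^ 2 + w2 ^ 2 + w3 ^ 2 + w4 ^ 2 + w5 ^ 2 + w6 ^ 2 + (u0 ^ 2 + u1 ^ 2 + u2 ^ 2 + u3 ^ 2 + u4 ^ 2 + u5 ^ 2 + u6 ^ 2)) / 2)
    (ht : 0 ≤ t) : c ≤ 733 / 1000 := by
  have i0 := hF 10 (-3) (-1) (-4) 8 5 4 14 0 1 (-1) 4 3 3
  have i1 := hF 1 (-8) (-3) 6 3 (-10) 5 1 (-10) (-2) 6 3 (-8) 4
  have i2 := hG 10 (-3) (-1) (-4) (-8) (-5) (-4) 14 0 1 (-1) (-4) (-3) (-3)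
  have i3 := hG 1 (-8) (-3) 6 (-3) 10 (-5) 1 (-10) (-2) 6 (-3) 8 (-4)
  have i4 := hF 5 (-2) 1 6 5 0 12 7 (-2) 4 9 3 (-2) 7
  have i5 := hG 7 1 3 1 (-2) (-8) (-10) 11 1 7 2 (-1) (-3) (-6)
  have i6 := hG 1 (-6) 0 6 0 5 (-11) 2 (-8) 2 9 (-1) 5 (-8)
  have i7 := hG 7 (-3) 0 4 (-7) 0 (-10) 11 (-1) 1 7 (-4) 1 (-7)
  have i8 := hF 5 4 (-2) (-6) 6 9 (-4) 7 7 (-3) (-7) 4 7 (-3)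
  have i9 := hF 8 (-2) 0 3 5 1 11 11 (-1) 2 6 2 (-1) 8
  have i10 := hG 2 6 (-1) (-6) 1 (-9) 8 3 9 (-2) (-7) 1 (-8) 6
  have b0 := hG 0 1 0 0 0 0 0 1 0 0 0 0 0 0
  have b1 := hG 0 (-1) 0 0 0 0 0 1 0 0 0 0 0 0
  have b2 := hG 0 0 1 0 0 0 0 1 0 0 0 0 0 0
  have b3 := hG 0 0 (-1) 0 0 0 0 1 0 0 0 0 0 0
  have b4 := hG 0 0 1 0 0 0 0 0 1 0 0 0 0 0
  have b5 := hG 0 0 (-1) 0 0 0 0 0 1 0 0 0 0 0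
  have b6 := hG 0 0 0 1 0 0 0 1 0 0 0 0 0 0
  have b7 := hG 0 0 0 (-1) 0 0 0 1 0 0 0 0 0 0
  have b8 := hG 0 0 0 0 1 0 0 1 0 0 0 0 0 0
  have b9 := hG 0 0 0 0 (-1) 0 0 1 0 0 0 0 0 0
  have b10 := hG 0 0 0 0 1 0 0 0 1 0 0 0 0 0
  have b11 := hG 0 0 0 0 (-1) 0 0 0 1 0 0 0 0 0
  have b12 := hG 0 0 0 0 1 0 0 0 0 1 0 0 0 0
  have b13 := hG 0 0 0 0 (-1) 0 0 0 0 1 0 0 0 0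
  have b14 := hG 0 0 0 0 1 0 0 0 0 0 1 0 0 0
  have b15 := hG 0 0 0 0 (-1) 0 0 0 0 0 1 0 0 0
  have b16 := hG 0 0 0 0 0 1 0 1 0 0 0 0 0 0
  have b17 := hG 0 0 0 0 0 (-1) 0 1 0 0 0 0 0 0
  have b18 := hG 0 0 0 0 0 1 0 0 0 1 0 0 0 0
  have b19 := hG 0 0 0 0 0 (-1) 0 0 0 1 0 0 0 0
  have b20 := hG 0 0 0 0 0 0 1 1 0 0 0 0 0 0
  have b21 := hG 0 0 0 0 0 0 (-1) 1 0 0 0 0 0 0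
  have b22 := hG 0 0 0 0 0 0 1 0 1 0 0 0 0 0
  have b23 := hG 0 0 0 0 0 0 (-1) 0 1 0 0 0 0 0
  linarith

lemma cert_B2p (c g1 g2 g3 g4 g5 g6 g7 t : ℝ)
    (hF : ∀ w0 w1 w2 w3 w4 w5 u0 u1 u2 u3 u4 u5 : ℝ, w0 * u0 * c + w1 * u0 * g1 + w1 * u1 * c + w2 * u0 * g2 + w2 * u1 * g1 + w2 * u2 * c + w3 * u0 * (c + g3) + w3 * u1 * g4 + w3 * u2 * g5 + w3 * u3 * c + w4 * u0 * (c + g1 + g6) + w4 * u1 * (c + g3) + w4 * u2 * g4 + w4 * u3 * g1 + w4 * u4 * c + w5 * u0 * (c + g1 + g2 + g7 + t) + w5 * u1 * (c + g1 + g6) + w5 * u2 * (c + g3) + w5 * u3 * g2 + w5 * u4 * g1 + w5 * u5 * c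
      ≤ (w0 ^ 2 + w1 ^ 2 + w2 ^ 2 + w3 ^ 2 + w4 ^ 2 + w5 ^ 2 + (u0 ^ 2 + u1 ^ 2 + u2 ^ 2 + u3 ^ 2 + u4 ^ 2 + u5 ^ 2)) / 2)
    (hG : ∀ w0 w1 w2 w3 w4 w5 u0 u1 u2 u3 u4 u5 : ℝ, w0 * u0 * c + w1 * u0 * g1 + w1 * u1 * c + w2 * u0 * g2 + w2 * u1 * g1 + w2 * u2 * c + w3 * u0 * g3 + w3 * u1 * g4 + w3 * u2 * g5 + w3 * u3 * c + w4 * u0 * g6 + w4 * u1 * g3 + w4 * u2 * g4 + w4 * u3 * g1 + w4 * u4 * c + w5 * u0 * g7 + w5 * u1 * g6 + w5 * u2 * g3 + w5 * u3 * g2 + w5 * u4 * g1 + w5 * u5 * c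
      ≤ (w0 ^ 2 + w1 ^ 2 + w2 ^ 2 + w3 ^ 2 + w4 ^ 2 + w5 ^ 2 + (u0 ^ 2 + u1 ^ 2 + u2 ^ 2 + u3 ^ 2 + u4 ^ 2 + u5 ^ 2)) / 2)
    (ht : 0 ≤ t) : c ≤ 733 / 1000 := by
  have i0 := hF 3 10 (-5) (-2) 15 4 4 15 (-2) (-5) 10 3
  have i1 := hF 10 (-3) 6 9 0 13 13 0 9 6 (-3) 10
  have i2 := hG 3 10 (-5) 2 (-15) (-4) 4 15 (-2) 5 (-10) (-3)
  have i3 := hG 10 (-3) 6 (-9) 0 (-13) 13 0 9 (-6) 3 (-10)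
  have b0 := hG 0 1 0 0 0 0 1 0 0 0 0 0
  have b1 := hG 0 (-1) 0 0 0 0 1 0 0 0 0 0
  have b2 := hG 0 0 1 0 0 0 1 0 0 0 0 0
  have b3 := hG 0 0 (-1) 0 0 0 1 0 0 0 0 0
  have b4 := hG 0 0 0 1 0 0 1 0 0 0 0 0
  have b5 := hG 0 0 0 (-1) 0 0 1 0 0 0 0 0
  have b6 := hG 0 0 0 1 0 0 0 1 0 0 0 0
  have b7 := hG 0 0 0 (-1) 0 0 0 1 0 0 0 0
  have b8 := hG 0 0 0 1 0 0 0 0 1 0 0 0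
  have b9 := hG 0 0 0 (-1) 0 0 0 0 1 0 0 0
  have b10 := hG 0 0 0 0 1 0 1 0 0 0 0 0
  have b11 := hG 0 0 0 0 (-1) 0 1 0 0 0 0 0
  have b12 := hG 0 0 0 0 0 1 1 0 0 0 0 0
  have b13 := hG 0 0 0 0 0 (-1) 1 0 0 0 0 0
  linarith

lemma cert_B2m (c g1 g2 g3 g4 g5 g6 g7 t : ℝ)
    (hF : ∀ w0 w1 w2 w3 w4 w5 u0 u1 u2 u3 u4 u5 : ℝ, w0 * u0 * c + w1 * u0 * g1 + w1 * u1 * c + w2 * u0 * g2 + w2 * u1 * g1 + w2 * u2 * c + w3 * u0 * (c + g3) + w3 * u1 * g4 + w3 * u2 * g5 + w3 * u3 * c + w4 * u0 * (c + g1 + g6) + w4 * u1 * (c + g3) + w4 * u2 * g4 + w4 * u3 * g1 + w4 * u4 * c + w5 * u0 * (-c + g1 + g2 + g7 - t) + w5 * u1 * (c + g1 + g6) + w5 * u2 * (c + g3) + w5 * u3 * g2 + w5 * u4 * g1 + w5 * u5 * c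
      ≤ (w0 ^ 2 + w1 ^ 2 + w2 ^ 2 + w3 ^ 2 + w4 ^ 2 + w5 ^ 2 + (u0 ^ 2 + u1 ^ 2 + u2 ^ 2 + u3 ^ 2 + u4 ^ 2 + u5 ^ 2)) / 2)
    (hG : ∀ w0 w1 w2 w3 w4 w5 u0 u1 u2 u3 u4 u5 : ℝ, w0 * u0 * c + w1 * u0 * g1 + w1 * u1 * c + w2 * u0 * g2 + w2 * u1 * g1 + w2 * u2 * c + w3 * u0 * g3 + w3 * u1 * g4 + w3 * u2 * g5 + w3 * u3 * c + w4 * u0 * g6 + w4 * u1 * g3 + w4 * u2 * g4 + w4 * u3 * g1 + w4 * u4 * c + w5 * u0 * g7 + w5 * u1 * g6 + w5 * u2 * g3 + w5 * u3 * g2 + w5 * u4 * g1 + w5 * u5 * c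
      ≤ (w0 ^ 2 + w1 ^ 2 + w2 ^ 2 + w3 ^ 2 + w4 ^ 2 + w5 ^ 2 + (u0 ^ 2 + u1 ^ 2 + u2 ^ 2 + u3 ^ 2 + u4 ^ 2 + u5 ^ 2)) / 2)
    (ht : 0 ≤ t) : c ≤ 733 / 1000 := by
  have i0 := hF 3 (-2) 0 1 2 (-4) 4 (-2) (-1) 0 2 (-3)
  have i1 := hF 2 2 2 2 3 3 3 3 2 2 2 2
  have i2 := hG 3 (-2) 0 (-1) (-2) 4 4 (-2) (-1) 0 (-2) 3
  have i3 := hG 2 2 2 (-2) (-3) (-3) 3 3 2 (-2) (-2) (-2)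
  have b0 := hG 0 1 0 0 0 0 1 0 0 0 0 0
  have b1 := hG 0 (-1) 0 0 0 0 1 0 0 0 0 0
  have b2 := hG 0 0 1 0 0 0 1 0 0 0 0 0
  have b3 := hG 0 0 (-1) 0 0 0 1 0 0 0 0 0
  have b4 := hG 0 0 0 1 0 0 1 0 0 0 0 0
  have b5 := hG 0 0 0 (-1) 0 0 1 0 0 0 0 0
  have b6 := hG 0 0 0 1 0 0 0 1 0 0 0 0
  have b7 := hG 0 0 0 (-1) 0 0 0 1 0 0 0 0
  have b8 := hG 0 0 0 1 0 0 0 0 1 0 0 0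
  have b9 := hG 0 0 0 (-1) 0 0 0 0 1 0 0 0
  have b10 := hG 0 0 0 0 1 0 1 0 0 0 0 0
  have b11 := hG 0 0 0 0 (-1) 0 1 0 0 0 0 0
  have b12 := hG 0 0 0 0 0 1 1 0 0 0 0 0
  have b13 := hG 0 0 0 0 0 (-1) 1 0 0 0 0 0
  linarith

lemma cert_A2 (c g1 g2 g3 t : ℝ)
    (hF : ∀ w0 w1 w2 u0 u1 u2 : ℝ, w0 * u0 * c + w1 * u0 * g1 + w1 * u1 * c + w2 * u0 * (2 * c + g1 + g2 + 2 * t) + w2 * u1 * (c + g3) + w2 * u2 * c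
      ≤ (w0 ^ 2 + w1 ^ 2 + w2 ^ 2 + (u0 ^ 2 + u1 ^ 2 + u2 ^ 2)) / 2)
    (hG : ∀ w0 w1 w2 u0 u1 u2 : ℝ, w0 * u0 * c + w1 * u0 * g1 + w1 * u1 * c + w2 * u0 * g2 + w2 * u1 * g3 + w2 * u2 * c
      ≤ (w0 ^ 2 + w1 ^ 2 + w2 ^ 2 + (u0 ^ 2 + u1 ^ 2 + u2 ^ 2)) / 2)
    (ht : 0 ≤ t) : c ≤ 733 / 1000 := by
  have i0 := hF 4 (-2) 4 5 0 3
  have i1 := hG 4 (-2) (-4) 5 0 (-3)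
  have b0 := hG 0 1 0 1 0 0
  have b1 := hG 0 (-1) 0 1 0 0
  have b2 := hG 0 0 1 1 0 0
  have b3 := hG 0 0 (-1) 1 0 0
  have b4 := hG 0 0 1 0 1 0
  have b5 := hG 0 0 (-1) 0 1 0
  linarith

end Pool.Agent.H3Mahler
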