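import Pool.Agent.H3Mahler.Schur

set_option autoImplicit false

namespace Pool.Agent.H3Mahler

/-- The two contraction sequences `F`, `G` with `F = A * G`, where `A` has its first nonzero
positive exponents `k < ℓ < j ≤ 2k` (the coefficient `e` at `j` may vanish). -/
structure Setup (F G : ℕ → ℝ) (k ℓ j : ℕ) (a b e : ℝ) : Prop where
  hF : IsSchur F
  hG : IsSchur G
  hk : 0 < k
  hkl : k < ℓ
  hlj : ℓ < j
  hj : j ≤ 2 * k
  rel : ∀ n ≤ j, F n = G n + (if k ≤ n then a * G (n - k) else 0)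
    + (if ℓ ≤ n then b * G (n - ℓ) else 0) + (if n = j then e * G 0 else 0)

lemma Setup.zero {F G : ℕ → ℝ} {k ℓ j : ℕ} {a b e : ℝ} (S : Setup F G k ℓ j a b e) :
    F 0 = G 0 := by
  have h := S.rel 0 (Nat.zero_le _)
  have h1 := S.hk
  have h2 := S.hkl
  have h3 := S.hlj
  rw [if_neg (by omega), if_neg (by omega), if_neg (by omega)] at h
  linarith

end Pool.Agent.H3Mahler
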