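import Pool.Agent.H3Mahler.Inst
import Pool.Agent.H3Mahler.Certs
import Pool.Agent.H3Mahler.Setup

set_option autoImplicit false
set_option linter.unusedVariables false
set_option linter.unusedTactic false
set_option linter.unreachableTactic false
set_option linter.unusedSimpArgs false
set_option maxHeartbeats 4000000

namespace Pool.Agent.H3Mahler

lemma region_C3 {F G : ℕ → ℝ} {k ℓ j : ℕ} {a b e : ℝ} (S : Setup F G k ℓ j a b e)
    (ha : a = 1 ∨ a = -1) (hb : b = 1 ∨ b = -1) (hc : 0 ≤ G 0) (he : e ≤ 0)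
    (hj : j = 2 * k) (δ : ℕ) (hδ : 0 < δ) (hl : ℓ = k + δ) (hr : 3 * δ < k) (hr2 : k < 4 * δ) :
    G 0 ≤ 733 / 1000 := by
  subst hj hl
  have hk := S.hk
  have F0 : F δ = G δ + 0 + 0 + 0 := by
    have h := S.rel δ (by omega)
    rw [if_neg (by omega : ¬ (k ≤ δ)), if_neg (by omega : ¬ (k + δ ≤ δ)), if_neg (by omega : ¬ (δ = 2 * k))] at h
    exact h
  have F1 : F (k - 2 * δ) = G (k - 2 * δ) + 0 + 0 + 0 := by
    have h := S.rel (k - 2 * δ) (by omega)
    rw [if_neg (by omega : ¬ (k ≤ k - 2 * δ)), if_neg (by omega : ¬ (k + δ ≤ k - 2 * δ)), if_neg (by omega : ¬ (k - 2 * δ = 2 * k))] at h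
    exact h
  have F2 : F (k - 3 * δ) = G (k - 3 * δ) + 0 + 0 + 0 := by
    have h := S.rel (k - 3 * δ) (by omega)
    rw [if_neg (by omega : ¬ (k ≤ k - 3 * δ)), if_neg (by omega : ¬ (k + δ ≤ k - 3 * δ)), if_neg (by omega : ¬ (k - 3 * δ = 2 * k))] at h
    exact h
  have F3 : F (2 * δ) = G (2 * δ) + 0 + 0 + 0 := by
    have h := S.rel (2 * δ) (by omega)
    rw [if_neg (by omega : ¬ (k ≤ 2 * δ)), if_neg (by omega : ¬ (k + δ ≤ 2 * δ)), if_neg (by omega : ¬ (2 * δ = 2 * k))] at h
    exact h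
  have F4 : F (4 * δ - k) = G (4 * δ - k) + 0 + 0 + 0 := by
    have h := S.rel (4 * δ - k) (by omega)
    rw [if_neg (by omega : ¬ (k ≤ 4 * δ - k)), if_neg (by omega : ¬ (k + δ ≤ 4 * δ - k)), if_neg (by omega : ¬ (4 * δ - k = 2 * k))] at h
    exact h
  have F5 : F (k - δ) = G (k - δ) + 0 + 0 + 0 := by
    have h := S.rel (k - δ) (by omega)
    rw [if_neg (by omega : ¬ (k ≤ k - δ)), if_neg (by omega : ¬ (k + δ ≤ k - δ)), if_neg (by omega : ¬ (k - δ = 2 * k))] at h
    exact h
  have F6 : F k = G k + a * G 0 + 0 + 0 := by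
    have h := S.rel k (by omega)
    rw [if_pos (by omega : k ≤ k), if_neg (by omega : ¬ (k + δ ≤ k)), if_neg (by omega : ¬ (k = 2 * k)), (by omega : k - k = 0)] at h
    exact h
  have F7 : F (2 * k - δ) = G (2 * k - δ) + a * G (k - δ) + b * G (k - 2 * δ) + 0 := by
    have h := S.rel (2 * k - δ) (by omega)
    rw [if_pos (by omega : k ≤ 2 * k - δ), if_pos (by omega : k + δ ≤ 2 * k - δ), if_neg (by omega : ¬ (2 * k - δ = 2 * k)), (by omega : 2 * k - δ - k = k - δ), (by omega : 2 * k - δ - (k + δ) = k - 2 * δ)] at h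
    exact h
  have F8 : F (2 * k - 2 * δ) = G (2 * k - 2 * δ) + a * G (k - 2 * δ) + b * G (k - 3 * δ) + 0 := by
    have h := S.rel (2 * k - 2 * δ) (by omega)
    rw [if_pos (by omega : k ≤ 2 * k - 2 * δ), if_pos (by omega : k + δ ≤ 2 * k - 2 * δ), if_neg (by omega : ¬ (2 * k - 2 * δ = 2 * k)), (by omega : 2 * k - 2 * δ - k = k - 2 * δ), (by omega : 2 * k - 2 * δ - (k + δ) = k - 3 * δ)] at h
    exact h
  have F9 : F (k + δ) = G (k + δ) + a * G δ + b * G 0 + 0 := by
    have h := S.rel (k + δ) (by omega)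
    rw [if_pos (by omega : k ≤ k + δ), if_pos (by omega : k + δ ≤ k + δ), if_neg (by omega : ¬ (k + δ = 2 * k)), (by omega : k + δ - k = δ), (by omega : k + δ - (k + δ) = 0)] at h
    exact h
  have F10 : F (2 * k - 3 * δ) = G (2 * k - 3 * δ) + a * G (k - 3 * δ) + 0 + 0 := by
    have h := S.rel (2 * k - 3 * δ) (by omega)
    rw [if_pos (by omega : k ≤ 2 * k - 3 * δ), if_neg (by omega : ¬ (k + δ ≤ 2 * k - 3 * δ)), if_neg (by omega : ¬ (2 * k - 3 * δ = 2 * k)), (by omega : 2 * k - 3 * δ - k = k - 3 * δ)] at h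
    exact h
  have F11 : F (2 * k) = G (2 * k) + a * G k + b * G (k - δ) + e * G 0 := by
    have h := S.rel (2 * k) (by omega)
    rw [if_pos (by omega : k ≤ 2 * k), if_pos (by omega : k + δ ≤ 2 * k), if_pos (by omega : 2 * k = 2 * k), (by omega : 2 * k - k = k), (by omega : 2 * k - (k + δ) = k - δ)] at h
    exact h
  have F12 : F (k + 2 * δ) = G (k + 2 * δ) + a * G (2 * δ) + b * G δ + 0 := by
    have h := S.rel (k + 2 * δ) (by omega)
    rw [if_pos (by omega : k ≤ k + 2 * δ), if_pos (by omega : k + δ ≤ k + 2 * δ), if_neg (by omega : ¬ (k + 2 * δ = 2 * k)), (by omega : k + 2 * δ - k = 2 * δ), (by omega : k + 2 * δ - (k + δ) = δ)] at h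
    exact h
  have f0 : a * b * F δ = (a * b * G δ) := by
    rw [F0]
    rcases ha with h1 | h1 <;> rcases hb with h2 | h2 <;> (try simp only [h1, h2]) <;> ring
  have g0 : a * b * G δ = (a * b * G δ) := by ring
  have f1 : a * F (k - 2 * δ) = (a * G (k - 2 * δ)) := by
    rw [F1]
    rcases ha with h1 | h1 <;> rcases hb with h2 | h2 <;> (try simp only [h1, h2]) <;> ring
  have g1 : a * G (k - 2 * δ) = (a * G (k - 2 * δ)) := by ring
  have f2 : b * F (k - 3 * δ) = (b * G (k - 3 * δ)) := by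
    rw [F2]
    rcases ha with h1 | h1 <;> rcases hb with h2 | h2 <;> (try simp only [h1, h2]) <;> ring
  have g2 : b * G (k - 3 * δ) = (b * G (k - 3 * δ)) := by ring
  have f3 : 1 * F (2 * δ) = (G (2 * δ)) := by
    rw [F3]
    rcases ha with h1 | h1 <;> rcases hb with h2 | h2 <;> (try simp only [h1, h2]) <;> ring
  have g3 : 1 * G (2 * δ) = (G (2 * δ)) := by ring
  have f4 : a * F (4 * δ - k) = (a * G (4 * δ - k)) := by
    rw [F4]
    rcases ha with h1 | h1 <;> rcases hb with h2 | h2 <;> (try simp only [h1, h2]) <;> ring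
  have g4 : a * G (4 * δ - k) = (a * G (4 * δ - k)) := by ring
  have f5 : b * F (k - δ) = (b * G (k - δ)) := by
    rw [F5]
    rcases ha with h1 | h1 <;> rcases hb with h2 | h2 <;> (try simp only [h1, h2]) <;> ring
  have g5 : b * G (k - δ) = (b * G (k - δ)) := by ring
  have f6 : a * F k = (G 0) + (a * G k) := by
    rw [F6]
    rcases ha with h1 | h1 <;> rcases hb with h2 | h2 <;> (try simp only [h1, h2]) <;> ring
  have g6 : a * G k = (a * G k) := by ring
  have f7 : a * b * F (2 * k - δ) = (a * G (k - 2 * δ)) + (b * G (k - δ)) + (a * b * G (2 * k - δ)) := by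
    rw [F7]
    rcases ha with h1 | h1 <;> rcases hb with h2 | h2 <;> (try simp only [h1, h2]) <;> ring
  have g7 : a * b * G (2 * k - δ) = (a * b * G (2 * k - δ)) := by ring
  have f8 : 1 * F (2 * k - 2 * δ) = (a * G (k - 2 * δ)) + (b * G (k - 3 * δ)) + (G (2 * k - 2 * δ)) := by
    rw [F8]
    rcases ha with h1 | h1 <;> rcases hb with h2 | h2 <;> (try simp only [h1, h2]) <;> ring
  have g8 : 1 * G (2 * k - 2 * δ) = (G (2 * k - 2 * δ)) := by ring
  have f9 : b * F (k + δ) = (G 0) + (a * b * G δ) + (b * G (k + δ)) := by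
    rw [F9]
    rcases ha with h1 | h1 <;> rcases hb with h2 | h2 <;> (try simp only [h1, h2]) <;> ring
  have g9 : b * G (k + δ) = (b * G (k + δ)) := by ring
  have f10 : a * b * F (2 * k - 3 * δ) = (b * G (k - 3 * δ)) + (a * b * G (2 * k - 3 * δ)) := by
    rw [F10]
    rcases ha with h1 | h1 <;> rcases hb with h2 | h2 <;> (try simp only [h1, h2]) <;> ring
  have g10 : a * b * G (2 * k - 3 * δ) = (a * b * G (2 * k - 3 * δ)) := by ring
  have f11 : 1 * F (2 * k) = (b * G (k - δ)) + (a * G k) + (G (2 * k)) + (e * G 0) := by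
    rw [F11]
    rcases ha with h1 | h1 <;> rcases hb with h2 | h2 <;> (try simp only [h1, h2]) <;> ring
  have g11 : 1 * G (2 * k) = (G (2 * k)) := by ring
  have f12 : a * F (k + 2 * δ) = (a * b * G δ) + (G (2 * δ)) + (a * G (k + 2 * δ)) := by
    rw [F12]
    rcases ha with h1 | h1 <;> rcases hb with h2 | h2 <;> (try simp only [h1, h2]) <;> ring
  have g12 : a * G (k + 2 * δ) = (a * G (k + 2 * δ)) := by ring
  have p0 : 1 * 1 = (1 : ℝ) := by
    rcases ha with h1 | h1 <;> rcases hb with h2 | h2 <;> (try simp only [h1, h2]) <;> norm_num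
  have p1 : 1 * b = (b : ℝ) := by
    rcases ha with h1 | h1 <;> rcases hb with h2 | h2 <;> (try simp only [h1, h2]) <;> norm_num
  have p2 : 1 * a = (a : ℝ) := by
    rcases ha with h1 | h1 <;> rcases hb with h2 | h2 <;> (try simp only [h1, h2]) <;> norm_num
  have p3 : 1 * (a * b) = (a * b : ℝ) := by
    rcases ha with h1 | h1 <;> rcases hb with h2 | h2 <;> (try simp only [h1, h2]) <;> norm_num
  have p4 : b * 1 = (b : ℝ) := by
    rcases ha with h1 | h1 <;> rcases hb with h2 | h2 <;> (try simp only [h1, h2]) <;> norm_num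
  have p5 : b * a = (a * b : ℝ) := by
    rcases ha with h1 | h1 <;> rcases hb with h2 | h2 <;> (try simp only [h1, h2]) <;> norm_num
  have p6 : b * (a * b) = (a : ℝ) := by
    rcases ha with h1 | h1 <;> rcases hb with h2 | h2 <;> (try simp only [h1, h2]) <;> norm_num
  have p7 : a * 1 = (a : ℝ) := by
    rcases ha with h1 | h1 <;> rcases hb with h2 | h2 <;> (try simp only [h1, h2]) <;> norm_num
  have p8 : a * b = (a * b : ℝ) := by
    rcases ha with h1 | h1 <;> rcases hb with h2 | h2 <;> (try simp only [h1, h2]) <;> norm_num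
  have p9 : a * a = (1 : ℝ) := by
    rcases ha with h1 | h1 <;> rcases hb with h2 | h2 <;> (try simp only [h1, h2]) <;> norm_num
  have p10 : a * (a * b) = (b : ℝ) := by
    rcases ha with h1 | h1 <;> rcases hb with h2 | h2 <;> (try simp only [h1, h2]) <;> norm_num
  have p11 : (a * b) * 1 = (a * b : ℝ) := by
    rcases ha with h1 | h1 <;> rcases hb with h2 | h2 <;> (try simp only [h1, h2]) <;> norm_num
  have p12 : (a * b) * b = (a : ℝ) := by
    rcases ha with h1 | h1 <;> rcases hb with h2 | h2 <;> (try simp only [h1, h2]) <;> norm_num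
  have p13 : (a * b) * a = (b : ℝ) := by
    rcases ha with h1 | h1 <;> rcases hb with h2 | h2 <;> (try simp only [h1, h2]) <;> norm_num
  have p14 : (a * b) * (a * b) = (1 : ℝ) := by
    rcases ha with h1 | h1 <;> rcases hb with h2 | h2 <;> (try simp only [h1, h2]) <;> norm_num
  have s0 : 1 ^ 2 = (1 : ℝ) := by
    rcases ha with h1 | h1 <;> rcases hb with h2 | h2 <;> (try simp only [h1, h2]) <;> norm_num
  have s1 : b ^ 2 = (1 : ℝ) := by
    rcases ha with h1 | h1 <;> rcases hb with h2 | h2 <;> (try simp only [h1, h2]) <;> norm_num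
  have s2 : a ^ 2 = (1 : ℝ) := by
    rcases ha with h1 | h1 <;> rcases hb with h2 | h2 <;> (try simp only [h1, h2]) <;> norm_num
  have s3 : (a * b) ^ 2 = (1 : ℝ) := by
    rcases ha with h1 | h1 <;> rcases hb with h2 | h2 <;> (try simp only [h1, h2]) <;> norm_num
  have x10 : δ - 0 = δ := by omega
  have x20 : k - 2 * δ - 0 = k - 2 * δ := by omega
  have x21 : k - 2 * δ - δ = k - 3 * δ := by omega
  have x30 : 2 * δ - 0 = 2 * δ := by omega
  have x31 : 2 * δ - δ = δ := by omega
  have x32 : 2 * δ - (k - 2 * δ) = 4 * δ - k := by omega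
  have x40 : k - δ - 0 = k - δ := by omega
  have x41 : k - δ - δ = k - 2 * δ := by omega
  have x42 : k - δ - (k - 2 * δ) = δ := by omega
  have x43 : k - δ - (2 * δ) = k - 3 * δ := by omega
  have x50 : k - 0 = k := by omega
  have x51 : k - δ = k - δ := by omega
  have x52 : k - (k - 2 * δ) = 2 * δ := by omega
  have x53 : k - (2 * δ) = k - 2 * δ := by omega
  have x54 : k - (k - δ) = δ := by omega
  have x60 : 2 * k - δ - 0 = 2 * k - δ := by omega
  have x61 : 2 * k - δ - δ = 2 * k - 2 * δ := by omega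
  have x62 : 2 * k - δ - (k - 2 * δ) = k + δ := by omega
  have x63 : 2 * k - δ - (2 * δ) = 2 * k - 3 * δ := by omega
  have x64 : 2 * k - δ - (k - δ) = k := by omega
  have x65 : 2 * k - δ - k = k - δ := by omega
  have x70 : 2 * k - 0 = 2 * k := by omega
  have x71 : 2 * k - δ = 2 * k - δ := by omega
  have x72 : 2 * k - (k - 2 * δ) = k + 2 * δ := by omega
  have x73 : 2 * k - (2 * δ) = 2 * k - 2 * δ := by omega
  have x74 : 2 * k - (k - δ) = k + δ := by omega
  have x75 : 2 * k - k = k := by omega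
  have x76 : 2 * k - (2 * k - δ) = δ := by omega
  have eF10 : (a * b) * 1 * F (δ - 0) = (a * b * G δ) := by
    rw [x10, p11]; first | done | exact f0
  have eF20 : a * 1 * F (k - 2 * δ - 0) = (a * G (k - 2 * δ)) := by
    rw [x20, p7]; first | done | exact f1
  have eF21 : a * (a * b) * F (k - 2 * δ - δ) = (b * G (k - 3 * δ)) := by
    rw [x21, p10]; first | done | exact f2
  have eF30 : 1 * 1 * F (2 * δ - 0) = (G (2 * δ)) := by
    rw [x30, p0]; first | done | exact f3
  have eF31 : 1 * (a * b) * F (2 * δ - δ) = (a * b * G δ) := by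
    rw [x31, p3]; first | done | exact f0
  have eF32 : 1 * a * F (2 * δ - (k - 2 * δ)) = (a * G (4 * δ - k)) := by
    rw [x32, p2]; first | done | exact f4
  have eF40 : b * 1 * F (k - δ - 0) = (b * G (k - δ)) := by
    rw [x40, p4]; first | done | exact f5
  have eF41 : b * (a * b) * F (k - δ - δ) = (a * G (k - 2 * δ)) := by
    rw [x41, p6]; first | done | exact f1
  have eF42 : b * a * F (k - δ - (k - 2 * δ)) = (a * b * G δ) := by
    rw [x42, p5]; first | done | exact f0
  have eF43 : b * 1 * F (k - δ - (2 * δ)) = (b * G (k - 3 * δ)) := by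
    rw [x43, p4]; first | done | exact f2
  have eF50 : a * 1 * F (k - 0) = (G 0) + (a * G k) := by
    rw [x50, p7]; first | done | exact f6
  have eF51 : a * (a * b) * F (k - δ) = (b * G (k - δ)) := by
    rw [x51, p10]; first | done | exact f5
  have eF52 : a * a * F (k - (k - 2 * δ)) = (G (2 * δ)) := by
    rw [x52, p9]; first | done | exact f3
  have eF53 : a * 1 * F (k - (2 * δ)) = (a * G (k - 2 * δ)) := by
    rw [x53, p7]; first | done | exact f1
  have eF54 : a * b * F (k - (k - δ)) = (a * b * G δ) := by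
    rw [x54, p8]; first | done | exact f0
  have eF60 : (a * b) * 1 * F (2 * k - δ - 0) = (a * G (k - 2 * δ)) + (b * G (k - δ)) + (a * b * G (2 * k - δ)) := by
    rw [x60, p11]; first | done | exact f7
  have eF61 : (a * b) * (a * b) * F (2 * k - δ - δ) = (a * G (k - 2 * δ)) + (b * G (k - 3 * δ)) + (G (2 * k - 2 * δ)) := by
    rw [x61, p14]; first | done | exact f8
  have eF62 : (a * b) * a * F (2 * k - δ - (k - 2 * δ)) = (G 0) + (a * b * G δ) + (b * G (k + δ)) := by
    rw [x62, p13]; first | done | exact f9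
  have eF63 : (a * b) * 1 * F (2 * k - δ - (2 * δ)) = (b * G (k - 3 * δ)) + (a * b * G (2 * k - 3 * δ)) := by
    rw [x63, p11]; first | done | exact f10
  have eF64 : (a * b) * b * F (2 * k - δ - (k - δ)) = (G 0) + (a * G k) := by
    rw [x64, p12]; first | done | exact f6
  have eF65 : (a * b) * a * F (2 * k - δ - k) = (b * G (k - δ)) := by
    rw [x65, p13]; first | done | exact f5
  have eF70 : 1 * 1 * F (2 * k - 0) = (b * G (k - δ)) + (a * G k) + (G (2 * k)) + (e * G 0) := by
    rw [x70, p0]; first | done | exact f11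
  have eF71 : 1 * (a * b) * F (2 * k - δ) = (a * G (k - 2 * δ)) + (b * G (k - δ)) + (a * b * G (2 * k - δ)) := by
    rw [x71, p3]; first | done | exact f7
  have eF72 : 1 * a * F (2 * k - (k - 2 * δ)) = (a * b * G δ) + (G (2 * δ)) + (a * G (k + 2 * δ)) := by
    rw [x72, p2]; first | done | exact f12
  have eF73 : 1 * 1 * F (2 * k - (2 * δ)) = (a * G (k - 2 * δ)) + (b * G (k - 3 * δ)) + (G (2 * k - 2 * δ)) := by
    rw [x73, p0]; first | done | exact f8
  have eF74 : 1 * b * F (2 * k - (k - δ)) = (G 0) + (a * b * G δ) + (b * G (k + δ)) := by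
    rw [x74, p1]; first | done | exact f9
  have eF75 : 1 * a * F (2 * k - k) = (G 0) + (a * G k) := by
    rw [x75, p2]; first | done | exact f6
  have eF76 : 1 * (a * b) * F (2 * k - (2 * k - δ)) = (a * b * G δ) := by
    rw [x76, p3]; first | done | exact f0
  have eG10 : (a * b) * 1 * G (δ - 0) = (a * b * G δ) := by
    rw [x10, p11]; first | done | exact g0
  have eG20 : a * 1 * G (k - 2 * δ - 0) = (a * G (k - 2 * δ)) := by
    rw [x20, p7]; first | done | exact g1
  have eG21 : a * (a * b) * G (k - 2 * δ - δ) = (b * G (k - 3 * δ)) := by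
    rw [x21, p10]; first | done | exact g2
  have eG30 : 1 * 1 * G (2 * δ - 0) = (G (2 * δ)) := by
    rw [x30, p0]; first | done | exact g3
  have eG31 : 1 * (a * b) * G (2 * δ - δ) = (a * b * G δ) := by
    rw [x31, p3]; first | done | exact g0
  have eG32 : 1 * a * G (2 * δ - (k - 2 * δ)) = (a * G (4 * δ - k)) := by
    rw [x32, p2]; first | done | exact g4
  have eG40 : b * 1 * G (k - δ - 0) = (b * G (k - δ)) := by
    rw [x40, p4]; first | done | exact g5
  have eG41 : b * (a * b) * G (k - δ - δ) = (a * G (k - 2 * δ)) := by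
    rw [x41, p6]; first | done | exact g1
  have eG42 : b * a * G (k - δ - (k - 2 * δ)) = (a * b * G δ) := by
    rw [x42, p5]; first | done | exact g0
  have eG43 : b * 1 * G (k - δ - (2 * δ)) = (b * G (k - 3 * δ)) := by
    rw [x43, p4]; first | done | exact g2
  have eG50 : a * 1 * G (k - 0) = (a * G k) := by
    rw [x50, p7]; first | done | exact g6
  have eG51 : a * (a * b) * G (k - δ) = (b * G (k - δ)) := by
    rw [x51, p10]; first | done | exact g5
  have eG52 : a * a * G (k - (k - 2 * δ)) = (G (2 * δ)) := by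
    rw [x52, p9]; first | done | exact g3
  have eG53 : a * 1 * G (k - (2 * δ)) = (a * G (k - 2 * δ)) := by
    rw [x53, p7]; first | done | exact g1
  have eG54 : a * b * G (k - (k - δ)) = (a * b * G δ) := by
    rw [x54, p8]; first | done | exact g0
  have eG60 : (a * b) * 1 * G (2 * k - δ - 0) = (a * b * G (2 * k - δ)) := by
    rw [x60, p11]; first | done | exact g7
  have eG61 : (a * b) * (a * b) * G (2 * k - δ - δ) = (G (2 * k - 2 * δ)) := by
    rw [x61, p14]; first | done | exact g8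
  have eG62 : (a * b) * a * G (2 * k - δ - (k - 2 * δ)) = (b * G (k + δ)) := by
    rw [x62, p13]; first | done | exact g9
  have eG63 : (a * b) * 1 * G (2 * k - δ - (2 * δ)) = (a * b * G (2 * k - 3 * δ)) := by
    rw [x63, p11]; first | done | exact g10
  have eG64 : (a * b) * b * G (2 * k - δ - (k - δ)) = (a * G k) := by
    rw [x64, p12]; first | done | exact g6
  have eG65 : (a * b) * a * G (2 * k - δ - k) = (b * G (k - δ)) := by
    rw [x65, p13]; first | done | exact g5
  have eG70 : 1 * 1 * G (2 * k - 0) = (G (2 * k)) := by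
    rw [x70, p0]; first | done | exact g11
  have eG71 : 1 * (a * b) * G (2 * k - δ) = (a * b * G (2 * k - δ)) := by
    rw [x71, p3]; first | done | exact g7
  have eG72 : 1 * a * G (2 * k - (k - 2 * δ)) = (a * G (k + 2 * δ)) := by
    rw [x72, p2]; first | done | exact g12
  have eG73 : 1 * 1 * G (2 * k - (2 * δ)) = (G (2 * k - 2 * δ)) := by
    rw [x73, p0]; first | done | exact g8
  have eG74 : 1 * b * G (2 * k - (k - δ)) = (b * G (k + δ)) := by
    rw [x74, p1]; first | done | exact g9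
  have eG75 : 1 * a * G (2 * k - k) = (a * G k) := by
    rw [x75, p2]; first | done | exact g6
  have eG76 : 1 * (a * b) * G (2 * k - (2 * k - δ)) = (a * b * G δ) := by
    rw [x76, p3]; first | done | exact g0
  have hFF := S.hF.sinst8 0 δ (k - 2 * δ) (2 * δ) (k - δ) k (2 * k - δ) (2 * k) (by omega) (by omega) (by omega) (by omega) (by omega) (by omega) (by omega) 1 (a * b) a 1 b a (a * b) 1 s0 s3 s2 s0 s1 s2 s3 s0 (G 0)
      ((a * b * G δ)) ((a * G (k - 2 * δ))) ((b * G (k - 3 * δ))) ((G (2 * δ))) ((a * b * G δ)) ((a * G (4 * δ - k))) ((b * G (k - δ))) ((a * G (k - 2 * δ))) ((a * b * G δ)) ((b * G (k - 3 * δ))) ((G 0) + (a * G k)) ((b * G (k - δ))) ((G (2 * δ))) ((a * G (k - 2 * δ))) ((a * b * G δ)) ((a * G (k - 2 * δ)) + (b * G (k - δ)) + (a * b * G (2 * k - δ))) ((a * G (k - 2 * δ)) + (b * G (k - 3 * δ)) + (G (2 * k - 2 * δ))) ((G 0) + (a * b * G δ) + (b * G (k + δ))) ((b * G (k - 3 * δ)) + (a * b * G (2 * k - 3 * δ))) ((G 0) + (a * G k)) ((b * G (k - δ)))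 ((b * G (k - δ)) + (a * G k) + (G (2 * k)) + (e * G 0)) ((a * G (k - 2 * δ)) + (b * G (k - δ)) + (a * b * G (2 * k - δ))) ((a * b * G δ) + (G (2 * δ)) + (a * G (k + 2 * δ))) ((a * G (k - 2 * δ)) + (b * G (k - 3 * δ)) + (G (2 * k - 2 * δ))) ((G 0) + (a * b * G δ) + (b * G (k + δ))) ((G 0) + (a * G k)) ((a * b * G δ)) S.zero
      eF10 eF20 eF21 eF30 eF31 eF32 eF40 eF41 eF42 eF43 eF50 eF51 eF52 eF53 eF54 eF60 eF61 eF62 eF63 eF64 eF65 eF70 eF71 eF72 eF73 eF74 eF75 eF76
  have hGG := S.hG.sinst8 0 δ (k - 2 * δ) (2 * δ) (k - δ) k (2 * k - δ) (2 * k) (by omega) (by omega) (by omega) (by omega) (by omega) (by omega) (by omega) 1 (a * b) a 1 b a (a * b) 1 s0 s3 s2 s0 s1 s2 s3 s0 (G 0)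
      ((a * b * G δ)) ((a * G (k - 2 * δ))) ((b * G (k - 3 * δ))) ((G (2 * δ))) ((a * b * G δ)) ((a * G (4 * δ - k))) ((b * G (k - δ))) ((a * G (k - 2 * δ))) ((a * b * G δ)) ((b * G (k - 3 * δ))) ((a * G k)) ((b * G (k - δ))) ((G (2 * δ))) ((a * G (k - 2 * δ))) ((a * b * G δ)) ((a * b * G (2 * k - δ))) ((G (2 * k - 2 * δ))) ((b * G (k + δ))) ((a * b * G (2 * k - 3 * δ))) ((a * G k)) ((b * G (k - δ))) ((G (2 * k))) ((a * b * G (2 * k - δ))) ((a * G (k + 2 * δ))) ((G (2 * k - 2 * δ))) ((b * G (k + δ))) ((a * G k)) ((a * b * G δ)) rfl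
      eG10 eG20 eG21 eG30 eG31 eG32 eG40 eG41 eG42 eG43 eG50 eG51 eG52 eG53 eG54 eG60 eG61 eG62 eG63 eG64 eG65 eG70 eG71 eG72 eG73 eG74 eG75 eG76
  exact cert_C3 (G 0) (a * b * G δ) (a * G (k - 2 * δ)) (b * G (k - 3 * δ)) (G (2 * δ)) (a * G (4 * δ - k)) (b * G (k - δ)) (a * G k) (a * b * G (2 * k - δ)) (G (2 * k - 2 * δ)) (b * G (k + δ)) (a * b * G (2 * k - 3 * δ)) (G (2 * k)) (a * G (k + 2 * δ)) (e * G 0) hFF hGG (mul_nonpos_of_nonpos_of_nonneg he hc)

end Pool.Agent.H3Mahler
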