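import Pool.Agent.H3Mahler.Schur

set_option autoImplicit false
set_option linter.unusedVariables false
set_option maxHeartbeats 4000000

namespace Pool.Agent.H3Mahler

/-- exact certificate in the ratio 3/2 case -/
lemma cert_sharp (c g1 g2 g3 g4 t κ : ℝ) (hD : 1 - κ ^ 3 - κ ^ 4 - 2 * κ ^ 5 + κ ^ 9 + κ ^ 10 = 0)
    (h1 : 73303 / 100000 < κ) (h2 : κ < 73304 / 100000)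
    (hF : ∀ w0 w1 w2 w3 w4 u0 u1 u2 u3 u4 : ℝ,
      w0 * u0 * c + w1 * u0 * g1 + w1 * u1 * c + w2 * u0 * (g2 - c) + w2 * u1 * g1 + w2 * u2 * c
      + w3 * u0 * (g3 - g1 + c) + w3 * u1 * (g2 - c) + w3 * u2 * g1 + w3 * u3 * c
      + w4 * u0 * (g4 - g2 + g1 + t) + w4 * u1 * (g3 - g1 + c) + w4 * u2 * (g2 - c) + w4 * u3 * g1 + w4 * u4 * c
      ≤ (w0 ^ 2 + w1 ^ 2 + w2 ^ 2 + w3 ^ 2 + w4 ^ 2 + (u0 ^ 2 + u1 ^ 2 + u2 ^ 2 + u3 ^ 2 + u4 ^ 2)) / 2)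
    (hG : ∀ w0 w1 w2 w3 w4 u0 u1 u2 u3 u4 : ℝ,
      w0 * u0 * c + w1 * u0 * g1 + w1 * u1 * c + w2 * u0 * g2 + w2 * u1 * g1 + w2 * u2 * c
      + w3 * u0 * g3 + w3 * u1 * g2 + w3 * u2 * g1 + w3 * u3 * c
      + w4 * u0 * g4 + w4 * u1 * g3 + w4 * u2 * g2 + w4 * u3 * g1 + w4 * u4 * c
      ≤ (w0 ^ 2 + w1 ^ 2 + w2 ^ 2 + w3 ^ 2 + w4 ^ 2 + (u0 ^ 2 + u1 ^ 2 + u2 ^ 2 + u3 ^ 2 + u4 ^ 2)) / 2)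
    (ht : t ≤ 0) : c ≤ κ := by
  have l2 : (73303 / 100000 : ℝ) ^ 2 ≤ κ ^ 2 := pow_le_pow_left₀ (by norm_num) h1.le _
  have r2 : κ ^ 2 ≤ (73304 / 100000 : ℝ) ^ 2 := pow_le_pow_left₀ (by linarith) h2.le _
  have l3 : (73303 / 100000 : ℝ) ^ 3 ≤ κ ^ 3 := pow_le_pow_left₀ (by norm_num) h1.le _
  have r3 : κ ^ 3 ≤ (73304 / 100000 : ℝ) ^ 3 := pow_le_pow_left₀ (by linarith) h2.le _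
  have l4 : (73303 / 100000 : ℝ) ^ 4 ≤ κ ^ 4 := pow_le_pow_left₀ (by norm_num) h1.le _
  have r4 : κ ^ 4 ≤ (73304 / 100000 : ℝ) ^ 4 := pow_le_pow_left₀ (by linarith) h2.le _
  have l5 : (73303 / 100000 : ℝ) ^ 5 ≤ κ ^ 5 := pow_le_pow_left₀ (by norm_num) h1.le _
  have r5 : κ ^ 5 ≤ (73304 / 100000 : ℝ) ^ 5 := pow_le_pow_left₀ (by linarith) h2.le _
  have l6 : (73303 / 100000 : ℝ) ^ 6 ≤ κ ^ 6 := pow_le_pow_left₀ (by norm_num) h1.le _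
  have r6 : κ ^ 6 ≤ (73304 / 100000 : ℝ) ^ 6 := pow_le_pow_left₀ (by linarith) h2.le _
  have l7 : (73303 / 100000 : ℝ) ^ 7 ≤ κ ^ 7 := pow_le_pow_left₀ (by norm_num) h1.le _
  have r7 : κ ^ 7 ≤ (73304 / 100000 : ℝ) ^ 7 := pow_le_pow_left₀ (by linarith) h2.le _
  have l8 : (73303 / 100000 : ℝ) ^ 8 ≤ κ ^ 8 := pow_le_pow_left₀ (by norm_num) h1.le _
  have r8 : κ ^ 8 ≤ (73304 / 100000 : ℝ) ^ 8 := pow_le_pow_left₀ (by linarith) h2.le _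
  have l9 : (73303 / 100000 : ℝ) ^ 9 ≤ κ ^ 9 := pow_le_pow_left₀ (by norm_num) h1.le _
  have r9 : κ ^ 9 ≤ (73304 / 100000 : ℝ) ^ 9 := pow_le_pow_left₀ (by linarith) h2.le _
  norm_num at l2 r2 l3 r3 l4 r4 l5 r5 l6 r6 l7 r7 l8 r8 l9 r9
  have a0 : 0 < -28 - 21 * κ - 24 * κ ^ 2 + 5 * κ ^ 3 + 39 * κ ^ 4 + 91 * κ ^ 5 + 83 * κ ^ 6 + 76 * κ ^ 7 + 67 * κ ^ 8 + 33 * κ ^ 9 := by linarith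
  have a1 : 0 < 14 + 10 * κ + 13 * κ ^ 2 + 2 * κ ^ 3 - 12 * κ ^ 4 - 38 * κ ^ 5 - 34 * κ ^ 6 - 34 * κ ^ 7 - 34 * κ ^ 8 - 18 * κ ^ 9 := by linarith
  have a2 : 0 < κ - κ ^ 2 - 3 * κ ^ 3 - 3 * κ ^ 4 + 3 * κ ^ 6 + 7 * κ ^ 7 + 7 * κ ^ 8 + 3 * κ ^ 9 := by linarith
  have b0 : 0 < -6 - 8 * κ + κ ^ 2 + 16 * κ ^ 3 + 22 * κ ^ 4 + 22 * κ ^ 5 + 6 * κ ^ 6 - 12 * κ ^ 7 - 12 * κ ^ 8 - 4 * κ ^ 9 := by linarith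
  have lam : 0 < -22 - 24 * κ - 20 * κ ^ 2 + 21 * κ ^ 3 + 67 * κ ^ 4 + 129 * κ ^ 5 + 128 * κ ^ 6 + 101 * κ ^ 7 + 65 * κ ^ 8 + 25 * κ ^ 9 := by linarith
  have i1 := hG (κ) (κ ^ 2 + κ ^ 4 - κ ^ 8 - κ ^ 9) (1) 0 0 (1) (κ ^ 2 + κ ^ 4 - κ ^ 8 - κ ^ 9) (κ) 0 0
  have i2 := hG (κ) (-κ + κ ^ 2 + κ ^ 4 - κ ^ 8 - κ ^ 9) (1 - κ ^ 2 - κ ^ 4 + κ ^ 8 + κ ^ 9) (-1) 0 (1) (-1 + κ ^ 2 + κ ^ 4 - κ ^ 8 - κ ^ 9) (κ - κ ^ 2 - κ ^ 4 + κ ^ 8 + κ ^ 9) (-κ) 0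
  have i3 := hG (κ) (-2 * κ + κ ^ 2 + κ ^ 4 - κ ^ 8 - κ ^ 9) (1 + κ - 2 * κ ^ 2 - 2 * κ ^ 4 + 2 * κ ^ 8 + 2 * κ ^ 9) (-2 + κ ^ 2 + κ ^ 4 - κ ^ 8 - κ ^ 9) (1) (1) (-2 + κ ^ 2 + κ ^ 4 - κ ^ 8 - κ ^ 9) (1 + κ - 2 * κ ^ 2 - 2 * κ ^ 4 + 2 * κ ^ 8 + 2 * κ ^ 9) (-2 * κ + κ ^ 2 + κ ^ 4 - κ ^ 8 - κ ^ 9) (κ)
  have i4 := hF (κ) (-κ ^ 3 - κ ^ 5 + κ ^ 9 + κ ^ 10) (-κ - κ ^ 3 + κ ^ 7 + κ ^ 8) (1) 0 (1) (-κ - κ ^ 3 + κ ^ 7 + κ ^ 8) (-κ ^ 3 - κ ^ 5 + κ ^ 9 + κ ^ 10) (κ) 0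
  have i5 := hF (κ) (-κ - κ ^ 3 - κ ^ 5 + κ ^ 9 + κ ^ 10) (-κ + κ ^ 5 + κ ^ 7 + κ ^ 8 - κ ^ 9 - κ ^ 10) (1 + κ + κ ^ 3 - κ ^ 7 - κ ^ 8) (-1) (1) (-1 - κ - κ ^ 3 + κ ^ 7 + κ ^ 8) (κ - κ ^ 5 - κ ^ 7 - κ ^ 8 + κ ^ 9 + κ ^ 10) (κ + κ ^ 3 + κ ^ 5 - κ ^ 9 - κ ^ 10) (-κ)
  have j1 := mul_le_mul_of_nonneg_left i1 a0.le
  have j2 := mul_le_mul_of_nonneg_left i2 a1.le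
  have j3 := mul_le_mul_of_nonneg_left i3 a2.le
  have j4 := mul_le_mul_of_nonneg_left i4 b0.le
  have j5 := mul_le_mul_of_nonneg_left i5 a2.le
  have fin : (-22 - 24 * κ - 20 * κ ^ 2 + 21 * κ ^ 3 + 67 * κ ^ 4 + 129 * κ ^ 5 + 128 * κ ^ 6 + 101 * κ ^ 7 + 65 * κ ^ 8 + 25 * κ ^ 9) * c + (-κ + κ ^ 2 + 3 * κ ^ 3 + 3 * κ ^ 4 - 3 * κ ^ 6 - 7 * κ ^ 7 - 7 * κ ^ 8 - 3 * κ ^ 9) * t ≤ (-22 - 24 * κ - 20 * κ ^ 2 + 21 * κ ^ 3 + 67 * κ ^ 4 + 129 * κ ^ 5 + 128 * κ ^ 6 + 101 * κ ^ 7 + 65 * κ ^ 8 + 25 * κ ^ 9) * κ := by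
    linear_combination j1 + j2 + j3 + j4 + j5 + (((38 + 42 * κ - 34 * κ ^ 2 - 104 * κ ^ 3 - 190 * κ ^ 4 - 204 * κ ^ 5 - 168 * κ ^ 6 - 118 * κ ^ 7 - 78 * κ ^ 8 + 32 * κ ^ 9 + 86 * κ ^ 10 + 72 * κ ^ 11 + 82 * κ ^ 12 + 148 * κ ^ 13 + 210 * κ ^ 14 + 198 * κ ^ 15 + 100 * κ ^ 16 + 26 * κ ^ 17 + 8 * κ ^ 18 + 4 * κ ^ 19) / 2 - (25)) - ((16 - 4 * κ - 23 * κ ^ 2 - 80 * κ ^ 3 - 128 * κ ^ 4 - 122 * κ ^ 5 - 108 * κ ^ 6 - 65 * κ ^ 7 - 46 * κ ^ 8 - 13 * κ ^ 9 + 34 * κ ^ 10 + 59 * κ ^ 11 + 88 * κ ^ 12 + 119 * κ ^ 13 + 114 * κ ^ 14 + 96 * κ ^ 15 + 54 * κ ^ 16 + 5 * κ ^ 17 - 10 * κ ^ 18 - 3 * κ ^ 19) * c + (-8 - 37 * κ - 43 * κ ^ 2 - 5 * κ ^ 3 - 29 * κ ^ 4 - 40 * κ ^ 5 - 92 * κ ^ 6 - 91 * κ ^ 7 - 37 * κ ^ 8 + 3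 * κ ^ 9 + 39 * κ ^ 10 + 80 * κ ^ 11 + 82 * κ ^ 12 + 58 * κ ^ 13 + 12 * κ ^ 14 - 14 * κ ^ 15 - 8 * κ ^ 16) * g1 + (17 * κ - 18 * κ ^ 2 - 26 * κ ^ 3 - 43 * κ ^ 4 - 30 * κ ^ 5 - 11 * κ ^ 6 - 25 * κ ^ 7 - 29 * κ ^ 8 - 3 * κ ^ 9 + 3 * κ ^ 10 - 6 * κ ^ 11 - 13 * κ ^ 12 - 11 * κ ^ 13 + 11 * κ ^ 15 + 10 * κ ^ 16 + 3 * κ ^ 17) * g2 + (-20 - 20 * κ - 8 * κ ^ 2 - 6 * κ ^ 4 - 20 * κ ^ 5 - 28 * κ ^ 6 - 20 * κ ^ 7 - 6 * κ ^ 8) * g3)) * hD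
  have ht2 : 0 ≤ (-κ + κ ^ 2 + 3 * κ ^ 3 + 3 * κ ^ 4 - 3 * κ ^ 6 - 7 * κ ^ 7 - 7 * κ ^ 8 - 3 * κ ^ 9) * t := by
    have : (-κ + κ ^ 2 + 3 * κ ^ 3 + 3 * κ ^ 4 - 3 * κ ^ 6 - 7 * κ ^ 7 - 7 * κ ^ 8 - 3 * κ ^ 9) * t = (-t) * (κ - κ ^ 2 - 3 * κ ^ 3 - 3 * κ ^ 4 + 3 * κ ^ 6 + 7 * κ ^ 7 + 7 * κ ^ 8 + 3 * κ ^ 9) := by ring
    rw [this]; exact mul_nonneg (by linarith) a2.le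
  have : (-22 - 24 * κ - 20 * κ ^ 2 + 21 * κ ^ 3 + 67 * κ ^ 4 + 129 * κ ^ 5 + 128 * κ ^ 6 + 101 * κ ^ 7 + 65 * κ ^ 8 + 25 * κ ^ 9) * c ≤ (-22 - 24 * κ - 20 * κ ^ 2 + 21 * κ ^ 3 + 67 * κ ^ 4 + 129 * κ ^ 5 + 128 * κ ^ 6 + 101 * κ ^ 7 + 65 * κ ^ 8 + 25 * κ ^ 9) * κ := by linarith
  exact le_of_mul_le_mul_left this lam

end Pool.Agent.H3Mahler
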