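import Pool.Agent.H3Mahler.Inst
import Pool.Agent.H3Mahler.Certs
import Pool.Agent.H3Mahler.Setup
import Pool.Agent.H3Mahler.Sharp

set_option autoImplicit false
set_option linter.unusedVariables false
set_option linter.unusedTactic false
set_option linter.unreachableTactic false
set_option linter.unusedSimpArgs false
set_option maxHeartbeats 4000000

namespace Pool.Agent.H3Mahler

lemma region_C6m {F G : ℕ → ℝ} {k ℓ j : ℕ} {a b e : ℝ} (S : Setup F G k ℓ j a b e)
    (ha : a = -1) (hb : b = 1 ∨ b = -1) (hc : 0 ≤ G 0) (he : e ≤ 0)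
    {κ : ℝ} (hD : 1 - κ ^ 3 - κ ^ 4 - 2 * κ ^ 5 + κ ^ 9 + κ ^ 10 = 0)
    (hκ1 : 73303 / 100000 < κ) (hκ2 : κ < 73304 / 100000)
    (m : ℕ) (hm : 0 < m) (hkm : k = 2 * m) (hlm : ℓ = 3 * m) (hj : j = 4 * m) :
    G 0 ≤ κ := by
  subst hkm hlm hj
  have F0 : F m = G m + 0 + 0 + 0 := by
    have h := S.rel m (by omega)
    rw [if_neg (by omega : ¬ (2 * m ≤ m)), if_neg (by omega : ¬ (3 * m ≤ m)), if_neg (by omega : ¬ (m = 4 * m))] at h
    exact h
  have F1 : F (2 * m) = G (2 * m) + a * G 0 + 0 + 0 := by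
    have h := S.rel (2 * m) (by omega)
    rw [if_pos (by omega : 2 * m ≤ 2 * m), if_neg (by omega : ¬ (3 * m ≤ 2 * m)), if_neg (by omega : ¬ (2 * m = 4 * m)), (by omega : 2 * m - (2 * m) = 0)] at h
    exact h
  have F2 : F (3 * m) = G (3 * m) + a * G m + b * G 0 + 0 := by
    have h := S.rel (3 * m) (by omega)
    rw [if_pos (by omega : 2 * m ≤ 3 * m), if_pos (by omega : 3 * m ≤ 3 * m), if_neg (by omega : ¬ (3 * m = 4 * m)), (by omega : 3 * m - (2 * m) = m), (by omega : 3 * m - (3 * m) = 0)] at h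
    exact h
  have F3 : F (4 * m) = G (4 * m) + a * G (2 * m) + b * G m + e * G 0 := by
    have h := S.rel (4 * m) (by omega)
    rw [if_pos (by omega : 2 * m ≤ 4 * m), if_pos (by omega : 3 * m ≤ 4 * m), if_pos (by omega : 4 * m = 4 * m), (by omega : 4 * m - (2 * m) = 2 * m), (by omega : 4 * m - (3 * m) = m)] at h
    exact h
  have f0 : b * F m = (b * G m) := by
    rw [F0]
    rcases hb with h2 | h2 <;> (try simp only [ha, h2]) <;> ring
  have g0 : b * G m = (b * G m) := by ring
  have f1 : 1 * F (2 * m) = -(G 0) + (G (2 * m)) := by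
    rw [F1]
    rcases hb with h2 | h2 <;> (try simp only [ha, h2]) <;> ring
  have g1 : 1 * G (2 * m) = (G (2 * m)) := by ring
  have f2 : b * F (3 * m) = (G 0) - (b * G m) + (b * G (3 * m)) := by
    rw [F2]
    rcases hb with h2 | h2 <;> (try simp only [ha, h2]) <;> ring
  have g2 : b * G (3 * m) = (b * G (3 * m)) := by ring
  have f3 : 1 * F (4 * m) = (b * G m) - (G (2 * m)) + (G (4 * m)) + (e * G 0) := by
    rw [F3]
    rcases hb with h2 | h2 <;> (try simp only [ha, h2]) <;> ring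
  have g3 : 1 * G (4 * m) = (G (4 * m)) := by ring
  have p0 : 1 * 1 = (1 : ℝ) := by
    rcases hb with h2 | h2 <;> (try simp only [ha, h2]) <;> norm_num
  have p1 : 1 * b = (b : ℝ) := by
    rcases hb with h2 | h2 <;> (try simp only [ha, h2]) <;> norm_num
  have p2 : b * 1 = (b : ℝ) := by
    rcases hb with h2 | h2 <;> (try simp only [ha, h2]) <;> norm_num
  have p3 : b * b = (1 : ℝ) := by
    rcases hb with h2 | h2 <;> (try simp only [ha, h2]) <;> norm_num
  have s0 : 1 ^ 2 = (1 : ℝ) := by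
    rcases hb with h2 | h2 <;> (try simp only [ha, h2]) <;> norm_num
  have s1 : b ^ 2 = (1 : ℝ) := by
    rcases hb with h2 | h2 <;> (try simp only [ha, h2]) <;> norm_num
  have x10 : m - 0 = m := by omega
  have x20 : 2 * m - 0 = 2 * m := by omega
  have x21 : 2 * m - m = m := by omega
  have x30 : 3 * m - 0 = 3 * m := by omega
  have x31 : 3 * m - m = 2 * m := by omega
  have x32 : 3 * m - (2 * m) = m := by omega
  have x40 : 4 * m - 0 = 4 * m := by omega
  have x41 : 4 * m - m = 3 * m := by omega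
  have x42 : 4 * m - (2 * m) = 2 * m := by omega
  have x43 : 4 * m - (3 * m) = m := by omega
  have eF10 : b * 1 * F (m - 0) = (b * G m) := by
    rw [x10, p2]; first | done | exact f0
  have eF20 : 1 * 1 * F (2 * m - 0) = -(G 0) + (G (2 * m)) := by
    rw [x20, p0]; first | done | exact f1
  have eF21 : 1 * b * F (2 * m - m) = (b * G m) := by
    rw [x21, p1]; first | done | exact f0
  have eF30 : b * 1 * F (3 * m - 0) = (G 0) - (b * G m) + (b * G (3 * m)) := by
    rw [x30, p2]; first | done | exact f2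
  have eF31 : b * b * F (3 * m - m) = -(G 0) + (G (2 * m)) := by
    rw [x31, p3]; first | done | exact f1
  have eF32 : b * 1 * F (3 * m - (2 * m)) = (b * G m) := by
    rw [x32, p2]; first | done | exact f0
  have eF40 : 1 * 1 * F (4 * m - 0) = (b * G m) - (G (2 * m)) + (G (4 * m)) + (e * G 0) := by
    rw [x40, p0]; first | done | exact f3
  have eF41 : 1 * b * F (4 * m - m) = (G 0) - (b * G m) + (b * G (3 * m)) := by
    rw [x41, p1]; first | done | exact f2
  have eF42 : 1 * 1 * F (4 * m - (2 * m)) = -(G 0) + (G (2 * m)) := by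
    rw [x42, p0]; first | done | exact f1
  have eF43 : 1 * b * F (4 * m - (3 * m)) = (b * G m) := by
    rw [x43, p1]; first | done | exact f0
  have eG10 : b * 1 * G (m - 0) = (b * G m) := by
    rw [x10, p2]; first | done | exact g0
  have eG20 : 1 * 1 * G (2 * m - 0) = (G (2 * m)) := by
    rw [x20, p0]; first | done | exact g1
  have eG21 : 1 * b * G (2 * m - m) = (b * G m) := by
    rw [x21, p1]; first | done | exact g0
  have eG30 : b * 1 * G (3 * m - 0) = (b * G (3 * m)) := by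
    rw [x30, p2]; first | done | exact g2
  have eG31 : b * b * G (3 * m - m) = (G (2 * m)) := by
    rw [x31, p3]; first | done | exact g1
  have eG32 : b * 1 * G (3 * m - (2 * m)) = (b * G m) := by
    rw [x32, p2]; first | done | exact g0
  have eG40 : 1 * 1 * G (4 * m - 0) = (G (4 * m)) := by
    rw [x40, p0]; first | done | exact g3
  have eG41 : 1 * b * G (4 * m - m) = (b * G (3 * m)) := by
    rw [x41, p1]; first | done | exact g2
  have eG42 : 1 * 1 * G (4 * m - (2 * m)) = (G (2 * m)) := by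
    rw [x42, p0]; first | done | exact g1
  have eG43 : 1 * b * G (4 * m - (3 * m)) = (b * G m) := by
    rw [x43, p1]; first | done | exact g0
  have hFF := S.hF.sinst5 0 m (2 * m) (3 * m) (4 * m) (by omega) (by omega) (by omega) (by omega) 1 b 1 b 1 s0 s1 s0 s1 s0 (G 0)
      ((b * G m)) (-(G 0) + (G (2 * m))) ((b * G m)) ((G 0) - (b * G m) + (b * G (3 * m))) (-(G 0) + (G (2 * m))) ((b * G m)) ((b * G m) - (G (2 * m)) + (G (4 * m)) + (e * G 0)) ((G 0) - (b * G m) + (b * G (3 * m))) (-(G 0) + (G (2 * m))) ((b * G m)) S.zero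
      eF10 eF20 eF21 eF30 eF31 eF32 eF40 eF41 eF42 eF43
  have hGG := S.hG.sinst5 0 m (2 * m) (3 * m) (4 * m) (by omega) (by omega) (by omega) (by omega) 1 b 1 b 1 s0 s1 s0 s1 s0 (G 0)
      ((b * G m)) ((G (2 * m))) ((b * G m)) ((b * G (3 * m))) ((G (2 * m))) ((b * G m)) ((G (4 * m))) ((b * G (3 * m))) ((G (2 * m))) ((b * G m)) rfl
      eG10 eG20 eG21 eG30 eG31 eG32 eG40 eG41 eG42 eG43
  refine cert_sharp (G 0) (b * G m) (G (2 * m)) (b * G (3 * m)) (G (4 * m)) (e * G 0) κ hD hκ1 hκ2 ?_ ?_ (mul_nonpos_of_nonpos_of_nonneg he hc)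
  · intro w0 w1 w2 w3 w4 u0 u1 u2 u3 u4
    have h := hFF w0 w1 w2 w3 w4 u0 u1 u2 u3 u4
    linarith
  · intro w0 w1 w2 w3 w4 u0 u1 u2 u3 u4
    have h := hGG w0 w1 w2 w3 w4 u0 u1 u2 u3 u4
    linarith

end Pool.Agent.H3Mahler
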