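import Pool.Agent.H3Mahler.Inst
import Pool.Agent.H3Mahler.Certs
import Pool.Agent.H3Mahler.Setup

set_option autoImplicit false
set_option linter.unusedVariables false
set_option linter.unusedTactic false
set_option linter.unreachableTactic false
set_option linter.unusedSimpArgs false
set_option maxHeartbeats 4000000

namespace Pool.Agent.H3Mahler

lemma region_C8p {F G : ℕ → ℝ} {k ℓ j : ℕ} {a b e : ℝ} (S : Setup F G k ℓ j a b e)
    (ha : a = 1 ∨ a = -1) (hb : b = a) (hc : 0 ≤ G 0) (he : e ≤ 0)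
    (m : ℕ) (hm : 0 < m) (hkm : k = 3 * m) (hlm : ℓ = 5 * m) (hj : j = 6 * m) :
    G 0 ≤ 733 / 1000 := by
  subst hkm hlm hj
  have F0 : F m = G m + 0 + 0 + 0 := by
    have h := S.rel m (by omega)
    rw [if_neg (by omega : ¬ (3 * m ≤ m)), if_neg (by omega : ¬ (5 * m ≤ m)), if_neg (by omega : ¬ (m = 6 * m))] at h
    exact h
  have F1 : F (2 * m) = G (2 * m) + 0 + 0 + 0 := by
    have h := S.rel (2 * m) (by omega)
    rw [if_neg (by omega : ¬ (3 * m ≤ 2 * m)), if_neg (by omega : ¬ (5 * m ≤ 2 * m)), if_neg (by omega : ¬ (2 * m = 6 * m))] at h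
    exact h
  have F2 : F (3 * m) = G (3 * m) + a * G 0 + 0 + 0 := by
    have h := S.rel (3 * m) (by omega)
    rw [if_pos (by omega : 3 * m ≤ 3 * m), if_neg (by omega : ¬ (5 * m ≤ 3 * m)), if_neg (by omega : ¬ (3 * m = 6 * m)), (by omega : 3 * m - (3 * m) = 0)] at h
    exact h
  have F3 : F (4 * m) = G (4 * m) + a * G m + 0 + 0 := by
    have h := S.rel (4 * m) (by omega)
    rw [if_pos (by omega : 3 * m ≤ 4 * m), if_neg (by omega : ¬ (5 * m ≤ 4 * m)), if_neg (by omega : ¬ (4 * m = 6 * m)), (by omega : 4 * m - (3 * m) = m)] at h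
    exact h
  have F4 : F (5 * m) = G (5 * m) + a * G (2 * m) + b * G 0 + 0 := by
    have h := S.rel (5 * m) (by omega)
    rw [if_pos (by omega : 3 * m ≤ 5 * m), if_pos (by omega : 5 * m ≤ 5 * m), if_neg (by omega : ¬ (5 * m = 6 * m)), (by omega : 5 * m - (3 * m) = 2 * m), (by omega : 5 * m - (5 * m) = 0)] at h
    exact h
  have F5 : F (6 * m) = G (6 * m) + a * G (3 * m) + b * G m + e * G 0 := by
    have h := S.rel (6 * m) (by omega)
    rw [if_pos (by omega : 3 * m ≤ 6 * m), if_pos (by omega : 5 * m ≤ 6 * m), if_pos (by omega : 6 * m = 6 * m), (by omega : 6 * m - (3 * m) = 3 * m), (by omega : 6 * m - (5 * m) = m)] at h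
    exact h
  have f0 : a * F m = (a * G m) := by
    rw [F0]
    rcases ha with h1 | h1 <;> (try simp only [hb, h1]) <;> ring
  have g0 : a * G m = (a * G m) := by ring
  have f1 : 1 * F (2 * m) = (G (2 * m)) := by
    rw [F1]
    rcases ha with h1 | h1 <;> (try simp only [hb, h1]) <;> ring
  have g1 : 1 * G (2 * m) = (G (2 * m)) := by ring
  have f2 : a * F (3 * m) = (G 0) + (a * G (3 * m)) := by
    rw [F2]
    rcases ha with h1 | h1 <;> (try simp only [hb, h1]) <;> ring
  have g2 : a * G (3 * m) = (a * G (3 * m)) := by ring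
  have f3 : 1 * F (4 * m) = (a * G m) + (G (4 * m)) := by
    rw [F3]
    rcases ha with h1 | h1 <;> (try simp only [hb, h1]) <;> ring
  have g3 : 1 * G (4 * m) = (G (4 * m)) := by ring
  have f4 : a * F (5 * m) = (G 0) + (G (2 * m)) + (a * G (5 * m)) := by
    rw [F4]
    rcases ha with h1 | h1 <;> (try simp only [hb, h1]) <;> ring
  have g4 : a * G (5 * m) = (a * G (5 * m)) := by ring
  have f5 : 1 * F (6 * m) = (a * G m) + (a * G (3 * m)) + (G (6 * m)) + (e * G 0) := by
    rw [F5]
    rcases ha with h1 | h1 <;> (try simp only [hb, h1]) <;> ring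
  have g5 : 1 * G (6 * m) = (G (6 * m)) := by ring
  have p0 : 1 * 1 = (1 : ℝ) := by
    rcases ha with h1 | h1 <;> (try simp only [hb, h1]) <;> norm_num
  have p1 : 1 * a = (a : ℝ) := by
    rcases ha with h1 | h1 <;> (try simp only [hb, h1]) <;> norm_num
  have p2 : a * 1 = (a : ℝ) := by
    rcases ha with h1 | h1 <;> (try simp only [hb, h1]) <;> norm_num
  have p3 : a * a = (1 : ℝ) := by
    rcases ha with h1 | h1 <;> (try simp only [hb, h1]) <;> norm_num
  have s0 : 1 ^ 2 = (1 : ℝ) := by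
    rcases ha with h1 | h1 <;> (try simp only [hb, h1]) <;> norm_num
  have s1 : a ^ 2 = (1 : ℝ) := by
    rcases ha with h1 | h1 <;> (try simp only [hb, h1]) <;> norm_num
  have x10 : m - 0 = m := by omega
  have x20 : 2 * m - 0 = 2 * m := by omega
  have x21 : 2 * m - m = m := by omega
  have x30 : 3 * m - 0 = 3 * m := by omega
  have x31 : 3 * m - m = 2 * m := by omega
  have x32 : 3 * m - (2 * m) = m := by omega
  have x40 : 4 * m - 0 = 4 * m := by omega
  have x41 : 4 * m - m = 3 * m := by omega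
  have x42 : 4 * m - (2 * m) = 2 * m := by omega
  have x43 : 4 * m - (3 * m) = m := by omega
  have x50 : 5 * m - 0 = 5 * m := by omega
  have x51 : 5 * m - m = 4 * m := by omega
  have x52 : 5 * m - (2 * m) = 3 * m := by omega
  have x53 : 5 * m - (3 * m) = 2 * m := by omega
  have x54 : 5 * m - (4 * m) = m := by omega
  have x60 : 6 * m - 0 = 6 * m := by omega
  have x61 : 6 * m - m = 5 * m := by omega
  have x62 : 6 * m - (2 * m) = 4 * m := by omega
  have x63 : 6 * m - (3 * m) = 3 * m := by omega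
  have x64 : 6 * m - (4 * m) = 2 * m := by omega
  have x65 : 6 * m - (5 * m) = m := by omega
  have eF10 : a * 1 * F (m - 0) = (a * G m) := by
    rw [x10, p2]; first | done | exact f0
  have eF20 : 1 * 1 * F (2 * m - 0) = (G (2 * m)) := by
    rw [x20, p0]; first | done | exact f1
  have eF21 : 1 * a * F (2 * m - m) = (a * G m) := by
    rw [x21, p1]; first | done | exact f0
  have eF30 : a * 1 * F (3 * m - 0) = (G 0) + (a * G (3 * m)) := by
    rw [x30, p2]; first | done | exact f2
  have eF31 : a * a * F (3 * m - m) = (G (2 * m)) := by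
    rw [x31, p3]; first | done | exact f1
  have eF32 : a * 1 * F (3 * m - (2 * m)) = (a * G m) := by
    rw [x32, p2]; first | done | exact f0
  have eF40 : 1 * 1 * F (4 * m - 0) = (a * G m) + (G (4 * m)) := by
    rw [x40, p0]; first | done | exact f3
  have eF41 : 1 * a * F (4 * m - m) = (G 0) + (a * G (3 * m)) := by
    rw [x41, p1]; first | done | exact f2
  have eF42 : 1 * 1 * F (4 * m - (2 * m)) = (G (2 * m)) := by
    rw [x42, p0]; first | done | exact f1
  have eF43 : 1 * a * F (4 * m - (3 * m)) = (a * G m) := by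
    rw [x43, p1]; first | done | exact f0
  have eF50 : a * 1 * F (5 * m - 0) = (G 0) + (G (2 * m)) + (a * G (5 * m)) := by
    rw [x50, p2]; first | done | exact f4
  have eF51 : a * a * F (5 * m - m) = (a * G m) + (G (4 * m)) := by
    rw [x51, p3]; first | done | exact f3
  have eF52 : a * 1 * F (5 * m - (2 * m)) = (G 0) + (a * G (3 * m)) := by
    rw [x52, p2]; first | done | exact f2
  have eF53 : a * a * F (5 * m - (3 * m)) = (G (2 * m)) := by
    rw [x53, p3]; first | done | exact f1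
  have eF54 : a * 1 * F (5 * m - (4 * m)) = (a * G m) := by
    rw [x54, p2]; first | done | exact f0
  have eF60 : 1 * 1 * F (6 * m - 0) = (a * G m) + (a * G (3 * m)) + (G (6 * m)) + (e * G 0) := by
    rw [x60, p0]; first | done | exact f5
  have eF61 : 1 * a * F (6 * m - m) = (G 0) + (G (2 * m)) + (a * G (5 * m)) := by
    rw [x61, p1]; first | done | exact f4
  have eF62 : 1 * 1 * F (6 * m - (2 * m)) = (a * G m) + (G (4 * m)) := by
    rw [x62, p0]; first | done | exact f3
  have eF63 : 1 * a * F (6 * m - (3 * m)) = (G 0) + (a * G (3 * m)) := by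
    rw [x63, p1]; first | done | exact f2
  have eF64 : 1 * 1 * F (6 * m - (4 * m)) = (G (2 * m)) := by
    rw [x64, p0]; first | done | exact f1
  have eF65 : 1 * a * F (6 * m - (5 * m)) = (a * G m) := by
    rw [x65, p1]; first | done | exact f0
  have eG10 : a * 1 * G (m - 0) = (a * G m) := by
    rw [x10, p2]; first | done | exact g0
  have eG20 : 1 * 1 * G (2 * m - 0) = (G (2 * m)) := by
    rw [x20, p0]; first | done | exact g1
  have eG21 : 1 * a * G (2 * m - m) = (a * G m) := by
    rw [x21, p1]; first | done | exact g0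
  have eG30 : a * 1 * G (3 * m - 0) = (a * G (3 * m)) := by
    rw [x30, p2]; first | done | exact g2
  have eG31 : a * a * G (3 * m - m) = (G (2 * m)) := by
    rw [x31, p3]; first | done | exact g1
  have eG32 : a * 1 * G (3 * m - (2 * m)) = (a * G m) := by
    rw [x32, p2]; first | done | exact g0
  have eG40 : 1 * 1 * G (4 * m - 0) = (G (4 * m)) := by
    rw [x40, p0]; first | done | exact g3
  have eG41 : 1 * a * G (4 * m - m) = (a * G (3 * m)) := by
    rw [x41, p1]; first | done | exact g2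
  have eG42 : 1 * 1 * G (4 * m - (2 * m)) = (G (2 * m)) := by
    rw [x42, p0]; first | done | exact g1
  have eG43 : 1 * a * G (4 * m - (3 * m)) = (a * G m) := by
    rw [x43, p1]; first | done | exact g0
  have eG50 : a * 1 * G (5 * m - 0) = (a * G (5 * m)) := by
    rw [x50, p2]; first | done | exact g4
  have eG51 : a * a * G (5 * m - m) = (G (4 * m)) := by
    rw [x51, p3]; first | done | exact g3
  have eG52 : a * 1 * G (5 * m - (2 * m)) = (a * G (3 * m)) := by
    rw [x52, p2]; first | done | exact g2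
  have eG53 : a * a * G (5 * m - (3 * m)) = (G (2 * m)) := by
    rw [x53, p3]; first | done | exact g1
  have eG54 : a * 1 * G (5 * m - (4 * m)) = (a * G m) := by
    rw [x54, p2]; first | done | exact g0
  have eG60 : 1 * 1 * G (6 * m - 0) = (G (6 * m)) := by
    rw [x60, p0]; first | done | exact g5
  have eG61 : 1 * a * G (6 * m - m) = (a * G (5 * m)) := by
    rw [x61, p1]; first | done | exact g4
  have eG62 : 1 * 1 * G (6 * m - (2 * m)) = (G (4 * m)) := by
    rw [x62, p0]; first | done | exact g3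
  have eG63 : 1 * a * G (6 * m - (3 * m)) = (a * G (3 * m)) := by
    rw [x63, p1]; first | done | exact g2
  have eG64 : 1 * 1 * G (6 * m - (4 * m)) = (G (2 * m)) := by
    rw [x64, p0]; first | done | exact g1
  have eG65 : 1 * a * G (6 * m - (5 * m)) = (a * G m) := by
    rw [x65, p1]; first | done | exact g0
  have hFF := S.hF.sinst7 0 m (2 * m) (3 * m) (4 * m) (5 * m) (6 * m) (by omega) (by omega) (by omega) (by omega) (by omega) (by omega) 1 a 1 a 1 a 1 s0 s1 s0 s1 s0 s1 s0 (G 0)
      ((a * G m)) ((G (2 * m))) ((a * G m)) ((G 0) + (a * G (3 * m))) ((G (2 * m))) ((a * G m)) ((a * G m) + (G (4 * m))) ((G 0) + (a * G (3 * m))) ((G (2 * m))) ((a * G m)) ((G 0) + (G (2 * m)) + (a * G (5 * m))) ((a * G m) + (G (4 * m))) ((G 0) + (a * G (3 * m))) ((G (2 * m))) ((a * G m)) ((a * G m) + (a * G (3 * m)) + (G (6 * m)) + (e * G 0)) ((G 0) + (G (2 * m)) + (a * G (5 * m))) ((a * G m) + (G (4 * m))) ((G 0) + (a * G (3 * m))) ((G (2 * m))) ((a * G m)) S.zero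
      eF10 eF20 eF21 eF30 eF31 eF32 eF40 eF41 eF42 eF43 eF50 eF51 eF52 eF53 eF54 eF60 eF61 eF62 eF63 eF64 eF65
  have hGG := S.hG.sinst7 0 m (2 * m) (3 * m) (4 * m) (5 * m) (6 * m) (by omega) (by omega) (by omega) (by omega) (by omega) (by omega) 1 a 1 a 1 a 1 s0 s1 s0 s1 s0 s1 s0 (G 0)
      ((a * G m)) ((G (2 * m))) ((a * G m)) ((a * G (3 * m))) ((G (2 * m))) ((a * G m)) ((G (4 * m))) ((a * G (3 * m))) ((G (2 * m))) ((a * G m)) ((a * G (5 * m))) ((G (4 * m))) ((a * G (3 * m))) ((G (2 * m))) ((a * G m)) ((G (6 * m))) ((a * G (5 * m))) ((G (4 * m))) ((a * G (3 * m))) ((G (2 * m))) ((a * G m)) rfl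
      eG10 eG20 eG21 eG30 eG31 eG32 eG40 eG41 eG42 eG43 eG50 eG51 eG52 eG53 eG54 eG60 eG61 eG62 eG63 eG64 eG65
  exact cert_C8p (G 0) (a * G m) (G (2 * m)) (a * G (3 * m)) (G (4 * m)) (a * G (5 * m)) (G (6 * m)) (e * G 0) hFF hGG (mul_nonpos_of_nonpos_of_nonneg he hc)
lemma region_C8m {F G : ℕ → ℝ} {k ℓ j : ℕ} {a b e : ℝ} (S : Setup F G k ℓ j a b e)
    (ha : a = 1 ∨ a = -1) (hb : b = -a) (hc : 0 ≤ G 0) (he : e ≤ 0)
    (m : ℕ) (hm : 0 < m) (hkm : k = 3 * m) (hlm : ℓ = 5 * m) (hj : j = 6 * m) :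
    G 0 ≤ 733 / 1000 := by
  subst hkm hlm hj
  have F0 : F m = G m + 0 + 0 + 0 := by
    have h := S.rel m (by omega)
    rw [if_neg (by omega : ¬ (3 * m ≤ m)), if_neg (by omega : ¬ (5 * m ≤ m)), if_neg (by omega : ¬ (m = 6 * m))] at h
    exact h
  have F1 : F (2 * m) = G (2 * m) + 0 + 0 + 0 := by
    have h := S.rel (2 * m) (by omega)
    rw [if_neg (by omega : ¬ (3 * m ≤ 2 * m)), if_neg (by omega : ¬ (5 * m ≤ 2 * m)), if_neg (by omega : ¬ (2 * m = 6 * m))] at h
    exact h
  have F2 : F (3 * m) = G (3 * m) + a * G 0 + 0 + 0 := by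
    have h := S.rel (3 * m) (by omega)
    rw [if_pos (by omega : 3 * m ≤ 3 * m), if_neg (by omega : ¬ (5 * m ≤ 3 * m)), if_neg (by omega : ¬ (3 * m = 6 * m)), (by omega : 3 * m - (3 * m) = 0)] at h
    exact h
  have F3 : F (4 * m) = G (4 * m) + a * G m + 0 + 0 := by
    have h := S.rel (4 * m) (by omega)
    rw [if_pos (by omega : 3 * m ≤ 4 * m), if_neg (by omega : ¬ (5 * m ≤ 4 * m)), if_neg (by omega : ¬ (4 * m = 6 * m)), (by omega : 4 * m - (3 * m) = m)] at h
    exact h
  have F4 : F (5 * m) = G (5 * m) + a * G (2 * m) + b * G 0 + 0 := by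
    have h := S.rel (5 * m) (by omega)
    rw [if_pos (by omega : 3 * m ≤ 5 * m), if_pos (by omega : 5 * m ≤ 5 * m), if_neg (by omega : ¬ (5 * m = 6 * m)), (by omega : 5 * m - (3 * m) = 2 * m), (by omega : 5 * m - (5 * m) = 0)] at h
    exact h
  have F5 : F (6 * m) = G (6 * m) + a * G (3 * m) + b * G m + e * G 0 := by
    have h := S.rel (6 * m) (by omega)
    rw [if_pos (by omega : 3 * m ≤ 6 * m), if_pos (by omega : 5 * m ≤ 6 * m), if_pos (by omega : 6 * m = 6 * m), (by omega : 6 * m - (3 * m) = 3 * m), (by omega : 6 * m - (5 * m) = m)] at h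
    exact h
  have f0 : a * F m = (a * G m) := by
    rw [F0]
    rcases ha with h1 | h1 <;> (try simp only [hb, h1]) <;> ring
  have g0 : a * G m = (a * G m) := by ring
  have f1 : 1 * F (2 * m) = (G (2 * m)) := by
    rw [F1]
    rcases ha with h1 | h1 <;> (try simp only [hb, h1]) <;> ring
  have g1 : 1 * G (2 * m) = (G (2 * m)) := by ring
  have f2 : a * F (3 * m) = (G 0) + (a * G (3 * m)) := by
    rw [F2]
    rcases ha with h1 | h1 <;> (try simp only [hb, h1]) <;> ring
  have g2 : a * G (3 * m) = (a * G (3 * m)) := by ring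
  have f3 : 1 * F (4 * m) = (a * G m) + (G (4 * m)) := by
    rw [F3]
    rcases ha with h1 | h1 <;> (try simp only [hb, h1]) <;> ring
  have g3 : 1 * G (4 * m) = (G (4 * m)) := by ring
  have f4 : a * F (5 * m) = -(G 0) + (G (2 * m)) + (a * G (5 * m)) := by
    rw [F4]
    rcases ha with h1 | h1 <;> (try simp only [hb, h1]) <;> ring
  have g4 : a * G (5 * m) = (a * G (5 * m)) := by ring
  have f5 : 1 * F (6 * m) = -(a * G m) + (a * G (3 * m)) + (G (6 * m)) + (e * G 0) := by
    rw [F5]
    rcases ha with h1 | h1 <;> (try simp only [hb, h1]) <;> ring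
  have g5 : 1 * G (6 * m) = (G (6 * m)) := by ring
  have p0 : 1 * 1 = (1 : ℝ) := by
    rcases ha with h1 | h1 <;> (try simp only [hb, h1]) <;> norm_num
  have p1 : 1 * a = (a : ℝ) := by
    rcases ha with h1 | h1 <;> (try simp only [hb, h1]) <;> norm_num
  have p2 : a * 1 = (a : ℝ) := by
    rcases ha with h1 | h1 <;> (try simp only [hb, h1]) <;> norm_num
  have p3 : a * a = (1 : ℝ) := by
    rcases ha with h1 | h1 <;> (try simp only [hb, h1]) <;> norm_num
  have s0 : 1 ^ 2 = (1 : ℝ) := by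
    rcases ha with h1 | h1 <;> (try simp only [hb, h1]) <;> norm_num
  have s1 : a ^ 2 = (1 : ℝ) := by
    rcases ha with h1 | h1 <;> (try simp only [hb, h1]) <;> norm_num
  have x10 : m - 0 = m := by omega
  have x20 : 2 * m - 0 = 2 * m := by omega
  have x21 : 2 * m - m = m := by omega
  have x30 : 3 * m - 0 = 3 * m := by omega
  have x31 : 3 * m - m = 2 * m := by omega
  have x32 : 3 * m - (2 * m) = m := by omega
  have x40 : 4 * m - 0 = 4 * m := by omega
  have x41 : 4 * m - m = 3 * m := by omega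
  have x42 : 4 * m - (2 * m) = 2 * m := by omega
  have x43 : 4 * m - (3 * m) = m := by omega
  have x50 : 5 * m - 0 = 5 * m := by omega
  have x51 : 5 * m - m = 4 * m := by omega
  have x52 : 5 * m - (2 * m) = 3 * m := by omega
  have x53 : 5 * m - (3 * m) = 2 * m := by omega
  have x54 : 5 * m - (4 * m) = m := by omega
  have x60 : 6 * m - 0 = 6 * m := by omega
  have x61 : 6 * m - m = 5 * m := by omega
  have x62 : 6 * m - (2 * m) = 4 * m := by omega
  have x63 : 6 * m - (3 * m) = 3 * m := by omega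
  have x64 : 6 * m - (4 * m) = 2 * m := by omega
  have x65 : 6 * m - (5 * m) = m := by omega
  have eF10 : a * 1 * F (m - 0) = (a * G m) := by
    rw [x10, p2]; first | done | exact f0
  have eF20 : 1 * 1 * F (2 * m - 0) = (G (2 * m)) := by
    rw [x20, p0]; first | done | exact f1
  have eF21 : 1 * a * F (2 * m - m) = (a * G m) := by
    rw [x21, p1]; first | done | exact f0
  have eF30 : a * 1 * F (3 * m - 0) = (G 0) + (a * G (3 * m)) := by
    rw [x30, p2]; first | done | exact f2
  have eF31 : a * a * F (3 * m - m) = (G (2 * m)) := by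
    rw [x31, p3]; first | done | exact f1
  have eF32 : a * 1 * F (3 * m - (2 * m)) = (a * G m) := by
    rw [x32, p2]; first | done | exact f0
  have eF40 : 1 * 1 * F (4 * m - 0) = (a * G m) + (G (4 * m)) := by
    rw [x40, p0]; first | done | exact f3
  have eF41 : 1 * a * F (4 * m - m) = (G 0) + (a * G (3 * m)) := by
    rw [x41, p1]; first | done | exact f2
  have eF42 : 1 * 1 * F (4 * m - (2 * m)) = (G (2 * m)) := by
    rw [x42, p0]; first | done | exact f1
  have eF43 : 1 * a * F (4 * m - (3 * m)) = (a * G m) := by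
    rw [x43, p1]; first | done | exact f0
  have eF50 : a * 1 * F (5 * m - 0) = -(G 0) + (G (2 * m)) + (a * G (5 * m)) := by
    rw [x50, p2]; first | done | exact f4
  have eF51 : a * a * F (5 * m - m) = (a * G m) + (G (4 * m)) := by
    rw [x51, p3]; first | done | exact f3
  have eF52 : a * 1 * F (5 * m - (2 * m)) = (G 0) + (a * G (3 * m)) := by
    rw [x52, p2]; first | done | exact f2
  have eF53 : a * a * F (5 * m - (3 * m)) = (G (2 * m)) := by
    rw [x53, p3]; first | done | exact f1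
  have eF54 : a * 1 * F (5 * m - (4 * m)) = (a * G m) := by
    rw [x54, p2]; first | done | exact f0
  have eF60 : 1 * 1 * F (6 * m - 0) = -(a * G m) + (a * G (3 * m)) + (G (6 * m)) + (e * G 0) := by
    rw [x60, p0]; first | done | exact f5
  have eF61 : 1 * a * F (6 * m - m) = -(G 0) + (G (2 * m)) + (a * G (5 * m)) := by
    rw [x61, p1]; first | done | exact f4
  have eF62 : 1 * 1 * F (6 * m - (2 * m)) = (a * G m) + (G (4 * m)) := by
    rw [x62, p0]; first | done | exact f3
  have eF63 : 1 * a * F (6 * m - (3 * m)) = (G 0) + (a * G (3 * m)) := by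
    rw [x63, p1]; first | done | exact f2
  have eF64 : 1 * 1 * F (6 * m - (4 * m)) = (G (2 * m)) := by
    rw [x64, p0]; first | done | exact f1
  have eF65 : 1 * a * F (6 * m - (5 * m)) = (a * G m) := by
    rw [x65, p1]; first | done | exact f0
  have eG10 : a * 1 * G (m - 0) = (a * G m) := by
    rw [x10, p2]; first | done | exact g0
  have eG20 : 1 * 1 * G (2 * m - 0) = (G (2 * m)) := by
    rw [x20, p0]; first | done | exact g1
  have eG21 : 1 * a * G (2 * m - m) = (a * G m) := by
    rw [x21, p1]; first | done | exact g0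
  have eG30 : a * 1 * G (3 * m - 0) = (a * G (3 * m)) := by
    rw [x30, p2]; first | done | exact g2
  have eG31 : a * a * G (3 * m - m) = (G (2 * m)) := by
    rw [x31, p3]; first | done | exact g1
  have eG32 : a * 1 * G (3 * m - (2 * m)) = (a * G m) := by
    rw [x32, p2]; first | done | exact g0
  have eG40 : 1 * 1 * G (4 * m - 0) = (G (4 * m)) := by
    rw [x40, p0]; first | done | exact g3
  have eG41 : 1 * a * G (4 * m - m) = (a * G (3 * m)) := by
    rw [x41, p1]; first | done | exact g2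
  have eG42 : 1 * 1 * G (4 * m - (2 * m)) = (G (2 * m)) := by
    rw [x42, p0]; first | done | exact g1
  have eG43 : 1 * a * G (4 * m - (3 * m)) = (a * G m) := by
    rw [x43, p1]; first | done | exact g0
  have eG50 : a * 1 * G (5 * m - 0) = (a * G (5 * m)) := by
    rw [x50, p2]; first | done | exact g4
  have eG51 : a * a * G (5 * m - m) = (G (4 * m)) := by
    rw [x51, p3]; first | done | exact g3
  have eG52 : a * 1 * G (5 * m - (2 * m)) = (a * G (3 * m)) := by
    rw [x52, p2]; first | done | exact g2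
  have eG53 : a * a * G (5 * m - (3 * m)) = (G (2 * m)) := by
    rw [x53, p3]; first | done | exact g1
  have eG54 : a * 1 * G (5 * m - (4 * m)) = (a * G m) := by
    rw [x54, p2]; first | done | exact g0
  have eG60 : 1 * 1 * G (6 * m - 0) = (G (6 * m)) := by
    rw [x60, p0]; first | done | exact g5
  have eG61 : 1 * a * G (6 * m - m) = (a * G (5 * m)) := by
    rw [x61, p1]; first | done | exact g4
  have eG62 : 1 * 1 * G (6 * m - (2 * m)) = (G (4 * m)) := by
    rw [x62, p0]; first | done | exact g3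
  have eG63 : 1 * a * G (6 * m - (3 * m)) = (a * G (3 * m)) := by
    rw [x63, p1]; first | done | exact g2
  have eG64 : 1 * 1 * G (6 * m - (4 * m)) = (G (2 * m)) := by
    rw [x64, p0]; first | done | exact g1
  have eG65 : 1 * a * G (6 * m - (5 * m)) = (a * G m) := by
    rw [x65, p1]; first | done | exact g0
  have hFF := S.hF.sinst7 0 m (2 * m) (3 * m) (4 * m) (5 * m) (6 * m) (by omega) (by omega) (by omega) (by omega) (by omega) (by omega) 1 a 1 a 1 a 1 s0 s1 s0 s1 s0 s1 s0 (G 0)
      ((a * G m)) ((G (2 * m))) ((a * G m)) ((G 0) + (a * G (3 * m))) ((G (2 * m))) ((a * G m)) ((a * G m) + (G (4 * m))) ((G 0) + (a * G (3 * m))) ((G (2 * m))) ((a * G m)) (-(G 0) + (G (2 * m)) + (a * G (5 * m))) ((a * G m) + (G (4 * m))) ((G 0) + (a * G (3 * m))) ((G (2 * m))) ((a * G m)) (-(a * G m) + (a * G (3 * m)) + (G (6 * m)) + (e * G 0)) (-(G 0) + (G (2 * m)) + (a * G (5 * m))) ((a * G m) + (G (4 * m))) ((G 0) + (a * G (3 * m))) ((G (2 * m))) ((a * G m)) S.zero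
      eF10 eF20 eF21 eF30 eF31 eF32 eF40 eF41 eF42 eF43 eF50 eF51 eF52 eF53 eF54 eF60 eF61 eF62 eF63 eF64 eF65
  have hGG := S.hG.sinst7 0 m (2 * m) (3 * m) (4 * m) (5 * m) (6 * m) (by omega) (by omega) (by omega) (by omega) (by omega) (by omega) 1 a 1 a 1 a 1 s0 s1 s0 s1 s0 s1 s0 (G 0)
      ((a * G m)) ((G (2 * m))) ((a * G m)) ((a * G (3 * m))) ((G (2 * m))) ((a * G m)) ((G (4 * m))) ((a * G (3 * m))) ((G (2 * m))) ((a * G m)) ((a * G (5 * m))) ((G (4 * m))) ((a * G (3 * m))) ((G (2 * m))) ((a * G m)) ((G (6 * m))) ((a * G (5 * m))) ((G (4 * m))) ((a * G (3 * m))) ((G (2 * m))) ((a * G m)) rfl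
      eG10 eG20 eG21 eG30 eG31 eG32 eG40 eG41 eG42 eG43 eG50 eG51 eG52 eG53 eG54 eG60 eG61 eG62 eG63 eG64 eG65
  exact cert_C8m (G 0) (a * G m) (G (2 * m)) (a * G (3 * m)) (G (4 * m)) (a * G (5 * m)) (G (6 * m)) (e * G 0) hFF hGG (mul_nonpos_of_nonpos_of_nonneg he hc)

end Pool.Agent.H3Mahler
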