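import Pool.Agent.H3Mahler.RegC1
import Pool.Agent.H3Mahler.RegC2
import Pool.Agent.H3Mahler.RegC3
import Pool.Agent.H3Mahler.RegC4
import Pool.Agent.H3Mahler.RegC5
import Pool.Agent.H3Mahler.RegC6
import Pool.Agent.H3Mahler.RegC6m
import Pool.Agent.H3Mahler.RegC7
import Pool.Agent.H3Mahler.RegC8
import Pool.Agent.H3Mahler.RegC9
import Pool.Agent.H3Mahler.RegB1
import Pool.Agent.H3Mahler.RegB2
import Pool.Agent.H3Mahler.RegB3

set_option autoImplicit false

namespace Pool.Agent.H3Mahler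

open Finset

/-- case `|a_k| ≥ 2` -/
lemma region_A1 {F G : ℕ → ℝ} (hF : IsSchur F) (hG : IsSchur G) {k : ℕ} (hk : 0 < k) {a h v : ℝ}
    (h0 : F 0 = G 0) (hrel : F k = G k + a * G 0) (hc : 0 ≤ G 0)
    (hh : h = 1 ∨ h = -1) (ha : a = h * v) (hv : 2 ≤ v) : G 0 ≤ 733 / 1000 := by
  have i1 := hF.inst2 0 k hk 1 (h * 2) 2 (h * 1)
  have i2 := hG.inst2 0 k hk 1 (-(h * 2)) 2 (-(h * 1))
  rw [Nat.sub_zero, h0, hrel, ha] at i1
  rw [Nat.sub_zero] at i2
  have hvc : 2 * G 0 ≤ v * G 0 := mul_le_mul_of_nonneg_right hv hc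
  rcases hh with rfl | rfl <;> nlinarith

/-- case `|a_k| = 1`, `|a_ℓ| ≥ 2` -/
lemma region_A2 {F G : ℕ → ℝ} (hF : IsSchur F) (hG : IsSchur G) {k δ : ℕ} (hδ : 0 < δ)
    (hδk : δ < k) {a b h v : ℝ}
    (h0 : F 0 = G 0) (h1 : F δ = G δ) (h2 : F k = G k + a * G 0)
    (h3 : F (k + δ) = G (k + δ) + a * G δ + b * G 0) (hc : 0 ≤ G 0)
    (ha : a = 1 ∨ a = -1)
    (hh : h = 1 ∨ h = -1) (hb : b = h * v) (hv : 2 ≤ v) : G 0 ≤ 733 / 1000 := by
  have x1 : k + δ - δ = k := by omega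
  have hs1 : (a * h) ^ 2 = (1 : ℝ) := by
    rcases ha with rfl | rfl <;> rcases hh with rfl | rfl <;> norm_num
  have hs2 : h ^ 2 = (1 : ℝ) := by
    rcases hh with rfl | rfl <;> norm_num
  have hFF := hF.sinst3 0 δ (k + δ) hδ (by omega) 1 (a * h) h (by norm_num) hs1 hs2 (G 0)
    (a * h * G δ) (2 * (G 0) + (a * h * G δ) + (h * G (k + δ)) + 2 * ((v - 2) / 2 * G 0))
    ((G 0) + (a * G k)) h0
    (by rw [Nat.sub_zero, h1]; ring)
    (by rw [Nat.sub_zero, h3, hb]; rcases hh with rfl | rfl <;> ring)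
    (by rw [x1, h2]; rcases ha with rfl | rfl <;> rcases hh with rfl | rfl <;> ring)
  have hGG := hG.sinst3 0 δ (k + δ) hδ (by omega) 1 (a * h) h (by norm_num) hs1 hs2 (G 0)
    (a * h * G δ) (h * G (k + δ)) (a * G k) rfl
    (by rw [Nat.sub_zero]; ring)
    (by rw [Nat.sub_zero]; ring)
    (by rw [x1]; rcases ha with rfl | rfl <;> rcases hh with rfl | rfl <;> ring)
  exact cert_A2 (G 0) (a * h * G δ) (h * G (k + δ)) (a * G k) ((v - 2) / 2 * G 0) hFF hGG
    (mul_nonneg (by linarith) hc)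

lemma Setup.swap {F G : ℕ → ℝ} {k ℓ : ℕ} {a b e : ℝ} (S : Setup F G k ℓ (2 * k) a b e)
    (ha : a ^ 2 = 1) : Setup G F k ℓ (2 * k) (-a) (-b) (1 - e) := by
  have hk := S.hk
  have hkl := S.hkl
  have hlj := S.hlj
  refine ⟨S.hG, S.hF, S.hk, S.hkl, S.hlj, le_rfl, ?_⟩
  have hlow : ∀ n, n < k → F n = G n := by
    intro n hn
    have h := S.rel n (by omega)
    rw [if_neg (by omega), if_neg (by omega), if_neg (by omega)] at h
    linarith
  intro n hn
  have h := S.rel n hn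
  by_cases h1 : k ≤ n
  · rw [if_pos h1] at h ⊢
    by_cases h3 : n = 2 * k
    · rw [if_pos h3] at h ⊢
      have h2 : ℓ ≤ n := by omega
      rw [if_pos h2] at h ⊢
      have hb := hlow (n - ℓ) (by omega)
      have hkk := S.rel k (by omega)
      rw [if_pos le_rfl, if_neg (by omega), if_neg (by omega)] at hkk
      have e1 : n - k = k := by omega
      have h00 := S.zero
      rw [e1] at h ⊢
      rw [Nat.sub_self] at hkk
      rw [hb, hkk, h00, h]
      linear_combination (G 0) * ha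
    · rw [if_neg h3] at h ⊢
      have hb := hlow (n - k) (by omega)
      by_cases h2 : ℓ ≤ n
      · rw [if_pos h2] at h ⊢
        have hb2 := hlow (n - ℓ) (by omega)
        rw [hb, hb2, h]; ring
      · rw [if_neg h2] at h ⊢
        rw [hb, h]; ring
  · rw [if_neg h1, if_neg (by omega), if_neg (by omega)] at h ⊢
    linarith

lemma typeC_nonpos {F G : ℕ → ℝ} {k ℓ : ℕ} {a b e : ℝ} (S : Setup F G k ℓ (2 * k) a b e)
    (ha : a = 1 ∨ a = -1) (hb : b = 1 ∨ b = -1) (hc : 0 ≤ G 0) (he : e ≤ 0) {κ : ℝ}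
    (hD : 1 - κ ^ 3 - κ ^ 4 - 2 * κ ^ 5 + κ ^ 9 + κ ^ 10 = 0)
    (hκ1 : 73303 / 100000 < κ) (hκ2 : κ < 73304 / 100000) : G 0 ≤ κ := by
  have hk := S.hk
  have hkl := S.hkl
  have hlj := S.hlj
  obtain ⟨δ, rfl⟩ : ∃ δ, ℓ = k + δ := ⟨ℓ - k, by omega⟩
  have hδ : 0 < δ := by omega
  have hδk : δ < k := by omega
  have fin : ∀ {x : ℝ}, x ≤ 733 / 1000 → x ≤ κ := fun hx => by linarith
  rcases lt_trichotomy (4 * δ) k with h | h | h
  · exact fin (region_C1 S ha hb hc he rfl δ hδ rfl h)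
  · rcases ha with ha | ha
    · exact fin (region_C2p S ha hb hc he δ hδ (by omega) (by omega) (by omega))
    · exact fin (region_C2m S ha hb hc he δ hδ (by omega) (by omega) (by omega))
  rcases lt_trichotomy (3 * δ) k with h' | h' | h'
  · exact fin (region_C3 S ha hb hc he rfl δ hδ rfl h' h)
  · rcases hb with hb | hb
    · exact fin (region_C4p S ha hb hc he δ hδ (by omega) (by omega) (by omega))
    · exact fin (region_C4m S ha hb hc he δ hδ (by omega) (by omega) (by omega))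
  rcases lt_trichotomy (2 * δ) k with h2 | h2 | h2
  · exact fin (region_C5 S ha hb hc he rfl δ hδ rfl h2 h')
  · rcases ha with ha | ha
    · exact fin (region_C6p S ha hb hc he δ hδ (by omega) (by omega) (by omega))
    · exact region_C6m S ha hb hc he hD hκ1 hκ2 δ hδ (by omega) (by omega) (by omega)
  rcases lt_trichotomy (3 * δ) (2 * k) with h3 | h3 | h3
  · exact fin (region_C7 S ha hb hc he rfl δ hδ rfl h3 h2)
  · obtain ⟨m, hm⟩ : ∃ m, δ = 2 * m := ⟨δ / 2, by omega⟩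
    rcases eq_or_ne b a with hab | hab
    · exact fin (region_C8p S ha hab hc he m (by omega) (by omega) (by omega) (by omega))
    · have hab' : b = -a := by
        rcases ha with rfl | rfl <;> rcases hb with rfl | rfl <;> first | exact absurd rfl hab | norm_num
      exact fin (region_C8m S ha hab' hc he m (by omega) (by omega) (by omega) (by omega))
  · exact fin (region_C9 S ha hb hc he rfl δ hδ rfl hδk h3)

/-- The relation `F = A * G` when `A` has only the exponents `0, k, ℓ, j` up to `j`. -/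
lemma rel_of {F G : ℕ → ℝ} {A : ℕ → ℤ} {k ℓ j : ℕ} (hA0 : A 0 = 1)
    (hFG : ∀ n, F n = ∑ i ∈ range (n + 1), (A i : ℝ) * G (n - i))
    (hk : 0 < k) (hkl : k < ℓ) (hlj : ℓ < j)
    (hz : ∀ i, 0 < i → i < j → i ≠ k → i ≠ ℓ → A i = 0) :
    ∀ n ≤ j, F n = G n + (if k ≤ n then (A k : ℝ) * G (n - k) else 0)
      + (if ℓ ≤ n then (A ℓ : ℝ) * G (n - ℓ) else 0) + (if n = j then (A j : ℝ) * G 0 else 0) := by
  intro n hn
  rw [hFG]
  have h1 : ∀ i ∈ range (n + 1), (A i : ℝ) * G (n - i) =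
      (if 0 = i then (1 : ℝ) * G (n - 0) else 0) + (if k = i then (A k : ℝ) * G (n - k) else 0)
      + (if ℓ = i then (A ℓ : ℝ) * G (n - ℓ) else 0)
      + (if j = i then (A j : ℝ) * G (n - j) else 0) := by
    intro i hi
    rw [mem_range] at hi
    by_cases c0 : 0 = i
    · subst c0
      rw [if_pos rfl, if_neg (by omega), if_neg (by omega), if_neg (by omega), hA0]
      push_cast; ring
    by_cases c1 : k = i
    · subst c1
      rw [if_neg c0, if_pos rfl, if_neg (by omega), if_neg (by omega)]; ring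
    by_cases c2 : ℓ = i
    · subst c2
      rw [if_neg c0, if_neg c1, if_pos rfl, if_neg (by omega)]; ring
    by_cases c3 : j = i
    · subst c3
      rw [if_neg c0, if_neg c1, if_neg c2, if_pos rfl]; ring
    rw [if_neg c0, if_neg c1, if_neg c2, if_neg c3]
    rw [hz i (by omega) (by omega) (by omega) (by omega)]
    push_cast; ring
  rw [Finset.sum_congr rfl h1, Finset.sum_add_distrib, Finset.sum_add_distrib,
    Finset.sum_add_distrib, Finset.sum_ite_eq, Finset.sum_ite_eq, Finset.sum_ite_eq,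
    Finset.sum_ite_eq]
  simp only [mem_range, Nat.lt_succ_iff, Nat.sub_zero, one_mul, Nat.zero_le, if_true]
  congr 1
  by_cases h : n = j
  · subst h; simp
  · rw [if_neg h, if_neg (by omega)]

lemma int_sign (z : ℤ) (hz : z ≠ 0) : ∃ h v : ℝ, (h = 1 ∨ h = -1) ∧ (z : ℝ) = h * v ∧ 1 ≤ v ∧
    v = |(z : ℝ)| := by
  rcases lt_or_gt_of_ne hz with h | h
  · refine ⟨-1, -(z : ℝ), Or.inr rfl, by ring, ?_, ?_⟩
    · have : (z : ℝ) ≤ -1 := by exact_mod_cast (by omega : z ≤ -1)
      linarith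
    · rw [abs_of_neg (by exact_mod_cast h)]
  · refine ⟨1, (z : ℝ), Or.inl rfl, by ring, by exact_mod_cast h, ?_⟩
    rw [abs_of_pos (by exact_mod_cast h)]

/-- **Main bound.** -/
theorem main_bound {F G : ℕ → ℝ} (hF : IsSchur F) (hG : IsSchur G) {A : ℕ → ℤ} {k ℓ : ℕ}
    (hA0 : A 0 = 1) (hFG : ∀ n, F n = ∑ i ∈ range (n + 1), (A i : ℝ) * G (n - i))
    (hk : 0 < k) (hkl : k < ℓ) (hl2 : ℓ < 2 * k) (hAk : A k ≠ 0) (hAl : A ℓ ≠ 0)
    (hz : ∀ i, 0 < i → i < ℓ → i ≠ k → A i = 0) (hc : 0 ≤ G 0) {κ : ℝ}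
    (hD : 1 - κ ^ 3 - κ ^ 4 - 2 * κ ^ 5 + κ ^ 9 + κ ^ 10 = 0)
    (hκ1 : 73303 / 100000 < κ) (hκ2 : κ < 73304 / 100000) : G 0 ≤ κ := by
  have fin : ∀ {x : ℝ}, x ≤ 733 / 1000 → x ≤ κ := fun hx => by linarith
  -- find third exponent
  obtain ⟨j, hlj, hj2, hzj, hjj⟩ : ∃ j, ℓ < j ∧ j ≤ 2 * k ∧
      (∀ i, 0 < i → i < j → i ≠ k → i ≠ ℓ → A i = 0) ∧ (j < 2 * k → A j ≠ 0) := by
    by_cases hex : ∃ j, ℓ < j ∧ j < 2 * k ∧ A j ≠ 0
    · classical
      refine ⟨Nat.find hex, (Nat.find_spec hex).1, (Nat.find_spec hex).2.1.le, ?_,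
        fun _ => (Nat.find_spec hex).2.2⟩
      intro i hi0 hij hik hil
      by_contra hne
      rcases lt_or_ge i ℓ with h | h
      · exact hne (hz i hi0 h hik)
      · have := Nat.find_min hex hij
        have h2 := (Nat.find_spec hex).2.1
        exact this ⟨by omega, by omega, hne⟩
    · push Not at hex
      refine ⟨2 * k, hl2, le_rfl, ?_, fun h => absurd h (lt_irrefl _)⟩
      intro i hi0 hij hik hil
      rcases lt_or_ge i ℓ with h | h
      · exact hz i hi0 h hik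
      · exact hex i (by omega) hij
  have rel := rel_of hA0 hFG hk hkl hlj hzj
  have S : Setup F G k ℓ j (A k) (A ℓ) (A j) := ⟨hF, hG, hk, hkl, hlj, hj2, rel⟩
  obtain ⟨h, v, hh, hav, hv1, hvabs⟩ := int_sign (A k) hAk
  by_cases ha2 : 2 ≤ |A k|
  · have hv2 : 2 ≤ v := by rw [hvabs]; exact_mod_cast ha2
    have h2 := rel k (by omega)
    rw [if_pos le_rfl, if_neg (by omega), if_neg (by omega), Nat.sub_self] at h2
    exact fin (region_A1 hF hG hk S.zero (by linarith) hc hh hav hv2)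
  have ha : (A k : ℝ) = 1 ∨ (A k : ℝ) = -1 := by
    have : A k = 1 ∨ A k = -1 := by
      push Not at ha2
      rcases abs_lt.mp ha2 with ⟨h1, h2⟩
      omega
    rcases this with h | h
    · left; rw [h]; norm_num
    · right; rw [h]; norm_num
  obtain ⟨δ, hδl⟩ : ∃ δ, ℓ = k + δ := ⟨ℓ - k, by omega⟩
  obtain ⟨h', v', hh', hbv, hv1', hvabs'⟩ := int_sign (A ℓ) hAl
  by_cases hb2 : 2 ≤ |A ℓ|
  · have hv2 : 2 ≤ v' := by rw [hvabs']; exact_mod_cast hb2
    have h1 := rel δ (by omega)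
    rw [if_neg (by omega), if_neg (by omega), if_neg (by omega)] at h1
    have h2 := rel k (by omega)
    rw [if_pos le_rfl, if_neg (by omega), if_neg (by omega), Nat.sub_self] at h2
    have h3 := rel ℓ (by omega)
    rw [if_pos hkl.le, if_pos le_rfl, if_neg (by omega), Nat.sub_self,
      (by omega : ℓ - k = δ)] at h3
    rw [hδl] at h3
    rw [← hδl] at h3
    refine fin (region_A2 hF hG (k := k) (δ := δ) (by omega) (by omega) S.zero (by linarith)
      (by linarith) ?_ hc ha hh' hbv hv2)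
    rw [← hδl]; linarith
  have hb : (A ℓ : ℝ) = 1 ∨ (A ℓ : ℝ) = -1 := by
    have : A ℓ = 1 ∨ A ℓ = -1 := by
      push Not at hb2
      rcases abs_lt.mp hb2 with ⟨h1, h2⟩
      omega
    rcases this with h | h
    · left; rw [h]; norm_num
    · right; rw [h]; norm_num
  rcases lt_or_eq_of_le hj2 with hj | hj
  · -- type B
    obtain ⟨g, w, hg, hew, hw1, -⟩ := int_sign (A j) (hjj hj)
    obtain ⟨ε, hε⟩ : ∃ ε, j = k + ε := ⟨j - k, by omega⟩
    rcases lt_trichotomy ε (2 * δ) with hr | hr | hr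
    · exact fin (region_B1 S ha hb hg hc hew hw1 δ ε (by omega) (by omega) (by omega) hδl hε hr)
    · by_cases hs : g = (A k : ℝ)
      · exact fin (region_B2p S ha hb hc (by rw [hew, hs]) hw1 δ (by omega) (by omega) hδl
          (by omega))
      · have hs' : g = -(A k : ℝ) := by
          rcases hg with h1 | h1 <;> rcases ha with h2 | h2 <;>
            first | exact absurd (h1.trans h2.symm) hs | (simp only [h1, h2, neg_neg])
        exact fin (region_B2m S ha hb hc (by rw [hew, hs', neg_mul]) hw1 δ (by omega) (by omega) hδl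
          (by omega))
    · exact fin (region_B3 S ha hb hg hc hew hw1 δ ε (by omega) (by omega) (by omega) hδl hε hr)
  · -- type C
    subst hj
    by_cases he : A (2 * k) ≤ 0
    · exact typeC_nonpos S ha hb hc (by exact_mod_cast he) hD hκ1 hκ2
    · have hsq : (A k : ℝ) ^ 2 = 1 := by rcases ha with h | h <;> rw [h] <;> norm_num
      have S' := S.swap hsq
      have h0 := S.zero
      rw [← h0]
      refine typeC_nonpos S' ?_ ?_ (by rw [h0]; exact hc) ?_ hD hκ1 hκ2
      · rcases ha with h | h <;> rw [h] <;> norm_num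
      · rcases hb with h | h <;> rw [h] <;> norm_num
      · have : (1 : ℝ) ≤ (A (2 * k) : ℝ) := by exact_mod_cast (by omega : 1 ≤ A (2 * k))
        linarith

end Pool.Agent.H3Mahler
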