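import Pool.Agent.H3Mahler.Schur

set_option autoImplicit false

namespace Pool.Agent.H3Mahler

open Finset PowerSeries ComplexConjugate

/-- Truncated contraction property of a complex power series (multiplication does not increase
truncated square norms). -/
def IsSchurC (f : PowerSeries ℂ) : Prop :=
  ∀ (u : PowerSeries ℂ) (N : ℕ),
    ∑ n ∈ range N, ‖coeff n (f * u)‖ ^ 2 ≤ ∑ n ∈ range N, ‖coeff n u‖ ^ 2

lemma IsSchurC.mul {f g : PowerSeries ℂ} (hf : IsSchurC f) (hg : IsSchurC g) :
    IsSchurC (f * g) := by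
  intro u N
  rw [mul_assoc]
  exact (hf _ N).trans (hg u N)

lemma isSchurC_one : IsSchurC 1 := by
  intro u N
  rw [one_mul]

lemma isSchurC_C {η : ℂ} (hη : ‖η‖ ≤ 1) : IsSchurC (C η) := by
  intro u N
  apply Finset.sum_le_sum
  intro n _
  rw [coeff_C_mul, norm_mul, mul_pow]
  have : ‖η‖ ^ 2 ≤ 1 := pow_le_one₀ (norm_nonneg _) hη
  nlinarith [sq_nonneg ‖coeff n u‖]

lemma isSchurC_prod {ι : Type*} (s : Multiset ι) (f : ι → PowerSeries ℂ)
    (h : ∀ i ∈ s, IsSchurC (f i)) : IsSchurC (s.map f).prod := by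
  induction s using Multiset.induction_on with
  | empty => simpa using isSchurC_one
  | cons a s ih =>
    rw [Multiset.map_cons, Multiset.prod_cons]
    exact (h a (Multiset.mem_cons_self a s)).mul
      (ih fun i hi => h i (Multiset.mem_cons_of_mem hi))

lemma alg_id (β u v : ℂ) :
    (1 - ‖β‖ ^ 2) * (‖u‖ ^ 2 - ‖v‖ ^ 2) + ‖v + β * u‖ ^ 2 = ‖u + conj β * v‖ ^ 2 := by
  simp only [Complex.sq_norm, Complex.normSq_apply, Complex.add_re, Complex.add_im,
    Complex.mul_re, Complex.mul_im, Complex.conj_re, Complex.conj_im]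
  ring

lemma blaschke_id {β : ℂ} {u v : PowerSeries ℂ}
    (h : (1 - C (conj β) * X) * v = (X - C β) * u) (N : ℕ) :
    (1 - ‖β‖ ^ 2) * (∑ n ∈ range (N + 1), ‖coeff n u‖ ^ 2 - ∑ n ∈ range (N + 1), ‖coeff n v‖ ^ 2)
      = ‖coeff N u + conj β * coeff N v‖ ^ 2 := by
  induction N with
  | zero =>
    have h0 := congrArg (coeff 0) h
    simp [sub_mul, mul_assoc] at h0
    have := alg_id β (coeff 0 u) (coeff 0 v)
    have hz : coeff 0 v + β * coeff 0 u = 0 := by
      simp only [coeff_zero_eq_constantCoeff]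
      rw [h0]; ring
    rw [hz, norm_zero] at this
    simp only [zero_add, Finset.range_one, Finset.sum_singleton]
    rw [← this]; ring
  | succ N ih =>
    rw [Finset.sum_range_succ, Finset.sum_range_succ (fun n => ‖coeff n v‖ ^ 2)]
    have h1 := congrArg (coeff (N + 1)) h
    have e1 : coeff (N + 1) ((1 - C (conj β) * X) * v)
        = coeff (N + 1) v - conj β * coeff N v := by
      rw [sub_mul, one_mul, map_sub, mul_assoc, coeff_C_mul, coeff_succ_X_mul]
    have e2 : coeff (N + 1) ((X - C β) * u) = coeff N u - β * coeff (N + 1) u := by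
      rw [sub_mul, map_sub, coeff_C_mul, coeff_succ_X_mul]
    rw [e1, e2] at h1
    have h2 : coeff N u + conj β * coeff N v = coeff (N + 1) v + β * coeff (N + 1) u := by
      linear_combination -h1
    have := alg_id β (coeff (N + 1) u) (coeff (N + 1) v)
    rw [← this, ← h2, ← ih]
    ring

lemma blaschke_le {β : ℂ} (hβ : ‖β‖ < 1) {u v : PowerSeries ℂ}
    (h : (1 - C (conj β) * X) * v = (X - C β) * u) (N : ℕ) :
    ∑ n ∈ range N, ‖coeff n v‖ ^ 2 ≤ ∑ n ∈ range N, ‖coeff n u‖ ^ 2 := by
  cases N with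
  | zero => simp
  | succ N =>
    have := blaschke_id h N
    have h1 : 0 < 1 - ‖β‖ ^ 2 := by
      have := pow_lt_one₀ (norm_nonneg β) hβ two_ne_zero
      linarith
    have h2 : 0 ≤ ‖coeff N u + conj β * coeff N v‖ ^ 2 := by positivity
    rw [← this] at h2
    have := nonneg_of_mul_nonneg_right h2 h1
    linarith

/-- factor attached to a root inside the disc -/
noncomputable def inF (α : ℂ) : PowerSeries ℂ := (X - C α) * (1 - C (conj α) * X)⁻¹

/-- factor attached to a root outside the disc -/
noncomputable def outG (α : ℂ) : PowerSeries ℂ := (1 - C (conj α) * X) * (X - C α)⁻¹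

lemma cc_one_sub (α : ℂ) : constantCoeff (1 - C (conj α) * X : PowerSeries ℂ) = 1 := by
  simp

lemma cc_X_sub (α : ℂ) : constantCoeff (X - C α : PowerSeries ℂ) = -α := by
  simp

lemma inF_mul (α : ℂ) : inF α * (1 - C (conj α) * X) = X - C α := by
  rw [inF, mul_assoc, PowerSeries.inv_mul_cancel _ (by rw [cc_one_sub]; exact one_ne_zero),
    mul_one]

lemma outG_mul {α : ℂ} (hα : α ≠ 0) : outG α * (X - C α) = 1 - C (conj α) * X := by
  rw [outG, mul_assoc, PowerSeries.inv_mul_cancel _ (by rw [cc_X_sub]; exact neg_ne_zero.mpr hα),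
    mul_one]

lemma isSchurC_inF {α : ℂ} (hα : ‖α‖ < 1) : IsSchurC (inF α) := by
  intro u N
  apply blaschke_le hα
  rw [← mul_assoc, mul_comm (1 - C (conj α) * X), inF_mul]

lemma isSchurC_outG {α : ℂ} (hα : 1 < ‖α‖) : IsSchurC (outG α) := by
  have hα0 : α ≠ 0 := by
    intro h; rw [h, norm_zero] at hα; linarith
  have hc0 : conj α ≠ 0 := by
    intro h; exact hα0 (by simpa using h)
  intro u N
  have hη : ‖α / conj α‖ = 1 := by
    rw [norm_div, Complex.norm_conj, div_self]
    exact (norm_pos_iff.mpr hα0).ne'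
  have key := blaschke_le (β := 1 / conj α) (u := u) (v := C (α / conj α) * (outG α * u))
    (by rw [norm_div, norm_one, Complex.norm_conj]; exact (div_lt_one (by linarith)).mpr hα)
    (by
      have h1 : (1 - C (conj (1 / conj α)) * X : PowerSeries ℂ) = C (-1 / α) * (X - C α) := by
        rw [mul_sub, ← map_mul]
        have : -1 / α * α = -1 := by field_simp
        rw [this]
        have h2 : conj (1 / conj α) = 1 / α := by simp
        rw [h2, neg_div, map_neg, map_neg, map_one]
        ring
      have h3 : (X - C (1 / conj α) : PowerSeries ℂ)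
          = C (-1 / conj α) * (1 - C (conj α) * X) := by
        rw [mul_sub, mul_one, ← mul_assoc, ← map_mul]
        have : -1 / conj α * conj α = -1 := by field_simp
        rw [this, neg_div, map_neg, map_neg, map_one]
        ring
      rw [h1, h3]
      have h4 : C (-1 / α) * C (α / conj α) = (C (-1 / conj α) : PowerSeries ℂ) := by
        rw [← map_mul]; congr 1; field_simp
      calc C (-1 / α) * (X - C α) * (C (α / conj α) * (outG α * u))
          = (C (-1 / α) * C (α / conj α)) * (outG α * (X - C α)) * u := by ring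
        _ = C (-1 / conj α) * (1 - C (conj α) * X) * u := by rw [h4, outG_mul hα0]) N
  refine le_trans (le_of_eq ?_) key
  apply Finset.sum_congr rfl
  intro n _
  rw [coeff_C_mul, norm_mul, hη, one_mul]

end Pool.Agent.H3Mahler
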