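import Mathlib

set_option autoImplicit false

namespace Pool.Agent.H3Mahler

open Polynomial ComplexConjugate

/-- Mahler measure of a real quadratic with negative discriminant. -/
lemma mahler_quad {b c : ℝ} (h : b ^ 2 < 4 * c) :
    (X ^ 2 + C (b : ℂ) * X + C (c : ℂ) : ℂ[X]).mahlerMeasure = max 1 c := by
  set t : ℝ := Real.sqrt (4 * c - b ^ 2) with ht
  have htt : t * t = 4 * c - b ^ 2 := Real.mul_self_sqrt (by linarith)
  set z : ℂ := ⟨-b / 2, t / 2⟩ with hz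
  have hsum : z + conj z = -b := by
    apply Complex.ext <;> simp [hz]
  have hprod : z * conj z = c := by
    rw [Complex.mul_conj, Complex.normSq_apply]
    congr 1
    simp only [hz]
    nlinarith
  have hfac : (X ^ 2 + C (b : ℂ) * X + C (c : ℂ) : ℂ[X]) = (X - C z) * (X - C (conj z)) := by
    have h1 : (C (b : ℂ) : ℂ[X]) = - (C z + C (conj z)) := by
      rw [← C_add, hsum, ← C_neg, neg_neg]
    have h2 : (C (c : ℂ) : ℂ[X]) = C z * C (conj z) := by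
      rw [← C_mul, hprod]
    rw [h1, h2]; ring
  rw [hfac, mahlerMeasure_mul, mahlerMeasure_X_sub_C, mahlerMeasure_X_sub_C, Complex.norm_conj]
  have hn : ‖z‖ ^ 2 = c := by
    have : ((‖z‖ ^ 2 : ℝ) : ℂ) = (c : ℂ) := by
      rw [← hprod, Complex.mul_conj, Complex.normSq_eq_norm_sq]
    exact_mod_cast this
  rcases le_total 1 ‖z‖ with h1 | h1
  · rw [max_eq_right h1, max_eq_right (by nlinarith), ← hn]; ring
  · rw [max_eq_left h1, max_eq_left (by nlinarith [norm_nonneg z])]; ring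

lemma exists_kappa : ∃ κ : ℝ, 1 - κ ^ 3 - κ ^ 4 - 2 * κ ^ 5 + κ ^ 9 + κ ^ 10 = 0 ∧
    10000000 / 13641996 < κ ∧ κ < 10000000 / 13641995 := by
  have hcont : ContinuousOn (fun κ : ℝ => 1 - κ ^ 3 - κ ^ 4 - 2 * κ ^ 5 + κ ^ 9 + κ ^ 10)
      (Set.Icc (10000000 / 13641996) (10000000 / 13641995)) := by fun_prop
  have := intermediate_value_Ioo' (by norm_num) hcont
  have h0 : (0 : ℝ) ∈ Set.Ioo
      ((fun κ : ℝ => 1 - κ ^ 3 - κ ^ 4 - 2 * κ ^ 5 + κ ^ 9 + κ ^ 10) (10000000 / 13641995))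
      ((fun κ : ℝ => 1 - κ ^ 3 - κ ^ 4 - 2 * κ ^ 5 + κ ^ 9 + κ ^ 10) (10000000 / 13641996)) := by
    constructor <;> norm_num
  obtain ⟨κ, hκ, hκ2⟩ := this h0
  exact ⟨κ, hκ2, hκ.1, hκ.2⟩

lemma mahler_example {κ : ℝ} (hD : 1 - κ ^ 3 - κ ^ 4 - 2 * κ ^ 5 + κ ^ 9 + κ ^ 10 = 0)
    (h1 : 10000000 / 13641996 < κ) (h2 : κ < 10000000 / 13641995) :
    (X ^ 5 - X ^ 2 + 1 : ℂ[X]).mahlerMeasure = 1 / κ := by
  have hκ0 : 0 < κ := by linarith
  have hκl : 73303 / 100000 < κ := by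
    have : (73303 / 100000 : ℝ) < 10000000 / 13641996 := by norm_num
    linarith
  have hκr : κ < 73304 / 100000 := by
    have : (10000000 / 13641995 : ℝ) < 73304 / 100000 := by norm_num
    linarith
  set s : ℝ := κ + κ ^ 3 - κ ^ 7 - κ ^ 8 with hs
  have l3 : (73303 / 100000 : ℝ) ^ 3 ≤ κ ^ 3 := pow_le_pow_left₀ (by norm_num) hκl.le _
  have r3 : κ ^ 3 ≤ (73304 / 100000 : ℝ) ^ 3 := pow_le_pow_left₀ hκ0.le hκr.le _
  have l7 : (73303 / 100000 : ℝ) ^ 7 ≤ κ ^ 7 := pow_le_pow_left₀ (by norm_num) hκl.le _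
  have r7 : κ ^ 7 ≤ (73304 / 100000 : ℝ) ^ 7 := pow_le_pow_left₀ hκ0.le hκr.le _
  have l8 : (73303 / 100000 : ℝ) ^ 8 ≤ κ ^ 8 := pow_le_pow_left₀ (by norm_num) hκl.le _
  have r8 : κ ^ 8 ≤ (73304 / 100000 : ℝ) ^ 8 := pow_le_pow_left₀ hκ0.le hκr.le _
  norm_num at l3 r3 l7 r7 l8 r8
  have hs1 : 0.9297 < s := by rw [hs]; norm_num; linarith
  have hs2 : s < 0.9299 := by rw [hs]; norm_num; linarith
  have e1 : 1 - s * κ ^ 3 - κ * s ^ 2 = 0 := by
    rw [hs]; linear_combination (1 - κ ^ 6 - κ ^ 7) * hD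
  have e2 : κ ^ 2 - s ^ 2 * κ ^ 3 - s + κ = 0 := by
    rw [hs]; linear_combination (κ ^ 2 - κ ^ 3 - κ ^ 8 - κ ^ 9) * hD
  -- the real root of the cubic
  obtain ⟨ρ, hρ0, hρ1, hρ2⟩ : ∃ ρ : ℝ, ρ ^ 3 - s * ρ ^ 2 - s * κ ^ 2 * ρ + κ = 0 ∧
      -0.81 < ρ ∧ ρ < -0.8 := by
    have hcont : ContinuousOn (fun ρ : ℝ => ρ ^ 3 - s * ρ ^ 2 - s * κ ^ 2 * ρ + κ)
        (Set.Icc (-0.81) (-0.8)) := by fun_prop
    have := intermediate_value_Ioo (by norm_num) hcont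
    have h0 : (0 : ℝ) ∈ Set.Ioo
        ((fun ρ : ℝ => ρ ^ 3 - s * ρ ^ 2 - s * κ ^ 2 * ρ + κ) (-0.81))
        ((fun ρ : ℝ => ρ ^ 3 - s * ρ ^ 2 - s * κ ^ 2 * ρ + κ) (-0.8)) := by
      have l2 : (73303 / 100000 : ℝ) ^ 2 ≤ κ ^ 2 := pow_le_pow_left₀ (by norm_num) hκl.le _
      have r2 : κ ^ 2 ≤ (73304 / 100000 : ℝ) ^ 2 := pow_le_pow_left₀ hκ0.le hκr.le _
      norm_num at l2 r2
      have q1 : s * κ ^ 2 ≤ 0.9299 * 0.5374 := by
        apply mul_le_mul hs2.le _ (by positivity) (by norm_num)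
        norm_num; linarith
      have q2 : 0.9297 * 0.5373 ≤ s * κ ^ 2 := by
        apply mul_le_mul hs1.le _ (by norm_num) (by linarith)
        norm_num; linarith
      constructor
      · norm_num at q1 q2 hs1 hs2 ⊢; nlinarith
      · norm_num at q1 q2 hs1 hs2 ⊢; nlinarith
    obtain ⟨ρ, hρ, hρ2⟩ := this h0
    exact ⟨ρ, hρ2, hρ.1, hρ.2⟩
  have hρne : ρ ≠ 0 := by intro h; rw [h] at hρ2; norm_num at hρ2
  set c2 : ℝ := -κ / ρ with hc2
  have hc2ρ : c2 * ρ = -κ := by rw [hc2]; field_simp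
  have e3 : c2 + ρ * (ρ - s) = s * κ ^ 2 + 2 * c2 := by
    have : (c2 + ρ * (ρ - s)) * ρ = (s * κ ^ 2 + 2 * c2) * ρ := by
      linear_combination hρ0 - hc2ρ
    exact mul_right_cancel₀ hρne this
  have hc2pos : 0.9 < c2 := by
    rw [hc2, neg_div, ← div_neg, lt_div_iff₀ (by linarith)]
    norm_num at hρ1 ⊢; linarith
  have hc2lt : c2 < 1 := by
    rw [hc2, neg_div, ← div_neg, div_lt_one (by linarith)]
    norm_num at hρ2 ⊢; linarith
  have hinv : 0 < 1 / κ := by positivity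
  have hκi : κ * (1 / κ) = 1 := by field_simp
  have f1 : 1 / κ = s * κ ^ 2 + s ^ 2 := by
    have : κ * (1 / κ) = κ * (s * κ ^ 2 + s ^ 2) := by
      rw [hκi]; linear_combination e1
    exact mul_left_cancel₀ hκ0.ne' this
  have f2 : κ - s ^ 2 * κ ^ 2 - s * (1 / κ) = -1 := by
    have : κ * (κ - s ^ 2 * κ ^ 2 - s * (1 / κ)) = κ * (-1) := by
      linear_combination e2 - s * hκi
    exact mul_left_cancel₀ hκ0.ne' this
  have hfac : (X ^ 5 - X ^ 2 + 1 : ℂ[X]) =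
      (X ^ 2 + C (s : ℂ) * X + C ((1 / κ : ℝ) : ℂ)) *
      ((X - C (ρ : ℂ)) * (X ^ 2 + C ((ρ - s : ℝ) : ℂ) * X + C (c2 : ℂ))) := by
    have hR : (X ^ 5 - X ^ 2 + 1 : ℝ[X]) =
      (X ^ 2 + C s * X + C (1 / κ)) *
      ((X - C ρ) * (X ^ 2 + C (ρ - s) * X + C c2)) := by
      have g3 : (X - C ρ) * (X ^ 2 + C (ρ - s) * X + C c2) =
          (X ^ 3 - C s * X ^ 2 - C (s * κ ^ 2) * X + C κ : ℝ[X]) := by
        have a1 : C (s * κ ^ 2) = (C (ρ * (ρ - s)) - C c2 : ℝ[X]) := by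
          rw [← C_sub]; congr 1; linarith
        have a2 : C κ = (- (C c2 * C ρ) : ℝ[X]) := by
          rw [← C_mul, ← C_neg]; congr 1; linarith
        rw [a1, a2]
        simp only [C_mul, C_sub]
        ring
      rw [g3]
      have b1 : (C (1 / κ) : ℝ[X]) * C κ = 1 := by
        rw [← C_mul, mul_comm, hκi, C_1]
      have b2 : (C (1 / κ) : ℝ[X]) = C s * C (κ ^ 2) + C s ^ 2 := by
        rw [← C_mul, ← C_pow, ← C_add]; congr 1
      have b3 : (C κ - C s ^ 2 * C (κ ^ 2) - C s * C (1 / κ) : ℝ[X]) = -1 := by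
        rw [← C_pow, ← C_mul, ← C_mul, ← C_sub, ← C_sub, f2, C_neg, C_1]
      have b4 : (C s * C κ - C (1 / κ) * (C s * C (κ ^ 2)) : ℝ[X]) = 0 := by
        rw [← C_mul, ← C_mul, ← C_mul, ← C_sub, C_eq_zero]
        field_simp
        ring
      simp only [C_mul]
      linear_combination (-1 : ℝ[X]) * b1 - X ^ 3 * b2 - X ^ 2 * b3 - X * b4
    have := congrArg (Polynomial.map (algebraMap ℝ ℂ)) hR
    simpa [Polynomial.map_mul, Polynomial.map_add, Polynomial.map_sub, Polynomial.map_pow] using this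
  have hlin : (X - C (ρ : ℂ)).mahlerMeasure = 1 := by
    rw [mahlerMeasure_X_sub_C, Complex.norm_real, Real.norm_eq_abs]
    apply max_eq_left
    rw [abs_le]; norm_num at hρ1 hρ2 ⊢; constructor <;> linarith
  have hd1 : s ^ 2 < 4 * (1 / κ) := by
    have : (1 : ℝ) < 1 / κ := by rw [lt_div_iff₀ hκ0]; linarith
    have : s ^ 2 < 1 := by norm_num at hs1 hs2; nlinarith
    linarith
  have hd2 : (ρ - s) ^ 2 < 4 * c2 := by
    have a1 : 0 < 7 / 4 + (ρ - s) := by norm_num at hs1 hs2 hρ1 hρ2; linarith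
    have a2 : 0 < 7 / 4 - (ρ - s) := by norm_num at hs1 hs2 hρ1 hρ2; linarith
    have a3 := mul_pos a1 a2
    norm_num at hc2pos
    have a4 : (7 / 4 + (ρ - s)) * (7 / 4 - (ρ - s)) = 49 / 16 - (ρ - s) ^ 2 := by ring
    rw [a4] at a3
    linarith
  rw [hfac, mahlerMeasure_mul, mahlerMeasure_mul, hlin, mahler_quad hd1, mahler_quad hd2,
    max_eq_left hc2lt.le, one_mul, mul_one, max_eq_right]
  rw [le_div_iff₀ hκ0]; linarith

end Pool.Agent.H3Mahler
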