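import Pool.Agent.H3Mahler.Schur

set_option autoImplicit false
set_option linter.unnecessarySeqFocus false

namespace Pool.Agent.H3Mahler

open Finset

lemma IsSchur.inst2 {F : ℕ → ℝ} (hF : IsSchur F) (x0 x1 : ℕ) (h0 : x0 < x1)
    (w0 w1 u0 u1 : ℝ) :
    w0 * u0 * F 0 + w1 * u0 * F (x1 - x0) + w1 * u1 * F 0
      ≤ (w0 ^ 2 + w1 ^ 2 + (u0 ^ 2 + u1 ^ 2)) / 2 := by
  have hx : StrictMono (![x0, x1] : Fin 2 → ℕ) := by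
    rw [Fin.strictMono_iff_lt_succ]
    intro i
    fin_cases i <;> assumption
  have := hF.inst _ hx ![w0, w1] ![u0, u1]
  simp only [Fin.sum_univ_two] at this
  simp [-Fin.isValue] at this
  linarith

lemma IsSchur.sinst2 {F : ℕ → ℝ} (hF : IsSchur F) (x0 x1 : ℕ) (h0 : x0 < x1)
    (s0 s1 : ℝ) (hs0 : s0 ^ 2 = 1) (hs1 : s1 ^ 2 = 1)
    (c f10 : ℝ) (h00 : F 0 = c)
    (e10 : s1 * s0 * F (x1 - x0) = f10)
    (w0 w1 u0 u1 : ℝ) :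
    w0 * u0 * c + w1 * u0 * f10 + w1 * u1 * c
      ≤ (w0 ^ 2 + w1 ^ 2 + (u0 ^ 2 + u1 ^ 2)) / 2 := by
  have key := hF.inst2 x0 x1 h0 (s0 * w0) (s1 * w1) (s0 * u0) (s1 * u1)
  have q0 : (s0 * w0) ^ 2 = w0 ^ 2 := by rw [mul_pow, hs0, one_mul]
  have p0 : (s0 * u0) ^ 2 = u0 ^ 2 := by rw [mul_pow, hs0, one_mul]
  have d0 : s0 * w0 * (s0 * u0) = w0 * u0 := by linear_combination (w0 * u0) * hs0
  have q1 : (s1 * w1) ^ 2 = w1 ^ 2 := by rw [mul_pow, hs1, one_mul]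
  have p1 : (s1 * u1) ^ 2 = u1 ^ 2 := by rw [mul_pow, hs1, one_mul]
  have d1 : s1 * w1 * (s1 * u1) = w1 * u1 := by linear_combination (w1 * u1) * hs1
  have m10 : s1 * w1 * (s0 * u0) * F (x1 - x0) = w1 * u0 * f10 := by rw [← e10]; ring
  rw [q0, p0, d0, q1, p1, d1, m10, h00] at key
  exact key

lemma IsSchur.inst3 {F : ℕ → ℝ} (hF : IsSchur F) (x0 x1 x2 : ℕ) (h0 : x0 < x1) (h1 : x1 < x2)
    (w0 w1 w2 u0 u1 u2 : ℝ) :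
    w0 * u0 * F 0 + w1 * u0 * F (x1 - x0) + w1 * u1 * F 0 + w2 * u0 * F (x2 - x0) + w2 * u1 * F (x2 - x1) + w2 * u2 * F 0
      ≤ (w0 ^ 2 + w1 ^ 2 + w2 ^ 2 + (u0 ^ 2 + u1 ^ 2 + u2 ^ 2)) / 2 := by
  have hx : StrictMono (![x0, x1, x2] : Fin 3 → ℕ) := by
    rw [Fin.strictMono_iff_lt_succ]
    intro i
    fin_cases i <;> assumption
  have := hF.inst _ hx ![w0, w1, w2] ![u0, u1, u2]
  simp only [Fin.sum_univ_three] at this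
  simp [-Fin.isValue] at this
  linarith

lemma IsSchur.sinst3 {F : ℕ → ℝ} (hF : IsSchur F) (x0 x1 x2 : ℕ) (h0 : x0 < x1) (h1 : x1 < x2)
    (s0 s1 s2 : ℝ) (hs0 : s0 ^ 2 = 1) (hs1 : s1 ^ 2 = 1) (hs2 : s2 ^ 2 = 1)
    (c f10 f20 f21 : ℝ) (h00 : F 0 = c)
    (e10 : s1 * s0 * F (x1 - x0) = f10) (e20 : s2 * s0 * F (x2 - x0) = f20) (e21 : s2 * s1 * F (x2 - x1) = f21)
    (w0 w1 w2 u0 u1 u2 : ℝ) :
    w0 * u0 * c + w1 * u0 * f10 + w1 * u1 * c + w2 * u0 * f20 + w2 * u1 * f21 + w2 * u2 * c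
      ≤ (w0 ^ 2 + w1 ^ 2 + w2 ^ 2 + (u0 ^ 2 + u1 ^ 2 + u2 ^ 2)) / 2 := by
  have key := hF.inst3 x0 x1 x2 h0 h1 (s0 * w0) (s1 * w1) (s2 * w2) (s0 * u0) (s1 * u1) (s2 * u2)
  have q0 : (s0 * w0) ^ 2 = w0 ^ 2 := by rw [mul_pow, hs0, one_mul]
  have p0 : (s0 * u0) ^ 2 = u0 ^ 2 := by rw [mul_pow, hs0, one_mul]
  have d0 : s0 * w0 * (s0 * u0) = w0 * u0 := by linear_combination (w0 * u0) * hs0
  have q1 : (s1 * w1) ^ 2 = w1 ^ 2 := by rw [mul_pow, hs1, one_mul]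
  have p1 : (s1 * u1) ^ 2 = u1 ^ 2 := by rw [mul_pow, hs1, one_mul]
  have d1 : s1 * w1 * (s1 * u1) = w1 * u1 := by linear_combination (w1 * u1) * hs1
  have q2 : (s2 * w2) ^ 2 = w2 ^ 2 := by rw [mul_pow, hs2, one_mul]
  have p2 : (s2 * u2) ^ 2 = u2 ^ 2 := by rw [mul_pow, hs2, one_mul]
  have d2 : s2 * w2 * (s2 * u2) = w2 * u2 := by linear_combination (w2 * u2) * hs2
  have m10 : s1 * w1 * (s0 * u0) * F (x1 - x0) = w1 * u0 * f10 := by rw [← e10]; ring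
  have m20 : s2 * w2 * (s0 * u0) * F (x2 - x0) = w2 * u0 * f20 := by rw [← e20]; ring
  have m21 : s2 * w2 * (s1 * u1) * F (x2 - x1) = w2 * u1 * f21 := by rw [← e21]; ring
  rw [q0, p0, d0, q1, p1, d1, q2, p2, d2, m10, m20, m21, h00] at key
  exact key

lemma IsSchur.inst5 {F : ℕ → ℝ} (hF : IsSchur F) (x0 x1 x2 x3 x4 : ℕ) (h0 : x0 < x1) (h1 : x1 < x2) (h2 : x2 < x3) (h3 : x3 < x4)
    (w0 w1 w2 w3 w4 u0 u1 u2 u3 u4 : ℝ) :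
    w0 * u0 * F 0 + w1 * u0 * F (x1 - x0) + w1 * u1 * F 0 + w2 * u0 * F (x2 - x0) + w2 * u1 * F (x2 - x1) + w2 * u2 * F 0 + w3 * u0 * F (x3 - x0) + w3 * u1 * F (x3 - x1) + w3 * u2 * F (x3 - x2) + w3 * u3 * F 0 + w4 * u0 * F (x4 - x0) + w4 * u1 * F (x4 - x1) + w4 * u2 * F (x4 - x2) + w4 * u3 * F (x4 - x3) + w4 * u4 * F 0
      ≤ (w0 ^ 2 + w1 ^ 2 + w2 ^ 2 + w3 ^ 2 + w4 ^ 2 + (u0 ^ 2 + u1 ^ 2 + u2 ^ 2 + u3 ^ 2 + u4 ^ 2)) / 2 := by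
  have hx : StrictMono (![x0, x1, x2, x3, x4] : Fin 5 → ℕ) := by
    rw [Fin.strictMono_iff_lt_succ]
    intro i
    fin_cases i <;> assumption
  have := hF.inst _ hx ![w0, w1, w2, w3, w4] ![u0, u1, u2, u3, u4]
  simp only [Fin.sum_univ_five] at this
  simp [-Fin.isValue] at this
  linarith

lemma IsSchur.sinst5 {F : ℕ → ℝ} (hF : IsSchur F) (x0 x1 x2 x3 x4 : ℕ) (h0 : x0 < x1) (h1 : x1 < x2) (h2 : x2 < x3) (h3 : x3 < x4)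
    (s0 s1 s2 s3 s4 : ℝ) (hs0 : s0 ^ 2 = 1) (hs1 : s1 ^ 2 = 1) (hs2 : s2 ^ 2 = 1) (hs3 : s3 ^ 2 = 1) (hs4 : s4 ^ 2 = 1)
    (c f10 f20 f21 f30 f31 f32 f40 f41 f42 f43 : ℝ) (h00 : F 0 = c)
    (e10 : s1 * s0 * F (x1 - x0) = f10) (e20 : s2 * s0 * F (x2 - x0) = f20) (e21 : s2 * s1 * F (x2 - x1) = f21) (e30 : s3 * s0 * F (x3 - x0) = f30) (e31 : s3 * s1 * F (x3 - x1) = f31) (e32 : s3 * s2 * F (x3 - x2) = f32) (e40 : s4 * s0 * F (x4 - x0) = f40) (e41 : s4 * s1 * F (x4 - x1) = f41) (e42 : s4 * s2 * F (x4 - x2) = f42) (e43 : s4 * s3 * F (x4 - x3) = f43)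
    (w0 w1 w2 w3 w4 u0 u1 u2 u3 u4 : ℝ) :
    w0 * u0 * c + w1 * u0 * f10 + w1 * u1 * c + w2 * u0 * f20 + w2 * u1 * f21 + w2 * u2 * c + w3 * u0 * f30 + w3 * u1 * f31 + w3 * u2 * f32 + w3 * u3 * c + w4 * u0 * f40 + w4 * u1 * f41 + w4 * u2 * f42 + w4 * u3 * f43 + w4 * u4 * c
      ≤ (w0 ^ 2 + w1 ^ 2 + w2 ^ 2 + w3 ^ 2 + w4 ^ 2 + (u0 ^ 2 + u1 ^ 2 + u2 ^ 2 + u3 ^ 2 + u4 ^ 2)) / 2 := by
  have key := hF.inst5 x0 x1 x2 x3 x4 h0 h1 h2 h3 (s0 * w0) (s1 * w1) (s2 * w2) (s3 * w3) (s4 * w4) (s0 * u0) (s1 * u1) (s2 * u2) (s3 * u3) (s4 * u4)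
  have q0 : (s0 * w0) ^ 2 = w0 ^ 2 := by rw [mul_pow, hs0, one_mul]
  have p0 : (s0 * u0) ^ 2 = u0 ^ 2 := by rw [mul_pow, hs0, one_mul]
  have d0 : s0 * w0 * (s0 * u0) = w0 * u0 := by linear_combination (w0 * u0) * hs0
  have q1 : (s1 * w1) ^ 2 = w1 ^ 2 := by rw [mul_pow, hs1, one_mul]
  have p1 : (s1 * u1) ^ 2 = u1 ^ 2 := by rw [mul_pow, hs1, one_mul]
  have d1 : s1 * w1 * (s1 * u1) = w1 * u1 := by linear_combination (w1 * u1) * hs1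
  have q2 : (s2 * w2) ^ 2 = w2 ^ 2 := by rw [mul_pow, hs2, one_mul]
  have p2 : (s2 * u2) ^ 2 = u2 ^ 2 := by rw [mul_pow, hs2, one_mul]
  have d2 : s2 * w2 * (s2 * u2) = w2 * u2 := by linear_combination (w2 * u2) * hs2
  have q3 : (s3 * w3) ^ 2 = w3 ^ 2 := by rw [mul_pow, hs3, one_mul]
  have p3 : (s3 * u3) ^ 2 = u3 ^ 2 := by rw [mul_pow, hs3, one_mul]
  have d3 : s3 * w3 * (s3 * u3) = w3 * u3 := by linear_combination (w3 * u3) * hs3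
  have q4 : (s4 * w4) ^ 2 = w4 ^ 2 := by rw [mul_pow, hs4, one_mul]
  have p4 : (s4 * u4) ^ 2 = u4 ^ 2 := by rw [mul_pow, hs4, one_mul]
  have d4 : s4 * w4 * (s4 * u4) = w4 * u4 := by linear_combination (w4 * u4) * hs4
  have m10 : s1 * w1 * (s0 * u0) * F (x1 - x0) = w1 * u0 * f10 := by rw [← e10]; ring
  have m20 : s2 * w2 * (s0 * u0) * F (x2 - x0) = w2 * u0 * f20 := by rw [← e20]; ring
  have m21 : s2 * w2 * (s1 * u1) * F (x2 - x1) = w2 * u1 * f21 := by rw [← e21]; ring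
  have m30 : s3 * w3 * (s0 * u0) * F (x3 - x0) = w3 * u0 * f30 := by rw [← e30]; ring
  have m31 : s3 * w3 * (s1 * u1) * F (x3 - x1) = w3 * u1 * f31 := by rw [← e31]; ring
  have m32 : s3 * w3 * (s2 * u2) * F (x3 - x2) = w3 * u2 * f32 := by rw [← e32]; ring
  have m40 : s4 * w4 * (s0 * u0) * F (x4 - x0) = w4 * u0 * f40 := by rw [← e40]; ring
  have m41 : s4 * w4 * (s1 * u1) * F (x4 - x1) = w4 * u1 * f41 := by rw [← e41]; ring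
  have m42 : s4 * w4 * (s2 * u2) * F (x4 - x2) = w4 * u2 * f42 := by rw [← e42]; ring
  have m43 : s4 * w4 * (s3 * u3) * F (x4 - x3) = w4 * u3 * f43 := by rw [← e43]; ring
  rw [q0, p0, d0, q1, p1, d1, q2, p2, d2, q3, p3, d3, q4, p4, d4, m10, m20, m21, m30, m31, m32, m40, m41, m42, m43, h00] at key
  exact key

lemma IsSchur.inst6 {F : ℕ → ℝ} (hF : IsSchur F) (x0 x1 x2 x3 x4 x5 : ℕ) (h0 : x0 < x1) (h1 : x1 < x2) (h2 : x2 < x3) (h3 : x3 < x4) (h4 : x4 < x5)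
    (w0 w1 w2 w3 w4 w5 u0 u1 u2 u3 u4 u5 : ℝ) :
    w0 * u0 * F 0 + w1 * u0 * F (x1 - x0) + w1 * u1 * F 0 + w2 * u0 * F (x2 - x0) + w2 * u1 * F (x2 - x1) + w2 * u2 * F 0 + w3 * u0 * F (x3 - x0) + w3 * u1 * F (x3 - x1) + w3 * u2 * F (x3 - x2) + w3 * u3 * F 0 + w4 * u0 * F (x4 - x0) + w4 * u1 * F (x4 - x1) + w4 * u2 * F (x4 - x2) + w4 * u3 * F (x4 - x3) + w4 * u4 * F 0 + w5 * u0 * F (x5 - x0) + w5 * u1 * F (x5 - x1) + w5 * u2 * F (x5 - x2) + w5 * u3 * F (x5 - x3) + w5 * u4 * F (x5 - x4) + w5 * u5 * F 0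
      ≤ (w0 ^ 2 + w1 ^ 2 + w2 ^ 2 + w3 ^ 2 + w4 ^ 2 + w5 ^ 2 + (u0 ^ 2 + u1 ^ 2 + u2 ^ 2 + u3 ^ 2 + u4 ^ 2 + u5 ^ 2)) / 2 := by
  have hx : StrictMono (![x0, x1, x2, x3, x4, x5] : Fin 6 → ℕ) := by
    rw [Fin.strictMono_iff_lt_succ]
    intro i
    fin_cases i <;> assumption
  have := hF.inst _ hx ![w0, w1, w2, w3, w4, w5] ![u0, u1, u2, u3, u4, u5]
  simp only [Fin.sum_univ_six] at this
  simp [-Fin.isValue] at this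
  linarith

lemma IsSchur.sinst6 {F : ℕ → ℝ} (hF : IsSchur F) (x0 x1 x2 x3 x4 x5 : ℕ) (h0 : x0 < x1) (h1 : x1 < x2) (h2 : x2 < x3) (h3 : x3 < x4) (h4 : x4 < x5)
    (s0 s1 s2 s3 s4 s5 : ℝ) (hs0 : s0 ^ 2 = 1) (hs1 : s1 ^ 2 = 1) (hs2 : s2 ^ 2 = 1) (hs3 : s3 ^ 2 = 1) (hs4 : s4 ^ 2 = 1) (hs5 : s5 ^ 2 = 1)
    (c f10 f20 f21 f30 f31 f32 f40 f41 f42 f43 f50 f51 f52 f53 f54 : ℝ) (h00 : F 0 = c)
    (e10 : s1 * s0 * F (x1 - x0) = f10) (e20 : s2 * s0 * F (x2 - x0) = f20) (e21 : s2 * s1 * F (x2 - x1) = f21) (e30 : s3 * s0 * F (x3 - x0) = f30) (e31 : s3 * s1 * F (x3 - x1) = f31) (e32 : s3 * s2 * F (x3 - x2) = f32) (e40 : s4 * s0 * F (x4 - x0) = f40) (e41 : s4 * s1 * F (x4 - x1) = f41) (e42 : s4 * s2 * F (x4 - x2) = f42) (e43 : s4 * s3 * F (x4 - x3) = f43) (e50 : s5 * s0 * F (x5 - x0) = f50) (e51 : s5 * s1 * F (x5 - x1) = f51)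 (e52 : s5 * s2 * F (x5 - x2) = f52) (e53 : s5 * s3 * F (x5 - x3) = f53) (e54 : s5 * s4 * F (x5 - x4) = f54)
    (w0 w1 w2 w3 w4 w5 u0 u1 u2 u3 u4 u5 : ℝ) :
    w0 * u0 * c + w1 * u0 * f10 + w1 * u1 * c + w2 * u0 * f20 + w2 * u1 * f21 + w2 * u2 * c + w3 * u0 * f30 + w3 * u1 * f31 + w3 * u2 * f32 + w3 * u3 * c + w4 * u0 * f40 + w4 * u1 * f41 + w4 * u2 * f42 + w4 * u3 * f43 + w4 * u4 * c + w5 * u0 * f50 + w5 * u1 * f51 + w5 * u2 * f52 + w5 * u3 * f53 + w5 * u4 * f54 + w5 * u5 * c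
      ≤ (w0 ^ 2 + w1 ^ 2 + w2 ^ 2 + w3 ^ 2 + w4 ^ 2 + w5 ^ 2 + (u0 ^ 2 + u1 ^ 2 + u2 ^ 2 + u3 ^ 2 + u4 ^ 2 + u5 ^ 2)) / 2 := by
  have key := hF.inst6 x0 x1 x2 x3 x4 x5 h0 h1 h2 h3 h4 (s0 * w0) (s1 * w1) (s2 * w2) (s3 * w3) (s4 * w4) (s5 * w5) (s0 * u0) (s1 * u1) (s2 * u2) (s3 * u3) (s4 * u4) (s5 * u5)
  have q0 : (s0 * w0) ^ 2 = w0 ^ 2 := by rw [mul_pow, hs0, one_mul]
  have p0 : (s0 * u0) ^ 2 = u0 ^ 2 := by rw [mul_pow, hs0, one_mul]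
  have d0 : s0 * w0 * (s0 * u0) = w0 * u0 := by linear_combination (w0 * u0) * hs0
  have q1 : (s1 * w1) ^ 2 = w1 ^ 2 := by rw [mul_pow, hs1, one_mul]
  have p1 : (s1 * u1) ^ 2 = u1 ^ 2 := by rw [mul_pow, hs1, one_mul]
  have d1 : s1 * w1 * (s1 * u1) = w1 * u1 := by linear_combination (w1 * u1) * hs1
  have q2 : (s2 * w2) ^ 2 = w2 ^ 2 := by rw [mul_pow, hs2, one_mul]
  have p2 : (s2 * u2) ^ 2 = u2 ^ 2 := by rw [mul_pow, hs2, one_mul]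
  have d2 : s2 * w2 * (s2 * u2) = w2 * u2 := by linear_combination (w2 * u2) * hs2
  have q3 : (s3 * w3) ^ 2 = w3 ^ 2 := by rw [mul_pow, hs3, one_mul]
  have p3 : (s3 * u3) ^ 2 = u3 ^ 2 := by rw [mul_pow, hs3, one_mul]
  have d3 : s3 * w3 * (s3 * u3) = w3 * u3 := by linear_combination (w3 * u3) * hs3
  have q4 : (s4 * w4) ^ 2 = w4 ^ 2 := by rw [mul_pow, hs4, one_mul]
  have p4 : (s4 * u4) ^ 2 = u4 ^ 2 := by rw [mul_pow, hs4, one_mul]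
  have d4 : s4 * w4 * (s4 * u4) = w4 * u4 := by linear_combination (w4 * u4) * hs4
  have q5 : (s5 * w5) ^ 2 = w5 ^ 2 := by rw [mul_pow, hs5, one_mul]
  have p5 : (s5 * u5) ^ 2 = u5 ^ 2 := by rw [mul_pow, hs5, one_mul]
  have d5 : s5 * w5 * (s5 * u5) = w5 * u5 := by linear_combination (w5 * u5) * hs5
  have m10 : s1 * w1 * (s0 * u0) * F (x1 - x0) = w1 * u0 * f10 := by rw [← e10]; ring
  have m20 : s2 * w2 * (s0 * u0) * F (x2 - x0) = w2 * u0 * f20 := by rw [← e20]; ring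
  have m21 : s2 * w2 * (s1 * u1) * F (x2 - x1) = w2 * u1 * f21 := by rw [← e21]; ring
  have m30 : s3 * w3 * (s0 * u0) * F (x3 - x0) = w3 * u0 * f30 := by rw [← e30]; ring
  have m31 : s3 * w3 * (s1 * u1) * F (x3 - x1) = w3 * u1 * f31 := by rw [← e31]; ring
  have m32 : s3 * w3 * (s2 * u2) * F (x3 - x2) = w3 * u2 * f32 := by rw [← e32]; ring
  have m40 : s4 * w4 * (s0 * u0) * F (x4 - x0) = w4 * u0 * f40 := by rw [← e40]; ring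
  have m41 : s4 * w4 * (s1 * u1) * F (x4 - x1) = w4 * u1 * f41 := by rw [← e41]; ring
  have m42 : s4 * w4 * (s2 * u2) * F (x4 - x2) = w4 * u2 * f42 := by rw [← e42]; ring
  have m43 : s4 * w4 * (s3 * u3) * F (x4 - x3) = w4 * u3 * f43 := by rw [← e43]; ring
  have m50 : s5 * w5 * (s0 * u0) * F (x5 - x0) = w5 * u0 * f50 := by rw [← e50]; ring
  have m51 : s5 * w5 * (s1 * u1) * F (x5 - x1) = w5 * u1 * f51 := by rw [← e51]; ring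
  have m52 : s5 * w5 * (s2 * u2) * F (x5 - x2) = w5 * u2 * f52 := by rw [← e52]; ring
  have m53 : s5 * w5 * (s3 * u3) * F (x5 - x3) = w5 * u3 * f53 := by rw [← e53]; ring
  have m54 : s5 * w5 * (s4 * u4) * F (x5 - x4) = w5 * u4 * f54 := by rw [← e54]; ring
  rw [q0, p0, d0, q1, p1, d1, q2, p2, d2, q3, p3, d3, q4, p4, d4, q5, p5, d5, m10, m20, m21, m30, m31, m32, m40, m41, m42, m43, m50, m51, m52, m53, m54, h00] at key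
  exact key

lemma IsSchur.inst7 {F : ℕ → ℝ} (hF : IsSchur F) (x0 x1 x2 x3 x4 x5 x6 : ℕ) (h0 : x0 < x1) (h1 : x1 < x2) (h2 : x2 < x3) (h3 : x3 < x4) (h4 : x4 < x5) (h5 : x5 < x6)
    (w0 w1 w2 w3 w4 w5 w6 u0 u1 u2 u3 u4 u5 u6 : ℝ) :
    w0 * u0 * F 0 + w1 * u0 * F (x1 - x0) + w1 * u1 * F 0 + w2 * u0 * F (x2 - x0) + w2 * u1 * F (x2 - x1) + w2 * u2 * F 0 + w3 * u0 * F (x3 - x0) + w3 * u1 * F (x3 - x1) + w3 * u2 * F (x3 - x2) + w3 * u3 * F 0 + w4 * u0 * F (x4 - x0) + w4 * u1 * F (x4 - x1) + w4 * u2 * F (x4 - x2) + w4 * u3 * F (x4 - x3) + w4 * u4 * F 0 + w5 * u0 * F (x5 - x0) + w5 * u1 * F (x5 - x1) + w5 * u2 * F (x5 - x2) + w5 * u3 * F (x5 - x3) + w5 * u4 * F (x5 - x4) + w5 * u5 * F 0 + w6 * u0 * F (x6 - x0) + w6 * u1 * F (x6 - x1) + w6 * u2 * F (x6 - x2) + w6 * u3 * F (x6 - x3) + w6 * u4 * F (x6 - x4) + w6 * u5 * F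 (x6 - x5) + w6 * u6 * F 0
      ≤ (w0 ^ 2 + w1 ^ 2 + w2 ^ 2 + w3 ^ 2 + w4 ^ 2 + w5 ^ 2 + w6 ^ 2 + (u0 ^ 2 + u1 ^ 2 + u2 ^ 2 + u3 ^ 2 + u4 ^ 2 + u5 ^ 2 + u6 ^ 2)) / 2 := by
  have hx : StrictMono (![x0, x1, x2, x3, x4, x5, x6] : Fin 7 → ℕ) := by
    rw [Fin.strictMono_iff_lt_succ]
    intro i
    fin_cases i <;> assumption
  have := hF.inst _ hx ![w0, w1, w2, w3, w4, w5, w6] ![u0, u1, u2, u3, u4, u5, u6]
  simp only [Fin.sum_univ_seven] at this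
  simp [-Fin.isValue] at this
  linarith

lemma IsSchur.sinst7 {F : ℕ → ℝ} (hF : IsSchur F) (x0 x1 x2 x3 x4 x5 x6 : ℕ) (h0 : x0 < x1) (h1 : x1 < x2) (h2 : x2 < x3) (h3 : x3 < x4) (h4 : x4 < x5) (h5 : x5 < x6)
    (s0 s1 s2 s3 s4 s5 s6 : ℝ) (hs0 : s0 ^ 2 = 1) (hs1 : s1 ^ 2 = 1) (hs2 : s2 ^ 2 = 1) (hs3 : s3 ^ 2 = 1) (hs4 : s4 ^ 2 = 1) (hs5 : s5 ^ 2 = 1) (hs6 : s6 ^ 2 = 1)
    (c f10 f20 f21 f30 f31 f32 f40 f41 f42 f43 f50 f51 f52 f53 f54 f60 f61 f62 f63 f64 f65 : ℝ) (h00 : F 0 = c)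
    (e10 : s1 * s0 * F (x1 - x0) = f10) (e20 : s2 * s0 * F (x2 - x0) = f20) (e21 : s2 * s1 * F (x2 - x1) = f21) (e30 : s3 * s0 * F (x3 - x0) = f30) (e31 : s3 * s1 * F (x3 - x1) = f31) (e32 : s3 * s2 * F (x3 - x2) = f32) (e40 : s4 * s0 * F (x4 - x0) = f40) (e41 : s4 * s1 * F (x4 - x1) = f41) (e42 : s4 * s2 * F (x4 - x2) = f42) (e43 : s4 * s3 * F (x4 - x3) = f43) (e50 : s5 * s0 * F (x5 - x0) = f50) (e51 : s5 * s1 * F (x5 - x1) = f51) (e52 : s5 * s2 * F (x5 - x2) = f52) (e53 : s5 * s3 * F (x5 - x3) = f53) (e54 : s5 * s4 * F (x5 - x4) = f54) (e60 : s6 * s0 * F (x6 - x0) = f60) (e61 : s6 * s1 * F (x6 - x1) = f61) (e62 : s6 * s2 * F (x6 - x2) = f62) (e63 : s6 * s3 * F (x6 - x3) = f63) (e64 : s6 * s4 * F (x6 - x4) = f64) (e65 : s6 * s5 * F (x6 - x5) = f65)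
    (w0 w1 w2 w3 w4 w5 w6 u0 u1 u2 u3 u4 u5 u6 : ℝ) :
    w0 * u0 * c + w1 * u0 * f10 + w1 * u1 * c + w2 * u0 * f20 + w2 * u1 * f21 + w2 * u2 * c + w3 * u0 * f30 + w3 * u1 * f31 + w3 * u2 * f32 + w3 * u3 * c + w4 * u0 * f40 + w4 * u1 * f41 + w4 * u2 * f42 + w4 * u3 * f43 + w4 * u4 * c + w5 * u0 * f50 + w5 * u1 * f51 + w5 * u2 * f52 + w5 * u3 * f53 + w5 * u4 * f54 + w5 * u5 * c + w6 * u0 * f60 + w6 * u1 * f61 + w6 * u2 * f62 + w6 * u3 * f63 + w6 * u4 * f64 + w6 * u5 * f65 + w6 * u6 * c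
      ≤ (w0 ^ 2 + w1 ^ 2 + w2 ^ 2 + w3 ^ 2 + w4 ^ 2 + w5 ^ 2 + w6 ^ 2 + (u0 ^ 2 + u1 ^ 2 + u2 ^ 2 + u3 ^ 2 + u4 ^ 2 + u5 ^ 2 + u6 ^ 2)) / 2 := by
  have key := hF.inst7 x0 x1 x2 x3 x4 x5 x6 h0 h1 h2 h3 h4 h5 (s0 * w0) (s1 * w1) (s2 * w2) (s3 * w3) (s4 * w4) (s5 * w5) (s6 * w6) (s0 * u0) (s1 * u1) (s2 * u2) (s3 * u3) (s4 * u4) (s5 * u5) (s6 * u6)
  have q0 : (s0 * w0) ^ 2 = w0 ^ 2 := by rw [mul_pow, hs0, one_mul]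
  have p0 : (s0 * u0) ^ 2 = u0 ^ 2 := by rw [mul_pow, hs0, one_mul]
  have d0 : s0 * w0 * (s0 * u0) = w0 * u0 := by linear_combination (w0 * u0) * hs0
  have q1 : (s1 * w1) ^ 2 = w1 ^ 2 := by rw [mul_pow, hs1, one_mul]
  have p1 : (s1 * u1) ^ 2 = u1 ^ 2 := by rw [mul_pow, hs1, one_mul]
  have d1 : s1 * w1 * (s1 * u1) = w1 * u1 := by linear_combination (w1 * u1) * hs1
  have q2 : (s2 * w2) ^ 2 = w2 ^ 2 := by rw [mul_pow, hs2, one_mul]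
  have p2 : (s2 * u2) ^ 2 = u2 ^ 2 := by rw [mul_pow, hs2, one_mul]
  have d2 : s2 * w2 * (s2 * u2) = w2 * u2 := by linear_combination (w2 * u2) * hs2
  have q3 : (s3 * w3) ^ 2 = w3 ^ 2 := by rw [mul_pow, hs3, one_mul]
  have p3 : (s3 * u3) ^ 2 = u3 ^ 2 := by rw [mul_pow, hs3, one_mul]
  have d3 : s3 * w3 * (s3 * u3) = w3 * u3 := by linear_combination (w3 * u3) * hs3
  have q4 : (s4 * w4) ^ 2 = w4 ^ 2 := by rw [mul_pow, hs4, one_mul]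
  have p4 : (s4 * u4) ^ 2 = u4 ^ 2 := by rw [mul_pow, hs4, one_mul]
  have d4 : s4 * w4 * (s4 * u4) = w4 * u4 := by linear_combination (w4 * u4) * hs4
  have q5 : (s5 * w5) ^ 2 = w5 ^ 2 := by rw [mul_pow, hs5, one_mul]
  have p5 : (s5 * u5) ^ 2 = u5 ^ 2 := by rw [mul_pow, hs5, one_mul]
  have d5 : s5 * w5 * (s5 * u5) = w5 * u5 := by linear_combination (w5 * u5) * hs5
  have q6 : (s6 * w6) ^ 2 = w6 ^ 2 := by rw [mul_pow, hs6, one_mul]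
  have p6 : (s6 * u6) ^ 2 = u6 ^ 2 := by rw [mul_pow, hs6, one_mul]
  have d6 : s6 * w6 * (s6 * u6) = w6 * u6 := by linear_combination (w6 * u6) * hs6
  have m10 : s1 * w1 * (s0 * u0) * F (x1 - x0) = w1 * u0 * f10 := by rw [← e10]; ring
  have m20 : s2 * w2 * (s0 * u0) * F (x2 - x0) = w2 * u0 * f20 := by rw [← e20]; ring
  have m21 : s2 * w2 * (s1 * u1) * F (x2 - x1) = w2 * u1 * f21 := by rw [← e21]; ring
  have m30 : s3 * w3 * (s0 * u0) * F (x3 - x0) = w3 * u0 * f30 := by rw [← e30]; ring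
  have m31 : s3 * w3 * (s1 * u1) * F (x3 - x1) = w3 * u1 * f31 := by rw [← e31]; ring
  have m32 : s3 * w3 * (s2 * u2) * F (x3 - x2) = w3 * u2 * f32 := by rw [← e32]; ring
  have m40 : s4 * w4 * (s0 * u0) * F (x4 - x0) = w4 * u0 * f40 := by rw [← e40]; ring
  have m41 : s4 * w4 * (s1 * u1) * F (x4 - x1) = w4 * u1 * f41 := by rw [← e41]; ring
  have m42 : s4 * w4 * (s2 * u2) * F (x4 - x2) = w4 * u2 * f42 := by rw [← e42]; ring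
  have m43 : s4 * w4 * (s3 * u3) * F (x4 - x3) = w4 * u3 * f43 := by rw [← e43]; ring
  have m50 : s5 * w5 * (s0 * u0) * F (x5 - x0) = w5 * u0 * f50 := by rw [← e50]; ring
  have m51 : s5 * w5 * (s1 * u1) * F (x5 - x1) = w5 * u1 * f51 := by rw [← e51]; ring
  have m52 : s5 * w5 * (s2 * u2) * F (x5 - x2) = w5 * u2 * f52 := by rw [← e52]; ring
  have m53 : s5 * w5 * (s3 * u3) * F (x5 - x3) = w5 * u3 * f53 := by rw [← e53]; ring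
  have m54 : s5 * w5 * (s4 * u4) * F (x5 - x4) = w5 * u4 * f54 := by rw [← e54]; ring
  have m60 : s6 * w6 * (s0 * u0) * F (x6 - x0) = w6 * u0 * f60 := by rw [← e60]; ring
  have m61 : s6 * w6 * (s1 * u1) * F (x6 - x1) = w6 * u1 * f61 := by rw [← e61]; ring
  have m62 : s6 * w6 * (s2 * u2) * F (x6 - x2) = w6 * u2 * f62 := by rw [← e62]; ring
  have m63 : s6 * w6 * (s3 * u3) * F (x6 - x3) = w6 * u3 * f63 := by rw [← e63]; ring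
  have m64 : s6 * w6 * (s4 * u4) * F (x6 - x4) = w6 * u4 * f64 := by rw [← e64]; ring
  have m65 : s6 * w6 * (s5 * u5) * F (x6 - x5) = w6 * u5 * f65 := by rw [← e65]; ring
  rw [q0, p0, d0, q1, p1, d1, q2, p2, d2, q3, p3, d3, q4, p4, d4, q5, p5, d5, q6, p6, d6, m10, m20, m21, m30, m31, m32, m40, m41, m42, m43, m50, m51, m52, m53, m54, m60, m61, m62, m63, m64, m65, h00] at key
  exact key

lemma IsSchur.inst8 {F : ℕ → ℝ} (hF : IsSchur F) (x0 x1 x2 x3 x4 x5 x6 x7 : ℕ) (h0 : x0 < x1) (h1 : x1 < x2) (h2 : x2 < x3) (h3 : x3 < x4) (h4 : x4 < x5) (h5 : x5 < x6) (h6 : x6 < x7)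
    (w0 w1 w2 w3 w4 w5 w6 w7 u0 u1 u2 u3 u4 u5 u6 u7 : ℝ) :
    w0 * u0 * F 0 + w1 * u0 * F (x1 - x0) + w1 * u1 * F 0 + w2 * u0 * F (x2 - x0) + w2 * u1 * F (x2 - x1) + w2 * u2 * F 0 + w3 * u0 * F (x3 - x0) + w3 * u1 * F (x3 - x1) + w3 * u2 * F (x3 - x2) + w3 * u3 * F 0 + w4 * u0 * F (x4 - x0) + w4 * u1 * F (x4 - x1) + w4 * u2 * F (x4 - x2) + w4 * u3 * F (x4 - x3) + w4 * u4 * F 0 + w5 * u0 * F (x5 - x0) + w5 * u1 * F (x5 - x1) + w5 * u2 * F (x5 - x2) + w5 * u3 * F (x5 - x3) + w5 * u4 * F (x5 - x4) + w5 * u5 * F 0 + w6 * u0 * F (x6 - x0) + w6 * u1 * F (x6 - x1) + w6 * u2 * F (x6 - x2) + w6 * u3 * F (x6 - x3) + w6 * u4 * F (x6 - x4) + w6 * u5 * F (x6 - x5) + w6 * u6 * F 0 + w7 * u0 * F (x7 - x0) + w7 * u1 * F (x7 - x1) + w7 * u2 * F (x7 - x2) + w7 * u3 * F (x7 - x3) + w7 * u4 * F (x7 - x4) + w7 * u5 * F (x7 - x5) +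 w7 * u6 * F (x7 - x6) + w7 * u7 * F 0
      ≤ (w0 ^ 2 + w1 ^ 2 + w2 ^ 2 + w3 ^ 2 + w4 ^ 2 + w5 ^ 2 + w6 ^ 2 + w7 ^ 2 + (u0 ^ 2 + u1 ^ 2 + u2 ^ 2 + u3 ^ 2 + u4 ^ 2 + u5 ^ 2 + u6 ^ 2 + u7 ^ 2)) / 2 := by
  have hx : StrictMono (![x0, x1, x2, x3, x4, x5, x6, x7] : Fin 8 → ℕ) := by
    rw [Fin.strictMono_iff_lt_succ]
    intro i
    fin_cases i <;> assumption
  have := hF.inst _ hx ![w0, w1, w2, w3, w4, w5, w6, w7] ![u0, u1, u2, u3, u4, u5, u6, u7]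
  simp only [Fin.sum_univ_eight] at this
  simp [-Fin.isValue] at this
  linarith

lemma IsSchur.sinst8 {F : ℕ → ℝ} (hF : IsSchur F) (x0 x1 x2 x3 x4 x5 x6 x7 : ℕ) (h0 : x0 < x1) (h1 : x1 < x2) (h2 : x2 < x3) (h3 : x3 < x4) (h4 : x4 < x5) (h5 : x5 < x6) (h6 : x6 < x7)
    (s0 s1 s2 s3 s4 s5 s6 s7 : ℝ) (hs0 : s0 ^ 2 = 1) (hs1 : s1 ^ 2 = 1) (hs2 : s2 ^ 2 = 1) (hs3 : s3 ^ 2 = 1) (hs4 : s4 ^ 2 = 1) (hs5 : s5 ^ 2 = 1) (hs6 : s6 ^ 2 = 1) (hs7 : s7 ^ 2 = 1)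
    (c f10 f20 f21 f30 f31 f32 f40 f41 f42 f43 f50 f51 f52 f53 f54 f60 f61 f62 f63 f64 f65 f70 f71 f72 f73 f74 f75 f76 : ℝ) (h00 : F 0 = c)
    (e10 : s1 * s0 * F (x1 - x0) = f10) (e20 : s2 * s0 * F (x2 - x0) = f20) (e21 : s2 * s1 * F (x2 - x1) = f21) (e30 : s3 * s0 * F (x3 - x0) = f30) (e31 : s3 * s1 * F (x3 - x1) = f31) (e32 : s3 * s2 * F (x3 - x2) = f32) (e40 : s4 * s0 * F (x4 - x0) = f40) (e41 : s4 * s1 * F (x4 - x1) = f41) (e42 : s4 * s2 * F (x4 - x2) = f42) (e43 : s4 * s3 * F (x4 - x3) = f43) (e50 : s5 * s0 * F (x5 - x0) = f50) (e51 : s5 * s1 * F (x5 - x1) = f51) (e52 : s5 * s2 * F (x5 - x2) = f52) (e53 : s5 * s3 * F (x5 - x3) = f53) (e54 : s5 * s4 * F (x5 - x4) = f54) (e60 : s6 * s0 * F (x6 - x0) = f60) (e61 : s6 * s1 * F (x6 - x1) = f61) (e62 : s6 * s2 * F (x6 - x2) = f62) (e63 : s6 * s3 * F (x6 - x3) = f63)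 (e64 : s6 * s4 * F (x6 - x4) = f64) (e65 : s6 * s5 * F (x6 - x5) = f65) (e70 : s7 * s0 * F (x7 - x0) = f70) (e71 : s7 * s1 * F (x7 - x1) = f71) (e72 : s7 * s2 * F (x7 - x2) = f72) (e73 : s7 * s3 * F (x7 - x3) = f73) (e74 : s7 * s4 * F (x7 - x4) = f74) (e75 : s7 * s5 * F (x7 - x5) = f75) (e76 : s7 * s6 * F (x7 - x6) = f76)
    (w0 w1 w2 w3 w4 w5 w6 w7 u0 u1 u2 u3 u4 u5 u6 u7 : ℝ) :
    w0 * u0 * c + w1 * u0 * f10 + w1 * u1 * c + w2 * u0 * f20 + w2 * u1 * f21 + w2 * u2 * c + w3 * u0 * f30 + w3 * u1 * f31 + w3 * u2 * f32 + w3 * u3 * c + w4 * u0 * f40 + w4 * u1 * f41 + w4 * u2 * f42 + w4 * u3 * f43 + w4 * u4 * c + w5 * u0 * f50 + w5 * u1 * f51 + w5 * u2 * f52 + w5 * u3 * f53 + w5 * u4 * f54 + w5 * u5 * c + w6 * u0 * f60 + w6 * u1 * f61 + w6 * u2 * f62 + w6 * u3 * f63 + w6 * u4 * f64 + w6 * u5 * f65 + w6 * u6 * c + w7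 * u0 * f70 + w7 * u1 * f71 + w7 * u2 * f72 + w7 * u3 * f73 + w7 * u4 * f74 + w7 * u5 * f75 + w7 * u6 * f76 + w7 * u7 * c
      ≤ (w0 ^ 2 + w1 ^ 2 + w2 ^ 2 + w3 ^ 2 + w4 ^ 2 + w5 ^ 2 + w6 ^ 2 + w7 ^ 2 + (u0 ^ 2 + u1 ^ 2 + u2 ^ 2 + u3 ^ 2 + u4 ^ 2 + u5 ^ 2 + u6 ^ 2 + u7 ^ 2)) / 2 := by
  have key := hF.inst8 x0 x1 x2 x3 x4 x5 x6 x7 h0 h1 h2 h3 h4 h5 h6 (s0 * w0) (s1 * w1) (s2 * w2) (s3 * w3) (s4 * w4) (s5 * w5) (s6 * w6) (s7 * w7) (s0 * u0) (s1 * u1) (s2 * u2) (s3 * u3) (s4 * u4) (s5 * u5) (s6 * u6) (s7 * u7)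
  have q0 : (s0 * w0) ^ 2 = w0 ^ 2 := by rw [mul_pow, hs0, one_mul]
  have p0 : (s0 * u0) ^ 2 = u0 ^ 2 := by rw [mul_pow, hs0, one_mul]
  have d0 : s0 * w0 * (s0 * u0) = w0 * u0 := by linear_combination (w0 * u0) * hs0
  have q1 : (s1 * w1) ^ 2 = w1 ^ 2 := by rw [mul_pow, hs1, one_mul]
  have p1 : (s1 * u1) ^ 2 = u1 ^ 2 := by rw [mul_pow, hs1, one_mul]
  have d1 : s1 * w1 * (s1 * u1) = w1 * u1 := by linear_combination (w1 * u1) * hs1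
  have q2 : (s2 * w2) ^ 2 = w2 ^ 2 := by rw [mul_pow, hs2, one_mul]
  have p2 : (s2 * u2) ^ 2 = u2 ^ 2 := by rw [mul_pow, hs2, one_mul]
  have d2 : s2 * w2 * (s2 * u2) = w2 * u2 := by linear_combination (w2 * u2) * hs2
  have q3 : (s3 * w3) ^ 2 = w3 ^ 2 := by rw [mul_pow, hs3, one_mul]
  have p3 : (s3 * u3) ^ 2 = u3 ^ 2 := by rw [mul_pow, hs3, one_mul]
  have d3 : s3 * w3 * (s3 * u3) = w3 * u3 := by linear_combination (w3 * u3) * hs3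
  have q4 : (s4 * w4) ^ 2 = w4 ^ 2 := by rw [mul_pow, hs4, one_mul]
  have p4 : (s4 * u4) ^ 2 = u4 ^ 2 := by rw [mul_pow, hs4, one_mul]
  have d4 : s4 * w4 * (s4 * u4) = w4 * u4 := by linear_combination (w4 * u4) * hs4
  have q5 : (s5 * w5) ^ 2 = w5 ^ 2 := by rw [mul_pow, hs5, one_mul]
  have p5 : (s5 * u5) ^ 2 = u5 ^ 2 := by rw [mul_pow, hs5, one_mul]
  have d5 : s5 * w5 * (s5 * u5) = w5 * u5 := by linear_combination (w5 * u5) * hs5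
  have q6 : (s6 * w6) ^ 2 = w6 ^ 2 := by rw [mul_pow, hs6, one_mul]
  have p6 : (s6 * u6) ^ 2 = u6 ^ 2 := by rw [mul_pow, hs6, one_mul]
  have d6 : s6 * w6 * (s6 * u6) = w6 * u6 := by linear_combination (w6 * u6) * hs6
  have q7 : (s7 * w7) ^ 2 = w7 ^ 2 := by rw [mul_pow, hs7, one_mul]
  have p7 : (s7 * u7) ^ 2 = u7 ^ 2 := by rw [mul_pow, hs7, one_mul]
  have d7 : s7 * w7 * (s7 * u7) = w7 * u7 := by linear_combination (w7 * u7) * hs7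
  have m10 : s1 * w1 * (s0 * u0) * F (x1 - x0) = w1 * u0 * f10 := by rw [← e10]; ring
  have m20 : s2 * w2 * (s0 * u0) * F (x2 - x0) = w2 * u0 * f20 := by rw [← e20]; ring
  have m21 : s2 * w2 * (s1 * u1) * F (x2 - x1) = w2 * u1 * f21 := by rw [← e21]; ring
  have m30 : s3 * w3 * (s0 * u0) * F (x3 - x0) = w3 * u0 * f30 := by rw [← e30]; ring
  have m31 : s3 * w3 * (s1 * u1) * F (x3 - x1) = w3 * u1 * f31 := by rw [← e31]; ring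
  have m32 : s3 * w3 * (s2 * u2) * F (x3 - x2) = w3 * u2 * f32 := by rw [← e32]; ring
  have m40 : s4 * w4 * (s0 * u0) * F (x4 - x0) = w4 * u0 * f40 := by rw [← e40]; ring
  have m41 : s4 * w4 * (s1 * u1) * F (x4 - x1) = w4 * u1 * f41 := by rw [← e41]; ring
  have m42 : s4 * w4 * (s2 * u2) * F (x4 - x2) = w4 * u2 * f42 := by rw [← e42]; ring
  have m43 : s4 * w4 * (s3 * u3) * F (x4 - x3) = w4 * u3 * f43 := by rw [← e43]; ring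
  have m50 : s5 * w5 * (s0 * u0) * F (x5 - x0) = w5 * u0 * f50 := by rw [← e50]; ring
  have m51 : s5 * w5 * (s1 * u1) * F (x5 - x1) = w5 * u1 * f51 := by rw [← e51]; ring
  have m52 : s5 * w5 * (s2 * u2) * F (x5 - x2) = w5 * u2 * f52 := by rw [← e52]; ring
  have m53 : s5 * w5 * (s3 * u3) * F (x5 - x3) = w5 * u3 * f53 := by rw [← e53]; ring
  have m54 : s5 * w5 * (s4 * u4) * F (x5 - x4) = w5 * u4 * f54 := by rw [← e54]; ring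
  have m60 : s6 * w6 * (s0 * u0) * F (x6 - x0) = w6 * u0 * f60 := by rw [← e60]; ring
  have m61 : s6 * w6 * (s1 * u1) * F (x6 - x1) = w6 * u1 * f61 := by rw [← e61]; ring
  have m62 : s6 * w6 * (s2 * u2) * F (x6 - x2) = w6 * u2 * f62 := by rw [← e62]; ring
  have m63 : s6 * w6 * (s3 * u3) * F (x6 - x3) = w6 * u3 * f63 := by rw [← e63]; ring
  have m64 : s6 * w6 * (s4 * u4) * F (x6 - x4) = w6 * u4 * f64 := by rw [← e64]; ring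
  have m65 : s6 * w6 * (s5 * u5) * F (x6 - x5) = w6 * u5 * f65 := by rw [← e65]; ring
  have m70 : s7 * w7 * (s0 * u0) * F (x7 - x0) = w7 * u0 * f70 := by rw [← e70]; ring
  have m71 : s7 * w7 * (s1 * u1) * F (x7 - x1) = w7 * u1 * f71 := by rw [← e71]; ring
  have m72 : s7 * w7 * (s2 * u2) * F (x7 - x2) = w7 * u2 * f72 := by rw [← e72]; ring
  have m73 : s7 * w7 * (s3 * u3) * F (x7 - x3) = w7 * u3 * f73 := by rw [← e73]; ring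
  have m74 : s7 * w7 * (s4 * u4) * F (x7 - x4) = w7 * u4 * f74 := by rw [← e74]; ring
  have m75 : s7 * w7 * (s5 * u5) * F (x7 - x5) = w7 * u5 * f75 := by rw [← e75]; ring
  have m76 : s7 * w7 * (s6 * u6) * F (x7 - x6) = w7 * u6 * f76 := by rw [← e76]; ring
  rw [q0, p0, d0, q1, p1, d1, q2, p2, d2, q3, p3, d3, q4, p4, d4, q5, p5, d5, q6, p6, d6, q7, p7, d7, m10, m20, m21, m30, m31, m32, m40, m41, m42, m43, m50, m51, m52, m53, m54, m60, m61, m62, m63, m64, m65, m70, m71, m72, m73, m74, m75, m76, h00] at key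
  exact key

end Pool.Agent.H3Mahler
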