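import Pool.Agent.H3Mahler.Blaschke

set_option autoImplicit false

namespace Pool.Agent.H3Mahler

open Finset ComplexConjugate

/-- real parts of the coefficients of a complex contraction series give a real contraction
sequence -/
lemma isSchur_re {φ : PowerSeries ℂ} (h : IsSchurC φ) :
    IsSchur (fun n => (PowerSeries.coeff n φ).re) := by
  intro N u
  have key := h (PowerSeries.mk fun n => (u n : ℂ)) N
  have h1 : ∑ n ∈ range N, ‖PowerSeries.coeff n (PowerSeries.mk fun n => (u n : ℂ))‖ ^ 2
      = ∑ n ∈ range N, u n ^ 2 := by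
    apply Finset.sum_congr rfl
    intro n _
    rw [PowerSeries.coeff_mk, Complex.norm_real, Real.norm_eq_abs, sq_abs]
  rw [h1] at key
  refine le_trans ?_ key
  apply Finset.sum_le_sum
  intro n _
  have h2 : ∑ j ∈ range (n + 1), (PowerSeries.coeff (n - j) φ).re * u j
      = (PowerSeries.coeff n (φ * PowerSeries.mk fun n => (u n : ℂ))).re := by
    rw [mul_comm, PowerSeries.coeff_mul,
      Finset.Nat.sum_antidiagonal_eq_sum_range_succ_mk, Complex.re_sum]
    apply Finset.sum_congr rfl
    intro j _
    simp [mul_comm]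
  rw [h2]
  have h3 := Complex.abs_re_le_norm (PowerSeries.coeff n (φ * PowerSeries.mk fun n => (u n : ℂ)))
  rw [← sq_abs]
  exact pow_le_pow_left₀ (abs_nonneg _) h3 2

lemma reverse_X_sub_C (a : ℂ) :
    (Polynomial.X - Polynomial.C a).reverse = 1 - Polynomial.C a * Polynomial.X := by
  rw [Polynomial.reverse, Polynomial.natDegree_X_sub_C, sub_eq_add_neg, ← Polynomial.C_neg,
    Polynomial.reflect_add, Polynomial.reflect_C]
  have : Polynomial.reflect 1 (Polynomial.X : Polynomial ℂ) = 1 := by
    have := Polynomial.reflect_monomial 1 1 (R := ℂ)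
    simp only [pow_one] at this
    rw [this]; simp
  rw [this, Polynomial.C_neg]; ring

lemma reverse_multiset_prod (s : Multiset ℂ) :
    ((s.map fun a => Polynomial.X - Polynomial.C a).prod).reverse
      = (s.map fun a => 1 - Polynomial.C a * Polynomial.X).prod := by
  induction s using Multiset.induction_on with
  | empty => simpa using Polynomial.reverse_C (1 : ℂ)
  | cons a s ih =>
    rw [Multiset.map_cons, Multiset.prod_cons, Polynomial.reverse_mul_of_domain, ih,
      reverse_X_sub_C, Multiset.map_cons, Multiset.prod_cons]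

lemma coe_multiset_prod (s : Multiset (Polynomial ℂ)) :
    ((s.prod : Polynomial ℂ) : PowerSeries ℂ) = (s.map (fun p : Polynomial ℂ => (p : PowerSeries ℂ))).prod := by
  induction s using Multiset.induction_on with
  | empty => simp
  | cons a s ih => rw [Multiset.prod_cons, Polynomial.coe_mul, ih, Multiset.map_cons,
      Multiset.prod_cons]

/-- From a polynomial without zeros on the unit circle to contraction sequences. -/
theorem exists_sequences (P : Polynomial ℤ) (hm : P.Monic)
    (h0 : P.coeff 0 = 1 ∨ P.coeff 0 = -1)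
    (hno : ∀ α ∈ (P.map (Int.castRingHom ℂ)).roots, ‖α‖ ≠ 1)
    (A : PowerSeries ℤ)
    (hA : A * (P.reverse : PowerSeries ℤ)
      = PowerSeries.C (P.coeff 0) * (P : PowerSeries ℤ)) :
    ∃ F G : ℕ → ℝ, IsSchur F ∧ IsSchur G ∧
      (∀ n, F n = ∑ i ∈ range (n + 1), ((PowerSeries.coeff i A : ℤ) : ℝ) * G (n - i)) ∧
      G 0 = 1 / (P.map (Int.castRingHom ℂ)).mahlerMeasure := by
  classical
  set PC := P.map (Int.castRingHom ℂ) with hPC
  have hmC : PC.Monic := hm.map _
  have hsplit : (PC.roots.map fun a => Polynomial.X - Polynomial.C a).prod = PC := by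
    have := (IsAlgClosed.splits PC).eq_prod_roots_of_monic hmC
    exact this.symm
  set s := PC.roots with hs
  set sin := s.filter (fun a => ‖a‖ < 1) with hsin
  set sout := s.filter (fun a => ¬ ‖a‖ < 1) with hsout
  have hadd : sin + sout = s := Multiset.filter_add_not _ _
  -- conj invariance
  have hconj : PC.map (starRingEnd ℂ) = PC := by
    rw [hPC, Polynomial.map_map]
    congr 1
    ext
    simp
  have hPC2 : (s.map fun a => Polynomial.X - Polynomial.C (conj a)).prod = PC := by
    rw [← hconj]
    conv_rhs => rw [← hsplit]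
    rw [Polynomial.map_multiset_prod, Multiset.map_map]
    congr 1
    apply Multiset.map_congr rfl
    intro a _
    simp
  have hQ : PC.reverse = (s.map fun a => 1 - Polynomial.C (conj a) * Polynomial.X).prod := by
    rw [← hPC2]
    have := reverse_multiset_prod (s.map fun a => conj a)
    rw [Multiset.map_map, Multiset.map_map] at this
    exact this
  have hPps : (PC : PowerSeries ℂ) = (s.map fun a => (PowerSeries.X - PowerSeries.C a)).prod := by
    conv_lhs => rw [← hsplit]
    rw [coe_multiset_prod, Multiset.map_map]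
    congr 1
    apply Multiset.map_congr rfl
    intro a _
    simp
  have hQps : (PC.reverse : PowerSeries ℂ)
      = (s.map fun a => (1 - PowerSeries.C (conj a) * PowerSeries.X)).prod := by
    rw [hQ, coe_multiset_prod, Multiset.map_map]
    congr 1
    apply Multiset.map_congr rfl
    intro a _
    simp
  set f : PowerSeries ℂ := (sin.map inF).prod with hf
  set g : PowerSeries ℂ := (sout.map outG).prod with hg
  have hroot0 : ∀ a ∈ s, a ≠ 0 := by
    intro a ha h
    subst h
    have h1 : PC.IsRoot 0 := Polynomial.isRoot_of_mem_roots ha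
    rw [Polynomial.IsRoot, ← Polynomial.coeff_zero_eq_eval_zero, hPC, Polynomial.coeff_map] at h1
    rcases h0 with h0 | h0 <;> simp [h0] at h1
  have hfS : IsSchurC f := isSchurC_prod _ _ fun a ha => isSchurC_inF (Multiset.mem_filter.mp ha).2
  have hgS : IsSchurC g := by
    apply isSchurC_prod
    intro a ha
    rw [hsout, Multiset.mem_filter] at ha
    exact isSchurC_outG (lt_of_le_of_ne (not_lt.mp ha.2) (Ne.symm (hno a ha.1)))
  -- f * Q = g * P
  have e1 : f * (sin.map fun a => (1 - PowerSeries.C (conj a) * PowerSeries.X)).prod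
      = (sin.map fun a => (PowerSeries.X - PowerSeries.C a)).prod := by
    rw [hf, ← Multiset.prod_map_mul]
    congr 1
    apply Multiset.map_congr rfl
    intro a _
    exact inF_mul a
  have e2 : g * (sout.map fun a => (PowerSeries.X - PowerSeries.C a)).prod
      = (sout.map fun a => (1 - PowerSeries.C (conj a) * PowerSeries.X)).prod := by
    rw [hg, ← Multiset.prod_map_mul]
    congr 1
    apply Multiset.map_congr rfl
    intro a ha
    exact outG_mul (hroot0 a (Multiset.mem_of_mem_filter ha))
  have e3 : f * (PC.reverse : PowerSeries ℂ) = g * (PC : PowerSeries ℂ) := by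
    rw [hQps, hPps, ← hadd, Multiset.map_add, Multiset.prod_add, Multiset.map_add,
      Multiset.prod_add, ← mul_assoc, e1, ← e2]
    ring
  -- A over ℂ
  set AC : PowerSeries ℂ := A.map (Int.castRingHom ℂ) with hAC
  have hrev : (PC.reverse : PowerSeries ℂ)
      = (P.reverse : PowerSeries ℤ).map (Int.castRingHom ℂ) := by
    rw [hPC]
    ext n
    rw [Polynomial.coeff_coe, PowerSeries.coeff_map, Polynomial.coeff_coe,
      Polynomial.coeff_reverse, Polynomial.coeff_reverse, Polynomial.coeff_map,
      Polynomial.natDegree_map_eq_of_injective (RingHom.injective_int (Int.castRingHom ℂ))]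
  have hPm : (PC : PowerSeries ℂ) = (P : PowerSeries ℤ).map (Int.castRingHom ℂ) := by
    rw [hPC]
    ext n
    rw [Polynomial.coeff_coe, PowerSeries.coeff_map, Polynomial.coeff_coe, Polynomial.coeff_map]
  set p0 : ℂ := ((P.coeff 0 : ℤ) : ℂ) with hp0
  have hp0n : ‖p0‖ = 1 := by
    rcases h0 with h0 | h0 <;> simp [hp0, h0]
  have hAQ : AC * (PC.reverse : PowerSeries ℂ) = PowerSeries.C p0 * (PC : PowerSeries ℂ) := by
    rw [hrev, hPm, hAC, ← map_mul, hA, map_mul]
    congr 1
    simp [hp0]
  have hQne : (PC.reverse : PowerSeries ℂ) ≠ 0 := by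
    intro h
    have h1 : PC.reverse = 0 := by exact_mod_cast h
    rw [Polynomial.reverse_eq_zero] at h1
    exact hmC.ne_zero h1
  have hfg : PowerSeries.C p0 * f = g * AC := by
    apply mul_right_cancel₀ hQne
    calc PowerSeries.C p0 * f * (PC.reverse : PowerSeries ℂ)
        = PowerSeries.C p0 * (f * (PC.reverse : PowerSeries ℂ)) := by ring
      _ = g * (PowerSeries.C p0 * (PC : PowerSeries ℂ)) := by rw [e3]; ring
      _ = g * AC * (PC.reverse : PowerSeries ℂ) := by rw [← hAQ]; ring
  -- constant coefficient of g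
  set g0 : ℂ := PowerSeries.constantCoeff g with hg0
  have hg0n : ‖g0‖ = 1 / PC.mahlerMeasure := by
    rw [Polynomial.mahlerMeasure_eq_leadingCoeff_mul_prod_roots, hmC.leadingCoeff, norm_one,
      one_mul, ← hs, ← hadd, Multiset.map_add, Multiset.prod_add]
    have h1 : (sin.map fun a => max 1 ‖a‖).prod = 1 := by
      rw [Multiset.prod_eq_one]
      intro x hx
      obtain ⟨a, ha, rfl⟩ := Multiset.mem_map.mp hx
      exact max_eq_left (Multiset.mem_filter.mp ha).2.le
    rw [h1, one_mul, hg0, hg]
    have h2 : ∀ t : Multiset ℂ, (∀ a ∈ t, ¬ ‖a‖ < 1) →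
        ‖PowerSeries.constantCoeff (t.map outG).prod‖ = 1 / (t.map fun a => max 1 ‖a‖).prod := by
      intro t
      induction t using Multiset.induction_on with
      | empty => intro _; simp
      | cons a t ih =>
        intro h
        rw [Multiset.map_cons, Multiset.prod_cons, Multiset.map_cons, Multiset.prod_cons,
          map_mul, norm_mul, ih fun b hb => h b (Multiset.mem_cons_of_mem hb)]
        have h3 : ‖PowerSeries.constantCoeff (outG a)‖ = 1 / ‖a‖ := by
          rw [outG, map_mul, cc_one_sub, one_mul, PowerSeries.constantCoeff_inv, cc_X_sub,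
            norm_inv, norm_neg, one_div]
        rw [h3, max_eq_right (not_lt.mp (h a (Multiset.mem_cons_self a t)))]
        rw [one_div, one_div, one_div, mul_inv]
    exact h2 sout fun a ha => (Multiset.mem_filter.mp ha).2
  have hMpos : 0 < PC.mahlerMeasure := Polynomial.mahlerMeasure_pos_of_ne_zero hmC.ne_zero
  have hg0pos : 0 < ‖g0‖ := by rw [hg0n]; positivity
  set η : ℂ := conj g0 / ‖g0‖ with hη
  have hηn : ‖η‖ = 1 := by
    rw [hη, norm_div, Complex.norm_conj, Complex.norm_real, norm_norm, div_self hg0pos.ne']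
  have hηg : η * g0 = (‖g0‖ : ℂ) := by
    have h5 : (‖g0‖ : ℂ) ≠ 0 := by exact_mod_cast hg0pos.ne'
    rw [hη, div_mul_eq_mul_div, mul_comm, Complex.mul_conj, Complex.normSq_eq_norm_sq]
    push_cast
    field_simp
  refine ⟨fun n => (PowerSeries.coeff n (PowerSeries.C η * (PowerSeries.C p0 * f))).re,
    fun n => (PowerSeries.coeff n (PowerSeries.C η * g)).re, ?_, ?_, ?_, ?_⟩
  · exact isSchur_re ((isSchurC_C hηn.le).mul ((isSchurC_C hp0n.le).mul hfS))
  · exact isSchur_re ((isSchurC_C hηn.le).mul hgS)
  · intro n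
    have h1 : PowerSeries.C η * (PowerSeries.C p0 * f) = AC * (PowerSeries.C η * g) := by
      rw [hfg]; ring
    simp only [h1]
    rw [PowerSeries.coeff_mul, Finset.Nat.sum_antidiagonal_eq_sum_range_succ_mk, Complex.re_sum]
    apply Finset.sum_congr rfl
    intro i _
    simp only [hAC, PowerSeries.coeff_map]
    rw [show (Int.castRingHom ℂ) (PowerSeries.coeff i A)
      = (((PowerSeries.coeff i A : ℤ) : ℝ) : ℂ) by simp]
    rw [Complex.re_ofReal_mul]
  · simp only [PowerSeries.coeff_C_mul, PowerSeries.coeff_zero_eq_constantCoeff]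
    rw [← hg0, hηg, Complex.ofReal_re, hg0n]

end Pool.Agent.H3Mahler
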