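import Mathlib

set_option autoImplicit false

namespace Pool.Agent.H3Mahler

open Polynomial ComplexConjugate

lemma aeval_conj_int (P : ℤ[X]) (α : ℂ) : aeval (conj α) P = conj (aeval α P) := by
  rw [aeval_def, aeval_def, Polynomial.hom_eval₂]
  congr 1
  ext
  simp

/-- A monic irreducible integer polynomial with a zero on the unit circle is reciprocal up to
sign. -/
lemma reciprocal_of_unit_root {P : ℤ[X]} (hm : P.Monic) (hirr : Irreducible P)
    (h0 : P.coeff 0 = 1 ∨ P.coeff 0 = -1) {α : ℂ} (hα : aeval α P = 0) (h1 : ‖α‖ = 1) :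
    P = P.reverse ∨ P = -P.reverse := by
  have hα0 : α ≠ 0 := by intro h; rw [h, norm_zero] at h1; exact zero_ne_one h1
  have hinv : conj α = α⁻¹ := by
    rw [Complex.inv_def, Complex.normSq_eq_norm_sq, h1]; simp
  have hint : IsIntegral ℤ α := ⟨P, hm, by rwa [← aeval_def]⟩
  have hmin : P = minpoly ℤ α := by
    have hd : minpoly ℤ α ∣ P := minpoly.isIntegrallyClosed_dvd hint hα
    have hass : Associated (minpoly ℤ α) P :=
      (hirr.dvd_iff.mp hd).resolve_left (minpoly.not_isUnit ℤ α) |>.symm
    exact (eq_of_monic_of_associated (minpoly.monic hint) hm hass).symm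
  have hrev : aeval α P.reverse = 0 := by
    letI : Invertible (α⁻¹) := invertibleOfNonzero (inv_ne_zero hα0)
    have h2 : aeval (α⁻¹) P = 0 := by rw [← hinv, aeval_conj_int, hα, map_zero]
    have h3 := (eval₂_reverse_eq_zero_iff (algebraMap ℤ ℂ) (α⁻¹) P).mpr (by rwa [← aeval_def])
    rw [aeval_def]
    simpa using h3
  have hd : P ∣ P.reverse := by
    rw [hmin]
    conv_rhs => rw [← hmin]
    exact minpoly.isIntegrallyClosed_dvd hint hrev
  obtain ⟨R, hR⟩ := hd
  have hrevne : P.reverse ≠ 0 := by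
    rw [Ne, reverse_eq_zero]; exact hm.ne_zero
  have hRne : R ≠ 0 := by rintro rfl; rw [mul_zero] at hR; exact hrevne hR
  have hdeg : R.natDegree = 0 := by
    have h4 := P.reverse_natDegree_le
    rw [hR, natDegree_mul hm.ne_zero hRne] at h4
    omega
  rw [natDegree_eq_zero] at hdeg
  obtain ⟨r, hr⟩ := hdeg
  rw [← hr] at hR
  have hc : P.reverse.coeff 0 = 1 := by
    rw [coeff_zero_reverse, hm.leadingCoeff]
  rw [hR, mul_coeff_zero, coeff_C_zero] at hc
  rcases h0 with h0 | h0
  · left
    have : r = 1 := by rw [h0] at hc; linarith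
    rw [hR, this, C_1, mul_one]
  · right
    have : r = -1 := by rw [h0] at hc; linarith
    rw [hR, this]; simp

end Pool.Agent.H3Mahler
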