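import Pool.Agent.H3Mahler.Inst
import Pool.Agent.H3Mahler.Certs
import Pool.Agent.H3Mahler.Setup

set_option autoImplicit false
set_option linter.unusedVariables false
set_option linter.unusedTactic false
set_option linter.unreachableTactic false
set_option linter.unusedSimpArgs false
set_option maxHeartbeats 4000000

namespace Pool.Agent.H3Mahler

lemma region_C1 {F G : ℕ → ℝ} {k ℓ j : ℕ} {a b e : ℝ} (S : Setup F G k ℓ j a b e)
    (ha : a = 1 ∨ a = -1) (hb : b = 1 ∨ b = -1) (hc : 0 ≤ G 0) (he : e ≤ 0)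
    (hj : j = 2 * k) (δ : ℕ) (hδ : 0 < δ) (hl : ℓ = k + δ) (hr : 4 * δ < k) :
    G 0 ≤ 733 / 1000 := by
  subst hj hl
  have hk := S.hk
  have F0 : F δ = G δ + 0 + 0 + 0 := by
    have h := S.rel δ (by omega)
    rw [if_neg (by omega : ¬ (k ≤ δ)), if_neg (by omega : ¬ (k + δ ≤ δ)), if_neg (by omega : ¬ (δ = 2 * k))] at h
    exact h
  have F1 : F (2 * δ) = G (2 * δ) + 0 + 0 + 0 := by
    have h := S.rel (2 * δ) (by omega)
    rw [if_neg (by omega : ¬ (k ≤ 2 * δ)), if_neg (by omega : ¬ (k + δ ≤ 2 * δ)), if_neg (by omega : ¬ (2 * δ = 2 * k))] at h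
    exact h
  have F2 : F (k - 2 * δ) = G (k - 2 * δ) + 0 + 0 + 0 := by
    have h := S.rel (k - 2 * δ) (by omega)
    rw [if_neg (by omega : ¬ (k ≤ k - 2 * δ)), if_neg (by omega : ¬ (k + δ ≤ k - 2 * δ)), if_neg (by omega : ¬ (k - 2 * δ = 2 * k))] at h
    exact h
  have F3 : F (k - 3 * δ) = G (k - 3 * δ) + 0 + 0 + 0 := by
    have h := S.rel (k - 3 * δ) (by omega)
    rw [if_neg (by omega : ¬ (k ≤ k - 3 * δ)), if_neg (by omega : ¬ (k + δ ≤ k - 3 * δ)), if_neg (by omega : ¬ (k - 3 * δ = 2 * k))] at h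
    exact h
  have F4 : F (k - 4 * δ) = G (k - 4 * δ) + 0 + 0 + 0 := by
    have h := S.rel (k - 4 * δ) (by omega)
    rw [if_neg (by omega : ¬ (k ≤ k - 4 * δ)), if_neg (by omega : ¬ (k + δ ≤ k - 4 * δ)), if_neg (by omega : ¬ (k - 4 * δ = 2 * k))] at h
    exact h
  have F5 : F (k - δ) = G (k - δ) + 0 + 0 + 0 := by
    have h := S.rel (k - δ) (by omega)
    rw [if_neg (by omega : ¬ (k ≤ k - δ)), if_neg (by omega : ¬ (k + δ ≤ k - δ)), if_neg (by omega : ¬ (k - δ = 2 * k))] at h
    exact h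
  have F6 : F k = G k + a * G 0 + 0 + 0 := by
    have h := S.rel k (by omega)
    rw [if_pos (by omega : k ≤ k), if_neg (by omega : ¬ (k + δ ≤ k)), if_neg (by omega : ¬ (k = 2 * k)), (by omega : k - k = 0)] at h
    exact h
  have F7 : F (2 * k - δ) = G (2 * k - δ) + a * G (k - δ) + b * G (k - 2 * δ) + 0 := by
    have h := S.rel (2 * k - δ) (by omega)
    rw [if_pos (by omega : k ≤ 2 * k - δ), if_pos (by omega : k + δ ≤ 2 * k - δ), if_neg (by omega : ¬ (2 * k - δ = 2 * k)), (by omega : 2 * k - δ - k = k - δ), (by omega : 2 * k - δ - (k + δ) = k - 2 * δ)] at h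
    exact h
  have F8 : F (2 * k - 2 * δ) = G (2 * k - 2 * δ) + a * G (k - 2 * δ) + b * G (k - 3 * δ) + 0 := by
    have h := S.rel (2 * k - 2 * δ) (by omega)
    rw [if_pos (by omega : k ≤ 2 * k - 2 * δ), if_pos (by omega : k + δ ≤ 2 * k - 2 * δ), if_neg (by omega : ¬ (2 * k - 2 * δ = 2 * k)), (by omega : 2 * k - 2 * δ - k = k - 2 * δ), (by omega : 2 * k - 2 * δ - (k + δ) = k - 3 * δ)] at h
    exact h
  have F9 : F (2 * k - 3 * δ) = G (2 * k - 3 * δ) + a * G (k - 3 * δ) + b * G (k - 4 * δ) + 0 := by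
    have h := S.rel (2 * k - 3 * δ) (by omega)
    rw [if_pos (by omega : k ≤ 2 * k - 3 * δ), if_pos (by omega : k + δ ≤ 2 * k - 3 * δ), if_neg (by omega : ¬ (2 * k - 3 * δ = 2 * k)), (by omega : 2 * k - 3 * δ - k = k - 3 * δ), (by omega : 2 * k - 3 * δ - (k + δ) = k - 4 * δ)] at h
    exact h
  have F10 : F (k + δ) = G (k + δ) + a * G δ + b * G 0 + 0 := by
    have h := S.rel (k + δ) (by omega)
    rw [if_pos (by omega : k ≤ k + δ), if_pos (by omega : k + δ ≤ k + δ), if_neg (by omega : ¬ (k + δ = 2 * k)), (by omega : k + δ - k = δ), (by omega : k + δ - (k + δ) = 0)] at h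
    exact h
  have F11 : F (2 * k) = G (2 * k) + a * G k + b * G (k - δ) + e * G 0 := by
    have h := S.rel (2 * k) (by omega)
    rw [if_pos (by omega : k ≤ 2 * k), if_pos (by omega : k + δ ≤ 2 * k), if_pos (by omega : 2 * k = 2 * k), (by omega : 2 * k - k = k), (by omega : 2 * k - (k + δ) = k - δ)] at h
    exact h
  have F12 : F (k + 2 * δ) = G (k + 2 * δ) + a * G (2 * δ) + b * G δ + 0 := by
    have h := S.rel (k + 2 * δ) (by omega)
    rw [if_pos (by omega : k ≤ k + 2 * δ), if_pos (by omega : k + δ ≤ k + 2 * δ), if_neg (by omega : ¬ (k + 2 * δ = 2 * k)), (by omega : k + 2 * δ - k = 2 * δ), (by omega : k + 2 * δ - (k + δ) = δ)] at h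
    exact h
  have f0 : a * b * F δ = (a * b * G δ) := by
    rw [F0]
    rcases ha with h1 | h1 <;> rcases hb with h2 | h2 <;> (try simp only [h1, h2]) <;> ring
  have g0 : a * b * G δ = (a * b * G δ) := by ring
  have f1 : 1 * F (2 * δ) = (G (2 * δ)) := by
    rw [F1]
    rcases ha with h1 | h1 <;> rcases hb with h2 | h2 <;> (try simp only [h1, h2]) <;> ring
  have g1 : 1 * G (2 * δ) = (G (2 * δ)) := by ring
  have f2 : a * F (k - 2 * δ) = (a * G (k - 2 * δ)) := by
    rw [F2]
    rcases ha with h1 | h1 <;> rcases hb with h2 | h2 <;> (try simp only [h1, h2]) <;> ring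
  have g2 : a * G (k - 2 * δ) = (a * G (k - 2 * δ)) := by ring
  have f3 : b * F (k - 3 * δ) = (b * G (k - 3 * δ)) := by
    rw [F3]
    rcases ha with h1 | h1 <;> rcases hb with h2 | h2 <;> (try simp only [h1, h2]) <;> ring
  have g3 : b * G (k - 3 * δ) = (b * G (k - 3 * δ)) := by ring
  have f4 : a * F (k - 4 * δ) = (a * G (k - 4 * δ)) := by
    rw [F4]
    rcases ha with h1 | h1 <;> rcases hb with h2 | h2 <;> (try simp only [h1, h2]) <;> ring
  have g4 : a * G (k - 4 * δ) = (a * G (k - 4 * δ)) := by ring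
  have f5 : b * F (k - δ) = (b * G (k - δ)) := by
    rw [F5]
    rcases ha with h1 | h1 <;> rcases hb with h2 | h2 <;> (try simp only [h1, h2]) <;> ring
  have g5 : b * G (k - δ) = (b * G (k - δ)) := by ring
  have f6 : a * F k = (G 0) + (a * G k) := by
    rw [F6]
    rcases ha with h1 | h1 <;> rcases hb with h2 | h2 <;> (try simp only [h1, h2]) <;> ring
  have g6 : a * G k = (a * G k) := by ring
  have f7 : a * b * F (2 * k - δ) = (a * G (k - 2 * δ)) + (b * G (k - δ)) + (a * b * G (2 * k - δ)) := by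
    rw [F7]
    rcases ha with h1 | h1 <;> rcases hb with h2 | h2 <;> (try simp only [h1, h2]) <;> ring
  have g7 : a * b * G (2 * k - δ) = (a * b * G (2 * k - δ)) := by ring
  have f8 : 1 * F (2 * k - 2 * δ) = (a * G (k - 2 * δ)) + (b * G (k - 3 * δ)) + (G (2 * k - 2 * δ)) := by
    rw [F8]
    rcases ha with h1 | h1 <;> rcases hb with h2 | h2 <;> (try simp only [h1, h2]) <;> ring
  have g8 : 1 * G (2 * k - 2 * δ) = (G (2 * k - 2 * δ)) := by ring
  have f9 : a * b * F (2 * k - 3 * δ) = (b * G (k - 3 * δ)) + (a * G (k - 4 * δ)) + (a * b * G (2 * k - 3 * δ)) := by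
    rw [F9]
    rcases ha with h1 | h1 <;> rcases hb with h2 | h2 <;> (try simp only [h1, h2]) <;> ring
  have g9 : a * b * G (2 * k - 3 * δ) = (a * b * G (2 * k - 3 * δ)) := by ring
  have f10 : b * F (k + δ) = (G 0) + (a * b * G δ) + (b * G (k + δ)) := by
    rw [F10]
    rcases ha with h1 | h1 <;> rcases hb with h2 | h2 <;> (try simp only [h1, h2]) <;> ring
  have g10 : b * G (k + δ) = (b * G (k + δ)) := by ring
  have f11 : 1 * F (2 * k) = (b * G (k - δ)) + (a * G k) + (G (2 * k)) + (e * G 0) := by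
    rw [F11]
    rcases ha with h1 | h1 <;> rcases hb with h2 | h2 <;> (try simp only [h1, h2]) <;> ring
  have g11 : 1 * G (2 * k) = (G (2 * k)) := by ring
  have f12 : a * F (k + 2 * δ) = (a * b * G δ) + (G (2 * δ)) + (a * G (k + 2 * δ)) := by
    rw [F12]
    rcases ha with h1 | h1 <;> rcases hb with h2 | h2 <;> (try simp only [h1, h2]) <;> ring
  have g12 : a * G (k + 2 * δ) = (a * G (k + 2 * δ)) := by ring
  have p0 : 1 * 1 = (1 : ℝ) := by
    rcases ha with h1 | h1 <;> rcases hb with h2 | h2 <;> (try simp only [h1, h2]) <;> norm_num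
  have p1 : 1 * b = (b : ℝ) := by
    rcases ha with h1 | h1 <;> rcases hb with h2 | h2 <;> (try simp only [h1, h2]) <;> norm_num
  have p2 : 1 * a = (a : ℝ) := by
    rcases ha with h1 | h1 <;> rcases hb with h2 | h2 <;> (try simp only [h1, h2]) <;> norm_num
  have p3 : 1 * (a * b) = (a * b : ℝ) := by
    rcases ha with h1 | h1 <;> rcases hb with h2 | h2 <;> (try simp only [h1, h2]) <;> norm_num
  have p4 : b * 1 = (b : ℝ) := by
    rcases ha with h1 | h1 <;> rcases hb with h2 | h2 <;> (try simp only [h1, h2]) <;> norm_num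
  have p5 : b * a = (a * b : ℝ) := by
    rcases ha with h1 | h1 <;> rcases hb with h2 | h2 <;> (try simp only [h1, h2]) <;> norm_num
  have p6 : b * (a * b) = (a : ℝ) := by
    rcases ha with h1 | h1 <;> rcases hb with h2 | h2 <;> (try simp only [h1, h2]) <;> norm_num
  have p7 : a * 1 = (a : ℝ) := by
    rcases ha with h1 | h1 <;> rcases hb with h2 | h2 <;> (try simp only [h1, h2]) <;> norm_num
  have p8 : a * b = (a * b : ℝ) := by
    rcases ha with h1 | h1 <;> rcases hb with h2 | h2 <;> (try simp only [h1, h2]) <;> norm_num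
  have p9 : a * a = (1 : ℝ) := by
    rcases ha with h1 | h1 <;> rcases hb with h2 | h2 <;> (try simp only [h1, h2]) <;> norm_num
  have p10 : a * (a * b) = (b : ℝ) := by
    rcases ha with h1 | h1 <;> rcases hb with h2 | h2 <;> (try simp only [h1, h2]) <;> norm_num
  have p11 : (a * b) * 1 = (a * b : ℝ) := by
    rcases ha with h1 | h1 <;> rcases hb with h2 | h2 <;> (try simp only [h1, h2]) <;> norm_num
  have p12 : (a * b) * b = (a : ℝ) := by
    rcases ha with h1 | h1 <;> rcases hb with h2 | h2 <;> (try simp only [h1, h2]) <;> norm_num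
  have p13 : (a * b) * a = (b : ℝ) := by
    rcases ha with h1 | h1 <;> rcases hb with h2 | h2 <;> (try simp only [h1, h2]) <;> norm_num
  have p14 : (a * b) * (a * b) = (1 : ℝ) := by
    rcases ha with h1 | h1 <;> rcases hb with h2 | h2 <;> (try simp only [h1, h2]) <;> norm_num
  have s0 : 1 ^ 2 = (1 : ℝ) := by
    rcases ha with h1 | h1 <;> rcases hb with h2 | h2 <;> (try simp only [h1, h2]) <;> norm_num
  have s1 : b ^ 2 = (1 : ℝ) := by
    rcases ha with h1 | h1 <;> rcases hb with h2 | h2 <;> (try simp only [h1, h2]) <;> norm_num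
  have s2 : a ^ 2 = (1 : ℝ) := by
    rcases ha with h1 | h1 <;> rcases hb with h2 | h2 <;> (try simp only [h1, h2]) <;> norm_num
  have s3 : (a * b) ^ 2 = (1 : ℝ) := by
    rcases ha with h1 | h1 <;> rcases hb with h2 | h2 <;> (try simp only [h1, h2]) <;> norm_num
  have x10 : δ - 0 = δ := by omega
  have x20 : 2 * δ - 0 = 2 * δ := by omega
  have x21 : 2 * δ - δ = δ := by omega
  have x30 : k - 2 * δ - 0 = k - 2 * δ := by omega
  have x31 : k - 2 * δ - δ = k - 3 * δ := by omega
  have x32 : k - 2 * δ - (2 * δ) = k - 4 * δ := by omega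
  have x40 : k - δ - 0 = k - δ := by omega
  have x41 : k - δ - δ = k - 2 * δ := by omega
  have x42 : k - δ - (2 * δ) = k - 3 * δ := by omega
  have x43 : k - δ - (k - 2 * δ) = δ := by omega
  have x50 : k - 0 = k := by omega
  have x51 : k - δ = k - δ := by omega
  have x52 : k - (2 * δ) = k - 2 * δ := by omega
  have x53 : k - (k - 2 * δ) = 2 * δ := by omega
  have x54 : k - (k - δ) = δ := by omega
  have x60 : 2 * k - δ - 0 = 2 * k - δ := by omega
  have x61 : 2 * k - δ - δ = 2 * k - 2 * δ := by omega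
  have x62 : 2 * k - δ - (2 * δ) = 2 * k - 3 * δ := by omega
  have x63 : 2 * k - δ - (k - 2 * δ) = k + δ := by omega
  have x64 : 2 * k - δ - (k - δ) = k := by omega
  have x65 : 2 * k - δ - k = k - δ := by omega
  have x70 : 2 * k - 0 = 2 * k := by omega
  have x71 : 2 * k - δ = 2 * k - δ := by omega
  have x72 : 2 * k - (2 * δ) = 2 * k - 2 * δ := by omega
  have x73 : 2 * k - (k - 2 * δ) = k + 2 * δ := by omega
  have x74 : 2 * k - (k - δ) = k + δ := by omega
  have x75 : 2 * k - k = k := by omega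
  have x76 : 2 * k - (2 * k - δ) = δ := by omega
  have eF10 : (a * b) * 1 * F (δ - 0) = (a * b * G δ) := by
    rw [x10, p11]; first | done | exact f0
  have eF20 : 1 * 1 * F (2 * δ - 0) = (G (2 * δ)) := by
    rw [x20, p0]; first | done | exact f1
  have eF21 : 1 * (a * b) * F (2 * δ - δ) = (a * b * G δ) := by
    rw [x21, p3]; first | done | exact f0
  have eF30 : a * 1 * F (k - 2 * δ - 0) = (a * G (k - 2 * δ)) := by
    rw [x30, p7]; first | done | exact f2
  have eF31 : a * (a * b) * F (k - 2 * δ - δ) = (b * G (k - 3 * δ)) := by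
    rw [x31, p10]; first | done | exact f3
  have eF32 : a * 1 * F (k - 2 * δ - (2 * δ)) = (a * G (k - 4 * δ)) := by
    rw [x32, p7]; first | done | exact f4
  have eF40 : b * 1 * F (k - δ - 0) = (b * G (k - δ)) := by
    rw [x40, p4]; first | done | exact f5
  have eF41 : b * (a * b) * F (k - δ - δ) = (a * G (k - 2 * δ)) := by
    rw [x41, p6]; first | done | exact f2
  have eF42 : b * 1 * F (k - δ - (2 * δ)) = (b * G (k - 3 * δ)) := by
    rw [x42, p4]; first | done | exact f3
  have eF43 : b * a * F (k - δ - (k - 2 * δ)) = (a * b * G δ) := by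
    rw [x43, p5]; first | done | exact f0
  have eF50 : a * 1 * F (k - 0) = (G 0) + (a * G k) := by
    rw [x50, p7]; first | done | exact f6
  have eF51 : a * (a * b) * F (k - δ) = (b * G (k - δ)) := by
    rw [x51, p10]; first | done | exact f5
  have eF52 : a * 1 * F (k - (2 * δ)) = (a * G (k - 2 * δ)) := by
    rw [x52, p7]; first | done | exact f2
  have eF53 : a * a * F (k - (k - 2 * δ)) = (G (2 * δ)) := by
    rw [x53, p9]; first | done | exact f1
  have eF54 : a * b * F (k - (k - δ)) = (a * b * G δ) := by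
    rw [x54, p8]; first | done | exact f0
  have eF60 : (a * b) * 1 * F (2 * k - δ - 0) = (a * G (k - 2 * δ)) + (b * G (k - δ)) + (a * b * G (2 * k - δ)) := by
    rw [x60, p11]; first | done | exact f7
  have eF61 : (a * b) * (a * b) * F (2 * k - δ - δ) = (a * G (k - 2 * δ)) + (b * G (k - 3 * δ)) + (G (2 * k - 2 * δ)) := by
    rw [x61, p14]; first | done | exact f8
  have eF62 : (a * b) * 1 * F (2 * k - δ - (2 * δ)) = (b * G (k - 3 * δ)) + (a * G (k - 4 * δ)) + (a * b * G (2 * k - 3 * δ)) := by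
    rw [x62, p11]; first | done | exact f9
  have eF63 : (a * b) * a * F (2 * k - δ - (k - 2 * δ)) = (G 0) + (a * b * G δ) + (b * G (k + δ)) := by
    rw [x63, p13]; first | done | exact f10
  have eF64 : (a * b) * b * F (2 * k - δ - (k - δ)) = (G 0) + (a * G k) := by
    rw [x64, p12]; first | done | exact f6
  have eF65 : (a * b) * a * F (2 * k - δ - k) = (b * G (k - δ)) := by
    rw [x65, p13]; first | done | exact f5
  have eF70 : 1 * 1 * F (2 * k - 0) = (b * G (k - δ)) + (a * G k) + (G (2 * k)) + (e * G 0) := by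
    rw [x70, p0]; first | done | exact f11
  have eF71 : 1 * (a * b) * F (2 * k - δ) = (a * G (k - 2 * δ)) + (b * G (k - δ)) + (a * b * G (2 * k - δ)) := by
    rw [x71, p3]; first | done | exact f7
  have eF72 : 1 * 1 * F (2 * k - (2 * δ)) = (a * G (k - 2 * δ)) + (b * G (k - 3 * δ)) + (G (2 * k - 2 * δ)) := by
    rw [x72, p0]; first | done | exact f8
  have eF73 : 1 * a * F (2 * k - (k - 2 * δ)) = (a * b * G δ) + (G (2 * δ)) + (a * G (k + 2 * δ)) := by
    rw [x73, p2]; first | done | exact f12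
  have eF74 : 1 * b * F (2 * k - (k - δ)) = (G 0) + (a * b * G δ) + (b * G (k + δ)) := by
    rw [x74, p1]; first | done | exact f10
  have eF75 : 1 * a * F (2 * k - k) = (G 0) + (a * G k) := by
    rw [x75, p2]; first | done | exact f6
  have eF76 : 1 * (a * b) * F (2 * k - (2 * k - δ)) = (a * b * G δ) := by
    rw [x76, p3]; first | done | exact f0
  have eG10 : (a * b) * 1 * G (δ - 0) = (a * b * G δ) := by
    rw [x10, p11]; first | done | exact g0
  have eG20 : 1 * 1 * G (2 * δ - 0) = (G (2 * δ)) := by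
    rw [x20, p0]; first | done | exact g1
  have eG21 : 1 * (a * b) * G (2 * δ - δ) = (a * b * G δ) := by
    rw [x21, p3]; first | done | exact g0
  have eG30 : a * 1 * G (k - 2 * δ - 0) = (a * G (k - 2 * δ)) := by
    rw [x30, p7]; first | done | exact g2
  have eG31 : a * (a * b) * G (k - 2 * δ - δ) = (b * G (k - 3 * δ)) := by
    rw [x31, p10]; first | done | exact g3
  have eG32 : a * 1 * G (k - 2 * δ - (2 * δ)) = (a * G (k - 4 * δ)) := by
    rw [x32, p7]; first | done | exact g4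
  have eG40 : b * 1 * G (k - δ - 0) = (b * G (k - δ)) := by
    rw [x40, p4]; first | done | exact g5
  have eG41 : b * (a * b) * G (k - δ - δ) = (a * G (k - 2 * δ)) := by
    rw [x41, p6]; first | done | exact g2
  have eG42 : b * 1 * G (k - δ - (2 * δ)) = (b * G (k - 3 * δ)) := by
    rw [x42, p4]; first | done | exact g3
  have eG43 : b * a * G (k - δ - (k - 2 * δ)) = (a * b * G δ) := by
    rw [x43, p5]; first | done | exact g0
  have eG50 : a * 1 * G (k - 0) = (a * G k) := by
    rw [x50, p7]; first | done | exact g6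
  have eG51 : a * (a * b) * G (k - δ) = (b * G (k - δ)) := by
    rw [x51, p10]; first | done | exact g5
  have eG52 : a * 1 * G (k - (2 * δ)) = (a * G (k - 2 * δ)) := by
    rw [x52, p7]; first | done | exact g2
  have eG53 : a * a * G (k - (k - 2 * δ)) = (G (2 * δ)) := by
    rw [x53, p9]; first | done | exact g1
  have eG54 : a * b * G (k - (k - δ)) = (a * b * G δ) := by
    rw [x54, p8]; first | done | exact g0
  have eG60 : (a * b) * 1 * G (2 * k - δ - 0) = (a * b * G (2 * k - δ)) := by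
    rw [x60, p11]; first | done | exact g7
  have eG61 : (a * b) * (a * b) * G (2 * k - δ - δ) = (G (2 * k - 2 * δ)) := by
    rw [x61, p14]; first | done | exact g8
  have eG62 : (a * b) * 1 * G (2 * k - δ - (2 * δ)) = (a * b * G (2 * k - 3 * δ)) := by
    rw [x62, p11]; first | done | exact g9
  have eG63 : (a * b) * a * G (2 * k - δ - (k - 2 * δ)) = (b * G (k + δ)) := by
    rw [x63, p13]; first | done | exact g10
  have eG64 : (a * b) * b * G (2 * k - δ - (k - δ)) = (a * G k) := by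
    rw [x64, p12]; first | done | exact g6
  have eG65 : (a * b) * a * G (2 * k - δ - k) = (b * G (k - δ)) := by
    rw [x65, p13]; first | done | exact g5
  have eG70 : 1 * 1 * G (2 * k - 0) = (G (2 * k)) := by
    rw [x70, p0]; first | done | exact g11
  have eG71 : 1 * (a * b) * G (2 * k - δ) = (a * b * G (2 * k - δ)) := by
    rw [x71, p3]; first | done | exact g7
  have eG72 : 1 * 1 * G (2 * k - (2 * δ)) = (G (2 * k - 2 * δ)) := by
    rw [x72, p0]; first | done | exact g8
  have eG73 : 1 * a * G (2 * k - (k - 2 * δ)) = (a * G (k + 2 * δ)) := by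
    rw [x73, p2]; first | done | exact g12
  have eG74 : 1 * b * G (2 * k - (k - δ)) = (b * G (k + δ)) := by
    rw [x74, p1]; first | done | exact g10
  have eG75 : 1 * a * G (2 * k - k) = (a * G k) := by
    rw [x75, p2]; first | done | exact g6
  have eG76 : 1 * (a * b) * G (2 * k - (2 * k - δ)) = (a * b * G δ) := by
    rw [x76, p3]; first | done | exact g0
  have hFF := S.hF.sinst8 0 δ (2 * δ) (k - 2 * δ) (k - δ) k (2 * k - δ) (2 * k) (by omega) (by omega) (by omega) (by omega) (by omega) (by omega) (by omega) 1 (a * b) 1 a b a (a * b) 1 s0 s3 s0 s2 s1 s2 s3 s0 (G 0)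
      ((a * b * G δ)) ((G (2 * δ))) ((a * b * G δ)) ((a * G (k - 2 * δ))) ((b * G (k - 3 * δ))) ((a * G (k - 4 * δ))) ((b * G (k - δ))) ((a * G (k - 2 * δ))) ((b * G (k - 3 * δ))) ((a * b * G δ)) ((G 0) + (a * G k)) ((b * G (k - δ))) ((a * G (k - 2 * δ))) ((G (2 * δ))) ((a * b * G δ)) ((a * G (k - 2 * δ)) + (b * G (k - δ)) + (a * b * G (2 * k - δ))) ((a * G (k - 2 * δ)) + (b * G (k - 3 * δ)) + (G (2 * k - 2 * δ))) ((b * G (k - 3 * δ)) + (a * G (k - 4 * δ)) + (a * b * G (2 * k - 3 * δ))) ((G 0) + (a * b * G δ) + (b * G (k + δ))) ((G 0) + (a * G k)) ((b * G (k - δ))) ((b * G (k - δ)) + (a * G k) + (G (2 * k)) + (e * G 0)) ((a * G (k - 2 * δ)) + (b * G (k - δ)) + (a * b * G (2 * k - δ))) ((a * G (k - 2 * δ)) + (b * G (k - 3 * δ)) + (G (2 * k - 2 * δ))) ((a * b * G δ) + (G (2 * δ)) + (a * G (k + 2 * δ))) ((G 0) + (a * b * G δ) + (b * G (k + δ))) ((G 0) + (a * G k)) ((a * b * G δ)) S.zero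
      eF10 eF20 eF21 eF30 eF31 eF32 eF40 eF41 eF42 eF43 eF50 eF51 eF52 eF53 eF54 eF60 eF61 eF62 eF63 eF64 eF65 eF70 eF71 eF72 eF73 eF74 eF75 eF76
  have hGG := S.hG.sinst8 0 δ (2 * δ) (k - 2 * δ) (k - δ) k (2 * k - δ) (2 * k) (by omega) (by omega) (by omega) (by omega) (by omega) (by omega) (by omega) 1 (a * b) 1 a b a (a * b) 1 s0 s3 s0 s2 s1 s2 s3 s0 (G 0)
      ((a * b * G δ)) ((G (2 * δ))) ((a * b * G δ)) ((a * G (k - 2 * δ))) ((b * G (k - 3 * δ))) ((a * G (k - 4 * δ))) ((b * G (k - δ))) ((a * G (k - 2 * δ))) ((b * G (k - 3 * δ))) ((a * b * G δ)) ((a * G k)) ((b * G (k - δ))) ((a * G (k - 2 * δ))) ((G (2 * δ))) ((a * b * G δ)) ((a * b * G (2 * k - δ))) ((G (2 * k - 2 * δ))) ((a * b * G (2 * k - 3 * δ))) ((b * G (k + δ))) ((a * G k)) ((b * G (k - δ))) ((G (2 * k))) ((a * b * G (2 * k - δ))) ((G (2 * k - 2 * δ))) ((a * G (k + 2 * δ))) ((b * G (k + δ))) ((a * G k)) ((a * b * G δ)) rfl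
      eG10 eG20 eG21 eG30 eG31 eG32 eG40 eG41 eG42 eG43 eG50 eG51 eG52 eG53 eG54 eG60 eG61 eG62 eG63 eG64 eG65 eG70 eG71 eG72 eG73 eG74 eG75 eG76
  exact cert_C1 (G 0) (a * b * G δ) (G (2 * δ)) (a * G (k - 2 * δ)) (b * G (k - 3 * δ)) (a * G (k - 4 * δ)) (b * G (k - δ)) (a * G k) (a * b * G (2 * k - δ)) (G (2 * k - 2 * δ)) (a * b * G (2 * k - 3 * δ)) (b * G (k + δ)) (G (2 * k)) (a * G (k + 2 * δ)) (e * G 0) hFF hGG (mul_nonpos_of_nonpos_of_nonneg he hc)

end Pool.Agent.H3Mahler
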