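import Mathlib

set_option autoImplicit false

namespace Pool.Agent.H3Mahler

open Finset

/-- Truncated contraction property of a real sequence: convolution by `F` does not increase
any truncated square norm. -/
def IsSchur (F : ℕ → ℝ) : Prop :=
  ∀ (N : ℕ) (u : ℕ → ℝ),
    ∑ n ∈ range N, (∑ j ∈ range (n + 1), F (n - j) * u j) ^ 2 ≤ ∑ n ∈ range N, (u n) ^ 2

lemma sum_ind_sq {r : ℕ} (x : Fin r → ℕ) (hx : Function.Injective x) (u : Fin r → ℝ) (N : ℕ)
    (hN : ∀ i, x i < N) :
    ∑ n ∈ range N, (∑ i, if x i = n then u i else 0) ^ 2 = ∑ i, (u i) ^ 2 := by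
  have h1 : ∀ n, (∑ i, if x i = n then u i else 0) ^ 2 = ∑ i, if x i = n then (u i) ^ 2 else 0 := by
    intro n
    by_cases h : ∃ i, x i = n
    · obtain ⟨i, rfl⟩ := h
      rw [Finset.sum_eq_single i, Finset.sum_eq_single i]
      · simp
      · intro j _ hj
        rw [if_neg]
        intro h; exact hj (hx h)
      · simp
      · intro j _ hj
        rw [if_neg]
        intro h; exact hj (hx h)
      · simp
    · push Not at h
      simp [h]
  simp_rw [h1]
  rw [Finset.sum_comm]
  apply Finset.sum_congr rfl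
  intro i _
  rw [Finset.sum_ite_eq]
  simp [hN i]

lemma IsSchur.inst {F : ℕ → ℝ} (hF : IsSchur F) {r : ℕ} (x : Fin r → ℕ) (hx : StrictMono x)
    (w u : Fin r → ℝ) :
    ∑ i, ∑ j, (if j ≤ i then w i * u j * F (x i - x j) else 0)
      ≤ (∑ i, (w i) ^ 2 + ∑ i, (u i) ^ 2) / 2 := by
  obtain ⟨N, hN⟩ : ∃ N, ∀ i, x i < N := by
    refine ⟨∑ i, (x i + 1), fun i => ?_⟩
    have := Finset.single_le_sum (f := fun i => x i + 1) (fun i _ => Nat.zero_le _)
      (Finset.mem_univ i)
    omega
  set U : ℕ → ℝ := fun n => ∑ i, if x i = n then u i else 0 with hU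
  set W : ℕ → ℝ := fun n => ∑ i, if x i = n then w i else 0 with hW
  have hUs : ∑ n ∈ range N, (U n) ^ 2 = ∑ i, (u i) ^ 2 := sum_ind_sq x hx.injective u N hN
  have hWs : ∑ n ∈ range N, (W n) ^ 2 = ∑ i, (w i) ^ 2 := sum_ind_sq x hx.injective w N hN
  have key := hF N U
  have h2 : ∑ n ∈ range N, W n * (∑ j ∈ range (n + 1), F (n - j) * U j)
      ≤ (∑ n ∈ range N, (W n) ^ 2 + ∑ n ∈ range N, (∑ j ∈ range (n + 1), F (n - j) * U j) ^ 2) / 2 := by
    rw [← Finset.sum_add_distrib, Finset.sum_div]
    apply Finset.sum_le_sum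
    intro n _
    nlinarith [sq_nonneg (W n - ∑ j ∈ range (n + 1), F (n - j) * U j)]
  have h3 : ∑ n ∈ range N, W n * (∑ j ∈ range (n + 1), F (n - j) * U j)
      = ∑ i, ∑ j, (if j ≤ i then w i * u j * F (x i - x j) else 0) := by
    simp only [hW, Finset.sum_mul]
    rw [Finset.sum_comm]
    apply Finset.sum_congr rfl
    intro i _
    have : ∀ n ∈ range N, (if x i = n then w i else 0) * (∑ j ∈ range (n + 1), F (n - j) * U j)
        = if x i = n then w i * (∑ j ∈ range (x i + 1), F (x i - j) * U j) else 0 := by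
      intro n _
      split_ifs with h
      · subst h; rfl
      · simp
    rw [Finset.sum_congr rfl this, Finset.sum_ite_eq]
    simp only [mem_range, hN i, if_true]
    simp only [hU, Finset.mul_sum]
    rw [Finset.sum_comm]
    apply Finset.sum_congr rfl
    intro j _
    by_cases hji : j ≤ i
    · rw [if_pos hji]
      rw [Finset.sum_eq_single (x j)]
      · simp; ring
      · intro b _ hb
        rw [if_neg (Ne.symm hb)]; simp
      · intro hb
        exfalso
        apply hb
        have := hx.monotone hji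
        simp only [mem_range]
        omega
    · rw [if_neg hji]
      apply Finset.sum_eq_zero
      intro b hb
      have : x i < x j := hx (not_le.mp hji)
      simp only [mem_range] at hb
      rw [if_neg (by omega)]
      simp
  rw [← h3]
  calc _ ≤ _ := h2
    _ ≤ _ := by rw [hWs]; linarith

end Pool.Agent.H3Mahler
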